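import Mathlib
import Pool.Agent.Q8.KS.Setting

set_option autoImplicit false

namespace Pool.Agent.U935.KS

open Pool.Agent.Q8.KS Filter Topology

variable {G : Type} [Group G]

/-- The ground field is a number field: points have finitely many conjugates, and Northcott's
theorem holds for the heights of ample classes. -/
structure NumberField (V : Variety G) : Prop where
  orbit_finite : ∀ x : V.Pt, (MulAction.orbit G x).Finite
  northcott : ∀ (A : V.Pic) (u : V.Pt → ℝ), V.IsAmple A → V.IsHeight A u → ∀ (e : ℕ) (C : ℝ),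
    {x : V.Pt | (MulAction.orbit G x).ncard ≤ e ∧ u x ≤ C}.Finite

/-- The Zariski topology on the points of `V` and the pseudo-effective cone. -/
structure Zariski (V : Variety G) where
  /-- the Zariski topology -/
  [top : TopologicalSpace V.Pt]
  /-- points are closed -/
  t1 : T1Space V.Pt
  /-- `V` is irreducible -/
  irreducible : IrreducibleSpace V.Pt
  /-- `V` has positive dimension -/
  infinite : Infinite V.Pt
  /-- the pseudo-effective cone; its interior is the big cone -/
  Eff : Set V.NS
  eff_cone : IsCone Eff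
  nef_subset : V.Nef ⊆ Eff
  /-- the heights of a big class are bounded below off a proper closed subset -/
  big_height : ∀ D : V.Pic, V.cls D ∈ interior Eff → ∀ u : V.Pt → ℝ, V.IsHeight D u →
    ∃ Z : Set V.Pt, IsClosed Z ∧ Z ≠ Set.univ ∧ ∃ c : ℝ, ∀ x, x ∉ Z → c ≤ u x

/-- The orbit `x, f(x), f²(x), …` is infinite. -/
def InfiniteOrbit {V : Variety G} (f : Morphism V V) (x : V.Pt) : Prop :=
  (Set.range fun n : ℕ => f.pt^[n] x).Infinite

/-- The orbit of `x` is Zariski dense. -/
def DenseOrbit {V : Variety G} (Z : Zariski V) (f : Morphism V V) (x : V.Pt) : Prop :=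
  letI := Z.top
  Dense (Set.range fun n : ℕ => f.pt^[n] x)

/-- The orbit of `x` is generic: it meets each proper closed subset finitely many times. -/
def GenericOrbit {V : Variety G} (Z : Zariski V) (f : Morphism V V) (x : V.Pt) : Prop :=
  letI := Z.top
  ∀ W : Set V.Pt, IsClosed W → W ≠ Set.univ → {n : ℕ | f.pt^[n] x ∈ W}.Finite

/-- The dynamical Mordell-Lang conjecture for `f` and `x`: the times at which the orbit is in a
closed subset form a finite union of progressions `{a + b k : k ≥ 0}`, `b = 0` allowed. -/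
def MordellLang {V : Variety G} (Z : Zariski V) (f : Morphism V V) (x : V.Pt) : Prop :=
  letI := Z.top
  ∀ W : Set V.Pt, IsClosed W → ∃ s : Finset (ℕ × ℕ),
    {n : ℕ | f.pt^[n] x ∈ W} = ⋃ p ∈ s, {n : ℕ | ∃ k : ℕ, n = p.1 + p.2 * k}

/-- `f` maps proper closed subsets onto proper closed subsets. -/
def ClosedProper {V : Variety G} (Z : Zariski V) (f : Morphism V V) : Prop :=
  letI := Z.top
  ∀ W : Set V.Pt, IsClosed W → W ≠ Set.univ → IsClosed (f.pt '' W) ∧ f.pt '' W ≠ Set.univ

/-- `z` is a nonzero class of curves, nonnegative on the cone `C` of divisor classes, with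
`f_* z = a z`: the linear form `z` on `N¹(V)` satisfies `z (f^* D) = a z(D)`. -/
structure IsEigenclass {V : Variety G} (f : Morphism V V) (C : Set V.NS) (a : ℝ)
    (z : V.NS →ₗ[ℝ] ℝ) : Prop where
  ne_zero : z ≠ 0
  nonneg : ∀ D ∈ C, 0 ≤ z D
  eigen : ∀ D : V.NS, z (f.ns D) = a * z D

/-- For each real `r`: `f_*` has the eigenvalue `r` on the dual of the cone `C` if and only if no
`f^* D - r D` is in the interior of `C`. -/
def Alternative {V : Variety G} (f : Morphism V V) (C : Set V.NS) : Prop :=
  ∀ r : ℝ, (∃ z, IsEigenclass f C r z) ↔ ¬ ∃ D : V.NS, f.ns D - r • D ∈ interior C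

/-- The arithmetic degree `a` of `f` at `x` exists, `a ≥ 1`, and `f_* z = a z` for some nonzero
`z` in the dual of the cone `C`. -/
def EigenDegree {V : Variety G} (f : Morphism V V) (u : V.Pt → ℝ) (C : Set V.NS)
    (x : V.Pt) : Prop :=
  ∃ a : ℝ, 1 ≤ a ∧ IsArithmeticDegree f u x a ∧ ∃ z, IsEigenclass f C a z

/-- For each `r` in `[1, d)` some `f^* D - r D` is in the interior of `C`. -/
def Shifts {V : Variety G} (f : Morphism V V) (C : Set V.NS) (d : ℝ) : Prop :=
  ∀ r : ℝ, 1 ≤ r → r < d → ∃ D : V.NS, f.ns D - r • D ∈ interior C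

/-- Some class in the interior of `C` is annihilated by `p(f^*)` for a real polynomial `p`
without zeros in `[1, d)`. -/
def Annihilated {V : Variety G} (f : Morphism V V) (C : Set V.NS) (d : ℝ) : Prop :=
  ∃ (p : Polynomial ℝ) (B : V.NS), (∀ r : ℝ, 1 ≤ r → r < d → p.eval r ≠ 0) ∧
    Polynomial.aeval f.ns p B = 0 ∧ B ∈ interior C

end Pool.Agent.U935.KS
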