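import Mathlib

set_option autoImplicit false

open Filter Topology

namespace Pool.Agent.U935.KS

/-- Exponential decay or exponential growth from one step inequalities. -/
lemma dichotomy (b β : ℕ → ℝ) {C ε : ℝ} (hC : 0 < C) (hε : 0 < ε) (n₀ : ℕ)
    (h1 : ∀ n, |β n| ≤ C * b n) (h2 : ∀ n, n₀ ≤ n → β n + ε * b n ≤ β (n + 1)) :
    (∃ q c : ℝ, 0 < q ∧ q < 1 ∧ 0 < c ∧ ∀ n, n₀ ≤ n → b n ≤ c * q ^ n) ∨
      ∃ s c : ℝ, 1 < s ∧ 0 < c ∧ ∃ n₁, ∀ n, n₁ ≤ n → c * s ^ n ≤ b n := by
  by_cases hpos : ∃ n, n₀ ≤ n ∧ 0 < β n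
  · right
    obtain ⟨n₁, hn₁, hβ⟩ := hpos
    have hs : 1 < 1 + ε / C := by
      have : 0 < ε / C := by positivity
      linarith
    have hs0 : 0 < 1 + ε / C := by linarith
    have key : ∀ j, (1 + ε / C) ^ j * β n₁ ≤ β (n₁ + j) := by
      intro j
      induction j with
      | zero => simp
      | succ j ih =>
        have h3 := h2 (n₁ + j) (by omega)
        have h4 := (le_abs_self _).trans (h1 (n₁ + j))
        have h5 : β (n₁ + j) / C ≤ b (n₁ + j) := by
          rw [div_le_iff₀ hC]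
          linarith
        have h6 : ε * (β (n₁ + j) / C) ≤ ε * b (n₁ + j) := mul_le_mul_of_nonneg_left h5 hε.le
        have h7 : (1 + ε / C) * β (n₁ + j) ≤ β (n₁ + j + 1) := by
          have : (1 + ε / C) * β (n₁ + j) = β (n₁ + j) + ε * (β (n₁ + j) / C) := by ring
          rw [this]
          linarith
        calc (1 + ε / C) ^ (j + 1) * β n₁ = (1 + ε / C) * ((1 + ε / C) ^ j * β n₁) := by ring
          _ ≤ (1 + ε / C) * β (n₁ + j) := mul_le_mul_of_nonneg_left ih hs0.le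
          _ ≤ β (n₁ + (j + 1)) := h7
    refine ⟨1 + ε / C, β n₁ / (C * (1 + ε / C) ^ n₁), hs, by positivity, n₁, fun n hn => ?_⟩
    obtain ⟨j, rfl⟩ := Nat.exists_eq_add_of_le hn
    have h3 := key j
    have h4 := (le_abs_self _).trans (h1 (n₁ + j))
    have h5 : β n₁ / (C * (1 + ε / C) ^ n₁) * (1 + ε / C) ^ (n₁ + j)
        = (1 + ε / C) ^ j * β n₁ / C := by
      rw [pow_add]
      field_simp
    rw [h5, div_le_iff₀ hC]
    linarith
  · left
    push Not at hpos
    have hq0 : 0 < C / (C + ε) := by positivity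
    have hq1 : C / (C + ε) < 1 := by
      rw [div_lt_one (by positivity)]
      linarith
    have hb : ∀ n, n₀ ≤ n → ε * b n ≤ - β n := by
      intro n hn
      have h3 := h2 n hn
      have h4 := hpos (n + 1) (by omega)
      linarith
    have key : ∀ j, - β (n₀ + j) ≤ (C / (C + ε)) ^ j * (- β n₀) := by
      intro j
      induction j with
      | zero => simp
      | succ j ih =>
        have h3 := h2 (n₀ + j) (by omega)
        have h4 := (neg_le_abs _).trans (h1 (n₀ + j))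
        have h5 := hpos (n₀ + j + 1) (by omega)
        have h6 : - β (n₀ + j + 1) ≤ C / (C + ε) * (- β (n₀ + j)) := by
          rw [div_mul_eq_mul_div, le_div_iff₀ (by positivity)]
          have h7 : 0 ≤ b (n₀ + j) := by
            have := (abs_nonneg _).trans (h1 (n₀ + j))
            exact nonneg_of_mul_nonneg_right this hC
          have h8 := mul_le_mul_of_nonneg_left h3 hC.le
          have h9 := mul_le_mul_of_nonneg_left h4 hε.le
          have h10 : ε * (- β (n₀ + j + 1)) ≤ ε * (- β (n₀ + j)) := by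
            refine mul_le_mul_of_nonneg_left ?_ hε.le
            have : 0 ≤ ε * b (n₀ + j) := by positivity
            linarith
          nlinarith
        calc - β (n₀ + (j + 1)) ≤ C / (C + ε) * (- β (n₀ + j)) := h6
          _ ≤ C / (C + ε) * ((C / (C + ε)) ^ j * (- β n₀)) :=
              mul_le_mul_of_nonneg_left ih hq0.le
          _ = (C / (C + ε)) ^ (j + 1) * (- β n₀) := by ring
    have h0 : 0 ≤ - β n₀ := by
      have := hpos n₀ le_rfl
      linarith
    refine ⟨C / (C + ε), (- β n₀) / (ε * (C / (C + ε)) ^ n₀) + 1, hq0, hq1, by positivity,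
      fun n hn => ?_⟩
    obtain ⟨j, rfl⟩ := Nat.exists_eq_add_of_le hn
    have h3 := key j
    have h4 := hb (n₀ + j) hn
    have h5 : (- β n₀) / (ε * (C / (C + ε)) ^ n₀) * (C / (C + ε)) ^ (n₀ + j)
        = (C / (C + ε)) ^ j * (- β n₀) / ε := by
      rw [pow_add]
      field_simp
    rw [add_mul, h5, one_mul]
    have h6 : b (n₀ + j) ≤ (C / (C + ε)) ^ j * (- β n₀) / ε := by
      rw [le_div_iff₀ hε]
      linarith
    have h7 : 0 < (C / (C + ε)) ^ (n₀ + j) := by positivity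
    linarith

/-- The gap at `r > 1`. -/
lemma gap (a w : ℕ → ℝ) {r C ε K : ℝ} (hr : 1 < r) (hC : 0 < C) (hε : 0 < ε) (n₀ : ℕ)
    (ha : ∀ n, 1 ≤ a n) (hw : ∀ n, |w n| ≤ C * a n)
    (hstep : ∀ n, n₀ ≤ n → r * w n + ε * a n - K ≤ w (n + 1)) :
    (∃ q c : ℝ, 0 < q ∧ q < r ∧ 0 < c ∧ ∀ n, n₀ ≤ n → a n ≤ c * q ^ n) ∨
      ∃ s c : ℝ, r < s ∧ 0 < c ∧ ∃ n₁, ∀ n, n₁ ≤ n → c * s ^ n ≤ a n := by
  have hr0 : 0 < r := by linarith
  have hr1 : 0 < r - 1 := by linarith
  -- shift `w` by a constant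
  set κ : ℝ := - |K| / (r - 1) with hκ
  have hκ1 : κ * (1 - r) = |K| := by
    rw [hκ]
    field_simp
    ring
  have hκ2 : |κ| = |K| / (r - 1) := by
    rw [hκ, abs_div, abs_neg, abs_abs, abs_of_pos hr1]
  have hpr : ∀ n : ℕ, 0 < r ^ n := fun n => pow_pos hr0 n
  have := dichotomy (fun n => a n / r ^ n) (fun n => (w n + κ) / r ^ n)
    (C := C + |K| / (r - 1)) (ε := ε / r) (by positivity) (by positivity) n₀
    (by
      intro n
      rw [abs_div, abs_of_pos (hpr n), mul_div_assoc']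
      refine div_le_div_of_nonneg_right ?_ (hpr n).le
      have h1 := abs_add_le (w n) κ
      have h2 := hw n
      have h3 : |K| / (r - 1) ≤ |K| / (r - 1) * a n := le_mul_of_one_le_right (by positivity) (ha n)
      rw [hκ2] at h1
      linarith)
    (by
      intro n hn
      have h1 := hstep n hn
      have h2 : (w n + κ) / r ^ n + ε / r * (a n / r ^ n)
          = (r * w n + r * κ + ε * a n) / r ^ (n + 1) := by
        rw [pow_succ]
        field_simp
      show (w n + κ) / r ^ n + ε / r * (a n / r ^ n) ≤ (w (n + 1) + κ) / r ^ (n + 1)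
      rw [h2]
      refine div_le_div_of_nonneg_right ?_ (hpr (n + 1)).le
      have h3 := le_abs_self K
      nlinarith)
  rcases this with ⟨q, c, hq0, hq1, hc, h⟩ | ⟨s, c, hs, hc, n₁, h⟩
  · left
    refine ⟨q * r, c, by positivity, by nlinarith, hc, fun n hn => ?_⟩
    have h1 := h n hn
    rw [div_le_iff₀ (hpr n)] at h1
    rw [mul_pow]
    linarith
  · right
    refine ⟨s * r, c, by nlinarith, hc, n₁, fun n hn => ?_⟩
    have h1 := h n hn
    rw [le_div_iff₀ (hpr n)] at h1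
    rw [mul_pow]
    linarith

/-- The gap at `r = 1`. -/
lemma gap_one (a w : ℕ → ℝ) {C ε K : ℝ} (hC : 0 < C) (hε : 0 < ε) (n₀ : ℕ)
    (hw : ∀ n, |w n| ≤ C * a n)
    (hstep : ∀ n, n₀ ≤ n → w n + ε * a n - K ≤ w (n + 1)) :
    (∃ s c : ℝ, 1 < s ∧ 0 < c ∧ ∃ n₁, ∀ n, n₁ ≤ n → c * s ^ n ≤ a n) ∨
      ∃ B : ℝ, ∀ N : ℕ, ∃ n, N ≤ n ∧ a n ≤ B := by
  by_cases hbig : ∃ n, n₀ ≤ n ∧ C * (2 * (|K| + 1) / ε) ≤ w n
  · left
    obtain ⟨n₁, hn₁, hM⟩ := hbig
    obtain ⟨s, hs⟩ : ∃ s : ℝ, s = 1 + ε / (2 * C) := ⟨_, rfl⟩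
    have hs1 : 1 < s := by
      rw [hs]
      have : 0 < ε / (2 * C) := by positivity
      linarith
    have hK := abs_nonneg K
    have hKK := le_abs_self K
    have hM0 : 0 < C * (2 * (|K| + 1) / ε) := by positivity
    have step : ∀ n, n₀ ≤ n → C * (2 * (|K| + 1) / ε) ≤ w n → s * w n ≤ w (n + 1) := by
      intro n hn hwn
      have h1 := (le_abs_self _).trans (hw n)
      have h2 : 2 * (|K| + 1) / ε ≤ a n := by
        have : C * (2 * (|K| + 1) / ε) ≤ C * a n := hwn.trans h1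
        exact le_of_mul_le_mul_left this hC
      rw [div_le_iff₀ hε] at h2
      have h3 : w n / C ≤ a n := by
        rw [div_le_iff₀ hC]
        linarith
      have h4 := hstep n hn
      have h5 : s * w n = w n + ε / 2 * (w n / C) := by
        rw [hs]
        field_simp
      rw [h5]
      have h6 : ε / 2 * (w n / C) ≤ ε / 2 * a n := mul_le_mul_of_nonneg_left h3 (by positivity)
      nlinarith
    have key : ∀ j, C * (2 * (|K| + 1) / ε) ≤ w (n₁ + j) ∧ s ^ j * w n₁ ≤ w (n₁ + j) := by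
      intro j
      induction j with
      | zero => exact ⟨hM, by simp⟩
      | succ j ih =>
        have h1 := step (n₁ + j) (by omega) ih.1
        have h2 : 0 < w (n₁ + j) := hM0.trans_le ih.1
        refine ⟨?_, ?_⟩
        · have : w (n₁ + j) ≤ s * w (n₁ + j) := le_mul_of_one_le_left h2.le hs1.le
          exact ih.1.trans (this.trans h1)
        · calc s ^ (j + 1) * w n₁ = s * (s ^ j * w n₁) := by ring
            _ ≤ s * w (n₁ + j) := mul_le_mul_of_nonneg_left ih.2 (by linarith)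
            _ ≤ w (n₁ + (j + 1)) := h1
    have hw1 : 0 < w n₁ := hM0.trans_le hM
    have hs0 : 0 < s := by linarith
    refine ⟨s, w n₁ / (C * s ^ n₁), hs1, by positivity, n₁, fun n hn => ?_⟩
    obtain ⟨j, rfl⟩ := Nat.exists_eq_add_of_le hn
    have h3 := (key j).2
    have h4 := (le_abs_self _).trans (hw (n₁ + j))
    have h5 : w n₁ / (C * s ^ n₁) * s ^ (n₁ + j) = s ^ j * w n₁ / C := by
      rw [pow_add]
      field_simp
    rw [h5, div_le_iff₀ hC]
    linarith
  · right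
    push Not at hbig
    refine ⟨(|K| + 1) / ε, ?_⟩
    by_contra hcon
    push Not at hcon
    obtain ⟨N, hN⟩ := hcon
    have hKK := le_abs_self K
    have key : ∀ j : ℕ, w (n₀ + N) + j ≤ w (n₀ + N + j) := by
      intro j
      induction j with
      | zero => simp
      | succ j ih =>
        have h1 := hN (n₀ + N + j) (by omega)
        rw [div_lt_iff₀ hε] at h1
        have h2 := hstep (n₀ + N + j) (by omega)
        push_cast
        have : n₀ + N + (j + 1) = n₀ + N + j + 1 := by omega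
        rw [this]
        linarith
    obtain ⟨j, hj⟩ := exists_nat_gt (C * (2 * (|K| + 1) / ε) - w (n₀ + N))
    have h1 := key j
    have h2 := hbig (n₀ + N + j) (by omega)
    linarith

/-- `(c r^k)^(1/k) → r`. -/
lemma root_lim {c r : ℝ} (hc : 0 < c) (hr : 0 ≤ r) :
    Tendsto (fun k : ℕ => (c * r ^ k) ^ (1 / (k : ℝ))) atTop (𝓝 r) := by
  have h5 : Tendsto (fun k : ℕ => c ^ (1 / (k : ℝ)) * r) atTop (𝓝 (c ^ (0 : ℝ) * r)) := by
    refine Tendsto.mul_const _ ?_
    have h6 : Tendsto (fun k : ℕ => 1 / (k : ℝ)) atTop (𝓝 0) :=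
      tendsto_one_div_atTop_nhds_zero_nat
    exact (Real.continuousAt_const_rpow hc.ne').tendsto.comp h6
  rw [Real.rpow_zero, one_mul] at h5
  refine h5.congr' ?_
  filter_upwards [eventually_gt_atTop 0] with k hk
  have hk0 : (0 : ℝ) < k := by exact_mod_cast hk
  rw [Real.mul_rpow hc.le (pow_nonneg hr _), ← Real.rpow_natCast r k,
    ← Real.rpow_mul hr, one_div, mul_inv_cancel₀ hk0.ne', Real.rpow_one]

lemma upper_of {a : ℕ → ℝ} (ha : ∀ n, 0 ≤ a n) {r q c : ℝ} (hq0 : 0 < q) (hqr : q < r)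
    (hc : 0 < c) (n₀ : ℕ) (h : ∀ n, n₀ ≤ n → a n ≤ c * q ^ n) :
    ∃ t, t < r ∧ ∀ᶠ n : ℕ in atTop, (a n) ^ (1 / (n : ℝ)) < t := by
  obtain ⟨t, ht1, ht2⟩ := exists_between hqr
  refine ⟨t, ht2, ?_⟩
  filter_upwards [(root_lim hc hq0.le).eventually (eventually_lt_nhds ht1),
    eventually_ge_atTop n₀] with n h1 h2
  exact (Real.rpow_le_rpow (ha n) (h n h2) (by positivity)).trans_lt h1

lemma lower_of {a : ℕ → ℝ} {r s c : ℝ} (hr : 0 < r) (hrs : r < s)
    (hc : 0 < c) (n₁ : ℕ) (h : ∀ n, n₁ ≤ n → c * s ^ n ≤ a n) :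
    ∃ t, r < t ∧ ∀ᶠ n : ℕ in atTop, t < (a n) ^ (1 / (n : ℝ)) := by
  obtain ⟨t, ht1, ht2⟩ := exists_between hrs
  refine ⟨t, ht1, ?_⟩
  have hs : 0 < s := by linarith
  filter_upwards [(root_lim hc hs.le).eventually (eventually_gt_nhds ht2),
    eventually_ge_atTop n₁] with n h1 h2
  exact h1.trans_le (Real.rpow_le_rpow (by positivity) (h n h2) (by positivity))

end Pool.Agent.U935.KS
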