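import Mathlib
import Pool.Agent.Q8.KS.Core2
import Pool.Agent.U935.KS.Seq
import Pool.Agent.U935.KS.Defs

set_option autoImplicit false

namespace Pool.Agent.U935.KS

open Pool.Agent.Q8.KS Filter Topology

variable {G : Type} [Group G]

/-- Heights of classes in the interior of `C` are bounded below along the orbit. -/
def LowerBounded {V : Variety G} (f : Morphism V V) (C : Set V.NS) (x : V.Pt) : Prop :=
  ∀ D : V.Pic, V.cls D ∈ interior C → ∀ v : V.Pt → ℝ, V.IsHeight D v →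
    ∃ (c : ℝ) (n₀ : ℕ), ∀ n, n₀ ≤ n → c ≤ v (f.pt^[n] x)

lemma exists_height (V : Variety G) (D : V.Pic) : ∃ w : V.Pt → ℝ, V.IsHeight D w := by
  obtain ⟨w, hw⟩ := Submodule.mkQ_surjective (bdd V.Pt) (V.height D)
  exact ⟨w, hw.symm⟩

/-- The one step inequality. -/
lemma step {V : Variety G} (f : Morphism V V) {C : Set V.NS} {x : V.Pt}
    (hC : LowerBounded f C x) {A : V.Pic} (hA : V.IsAmple A) {u : V.Pt → ℝ}
    (hu : V.IsHeight A u) {r : ℝ} {ψ : V.NS} (hψ : f.ns ψ - r • ψ ∈ interior C) :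
    ∃ (w : ℕ → ℝ) (C' ε K : ℝ) (n₀ : ℕ), 0 < C' ∧ 0 < ε ∧
      (∀ n, |w n| ≤ C' * max 1 (u (f.pt^[n] x))) ∧
      ∀ n, n₀ ≤ n → r * w n + ε * max 1 (u (f.pt^[n] x)) - K ≤ w (n + 1) := by
  obtain ⟨E, hE⟩ := V.cls_surjective ψ
  obtain ⟨w, hw⟩ := exists_height V E
  -- a small multiple of the ample class can be subtracted
  have hcont : Continuous fun t : ℝ => (f.ns ψ - r • ψ) - t • V.cls A := by fun_prop
  have hopen : {t : ℝ | (f.ns ψ - r • ψ) - t • V.cls A ∈ interior C} ∈ 𝓝 (0 : ℝ) := by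
    refine hcont.continuousAt.preimage_mem_nhds (isOpen_interior.mem_nhds ?_)
    simpa using hψ
  obtain ⟨δ, hδ, hball⟩ := Metric.mem_nhds_iff.1 hopen
  have hε : 0 < δ / 2 := by positivity
  have hmem : (f.ns ψ - r • ψ) - (δ / 2) • V.cls A ∈ interior C := by
    apply hball
    rw [Metric.mem_ball, Real.dist_eq, sub_zero, abs_of_pos hε]
    linarith
  set ε := δ / 2 with hεd
  have hcls : V.cls (f.pic E - r • E - ε • A) = (f.ns ψ - r • ψ) - ε • V.cls A := by
    rw [map_sub, map_sub, map_smul, map_smul, f.cls_pic, hE]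
  have hht : V.IsHeight (f.pic E - r • E - ε • A) (w ∘ f.pt - r • w - ε • u) :=
    height_sub V (height_sub V (f.height_pic _ _ hw) (height_smul V r hw)) (height_smul V ε hu)
  obtain ⟨c, n₀, hc⟩ := hC _ (hcls ▸ hmem) _ hht
  obtain ⟨c₀, hc₀⟩ := V.ample_height A hA u hu
  obtain ⟨C₁, hC₁⟩ := height_bound V hA hu hw
  refine ⟨fun n => w (f.pt^[n] x), |C₁| + 1, ε, ε * (1 + |c₀|) - c, n₀, by positivity, hε, ?_, ?_⟩
  · intro n
    refine (hC₁ _).trans ?_
    have h1 : (1 : ℝ) ≤ max 1 (u (f.pt^[n] x)) := le_max_left _ _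
    refine mul_le_mul_of_nonneg_right ?_ (by linarith)
    have := le_abs_self C₁
    linarith
  · intro n hn
    have h1 := hc n hn
    simp only [Pi.sub_apply, Pi.smul_apply, Function.comp_apply, smul_eq_mul] at h1
    have h2 : max 1 (u (f.pt^[n] x)) ≤ u (f.pt^[n] x) + (1 + |c₀|) := by
      have h3 := hc₀ (f.pt^[n] x)
      have h4 := neg_abs_le c₀
      have h5 := abs_nonneg c₀
      exact max_le (by linarith) (by linarith)
    have h3 := mul_le_mul_of_nonneg_left h2 hε.le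
    show r * w (f.pt^[n] x) + ε * max 1 (u (f.pt^[n] x)) - (ε * (1 + |c₀|) - c)
      ≤ w (f.pt^[n + 1] x)
    rw [Function.iterate_succ_apply']
    linarith

/-- The heights grow at most exponentially. -/
lemma upper_growth {V : Variety G} (f : Morphism V V) (x : V.Pt) {A : V.Pic}
    (hA : V.IsAmple A) {u : V.Pt → ℝ} (hu : V.IsHeight A u) :
    ∃ R c : ℝ, 0 < R ∧ 0 < c ∧ ∀ n : ℕ, max 1 (u (f.pt^[n] x)) ≤ c * R ^ n := by
  obtain ⟨C, hC⟩ := height_bound V hA hu (f.height_pic _ _ hu)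
  have hR : (0 : ℝ) < |C| + 1 := by positivity
  refine ⟨|C| + 1, max 1 (u x), hR, lt_of_lt_of_le one_pos (le_max_left _ _), fun n => ?_⟩
  induction n with
  | zero => simp
  | succ n ih =>
    have h1 := (le_abs_self _).trans (hC (f.pt^[n] x))
    rw [Function.comp_apply] at h1
    have h2 : (1 : ℝ) ≤ max 1 (u (f.pt^[n] x)) := le_max_left _ _
    have h3 : max 1 (u (f.pt^[n + 1] x)) ≤ (|C| + 1) * max 1 (u (f.pt^[n] x)) := by
      rw [Function.iterate_succ_apply']
      have h4 := le_abs_self C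
      have h5 := abs_nonneg C
      refine max_le (by nlinarith) (h1.trans ?_)
      exact mul_le_mul_of_nonneg_right (by linarith) (by linarith)
    calc max 1 (u (f.pt^[n + 1] x)) ≤ (|C| + 1) * max 1 (u (f.pt^[n] x)) := h3
      _ ≤ (|C| + 1) * (max 1 (u x) * (|C| + 1) ^ n) := mul_le_mul_of_nonneg_left ih hR.le
      _ = max 1 (u x) * (|C| + 1) ^ (n + 1) := by ring

lemma lowerBounded_nef {V : Variety G} (f : Morphism V V) (x : V.Pt) :
    LowerBounded f V.Nef x := by
  intro D hD v hv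
  obtain ⟨c, hc⟩ := V.ample_height D hD v hv
  exact ⟨c, 0, fun n _ => hc _⟩

lemma one_le_seq {V : Variety G} (f : Morphism V V) (x : V.Pt) (u : V.Pt → ℝ) (n : ℕ) :
    (1 : ℝ) ≤ (max 1 (u (f.pt^[n] x))) ^ (1 / (n : ℝ)) :=
  Real.one_le_rpow (le_max_left _ _) (by positivity)

/-- The trichotomy at `r > 1`. -/
lemma apart {V : Variety G} (f : Morphism V V) {C : Set V.NS} {x : V.Pt}
    (hC : LowerBounded f C x) {A : V.Pic} (hA : V.IsAmple A) {u : V.Pt → ℝ}
    (hu : V.IsHeight A u) {r : ℝ} (hr : 1 < r) {ψ : V.NS}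
    (hψ : f.ns ψ - r • ψ ∈ interior C) :
    (∃ t, t < r ∧ ∀ᶠ n : ℕ in atTop, (max 1 (u (f.pt^[n] x))) ^ (1 / (n : ℝ)) < t) ∨
      ∃ t, r < t ∧ ∀ᶠ n : ℕ in atTop, t < (max 1 (u (f.pt^[n] x))) ^ (1 / (n : ℝ)) := by
  obtain ⟨w, C', ε, K, n₀, hC', hε, hw, hst⟩ := step f hC hA hu hψ
  have h0 : ∀ n : ℕ, (0 : ℝ) ≤ max 1 (u (f.pt^[n] x)) := fun n =>
    le_trans zero_le_one (le_max_left _ _)
  rcases gap (fun n => max 1 (u (f.pt^[n] x))) w hr hC' hε n₀ (fun n => le_max_left _ _) hw hst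
    with ⟨q, c, hq0, hqr, hc, h⟩ | ⟨s, c, hs, hc, n₁, h⟩
  · exact Or.inl (upper_of h0 hq0 hqr hc n₀ h)
  · exact Or.inr (lower_of (by linarith) hs hc n₁ h)

/-- For all but finitely many `r` the operator `T - r` is surjective. -/
lemma dense_noneigen {E : Type} [NormedAddCommGroup E] [NormedSpace ℝ E]
    [FiniteDimensional ℝ E] (T : E →ₗ[ℝ] E) :
    Dense {r : ℝ | ∀ y : E, ∃ ψ : E, T ψ - r • ψ = y} := by
  have hfin : {r : ℝ | Module.End.HasEigenvalue T r}.Finite := Module.End.finite_hasEigenvalue T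
  refine (hfin.countable.dense_compl ℝ).mono ?_
  intro r hr
  have hinj : Function.Injective (T - r • (1 : E →ₗ[ℝ] E)) := by
    rw [injective_iff_map_eq_zero]
    intro v hv
    by_contra hne
    apply hr
    refine Module.End.hasEigenvalue_of_hasEigenvector (x := v) ⟨?_, hne⟩
    rw [Module.End.mem_eigenspace_iff]
    rwa [LinearMap.sub_apply, LinearMap.smul_apply, Module.End.one_apply, sub_eq_zero] at hv
  have hsurj := LinearMap.injective_iff_surjective.1 hinj
  intro y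
  obtain ⟨ψ, hψ⟩ := hsurj y
  exact ⟨ψ, hψ⟩

/-- **The arithmetic degree exists** at every point. -/
theorem limit_exists {V : Variety G} (f : Morphism V V) (x : V.Pt) {A : V.Pic}
    (hA : V.IsAmple A) {u : V.Pt → ℝ} (hu : V.IsHeight A u) :
    ∃ a : ℝ, 1 ≤ a ∧ IsArithmeticDegree f u x a := by
  obtain ⟨R, c, hR, hc, hup⟩ := upper_growth f x hA hu
  have hbdd : IsBoundedUnder (· ≤ ·) atTop
      (fun n : ℕ => (max 1 (u (f.pt^[n] x))) ^ (1 / (n : ℝ))) := by
    obtain ⟨t, -, ht⟩ := upper_of (a := fun n => max 1 (u (f.pt^[n] x)))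
      (fun n => le_trans zero_le_one (le_max_left _ _)) hR (lt_add_one R) hc 0 (fun n _ => hup n)
    exact ⟨t, by
      rw [eventually_map]
      exact ht.mono fun n hn => hn.le⟩
  have hbdd' : IsBoundedUnder (· ≥ ·) atTop
      (fun n : ℕ => (max 1 (u (f.pt^[n] x))) ^ (1 / (n : ℝ))) := by
    refine ⟨1, ?_⟩
    rw [eventually_map]
    exact Eventually.of_forall fun n => one_le_seq f x u n
  obtain ⟨a, ha⟩ := tendsto_of_no_upcrossings (dense_noneigen f.ns)
    (f := atTop) (u := fun n : ℕ => (max 1 (u (f.pt^[n] x))) ^ (1 / (n : ℝ)))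
    (by
      intro r hr r' _ hrr' hcon
      obtain ⟨hf1, hf2⟩ := hcon
      by_cases h1 : r ≤ 1
      · refine hf1 (Eventually.of_forall fun n hn => ?_)
        have := one_le_seq f x u n
        linarith
      · push Not at h1
        obtain ⟨ψ, hψ⟩ := hr (V.cls A)
        rcases apart f (lowerBounded_nef f x) hA hu h1 (ψ := ψ) (by rw [hψ]; exact hA) with
          ⟨t, ht, hev⟩ | ⟨t, ht, hev⟩
        · exact hf2 (hev.mono fun n hn hn' => by linarith)
        · exact hf1 (hev.mono fun n hn hn' => by linarith))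
    hbdd hbdd'
  exact ⟨a, ge_of_tendsto' ha fun n => one_le_seq f x u n, ha⟩

/-- Hahn-Banach for the image of `T - a` and an open cone. -/
lemma exists_form {E : Type} [NormedAddCommGroup E] [NormedSpace ℝ E] [FiniteDimensional ℝ E]
    {C : Set E} (hC : IsCone C) {H : E} (hH : H ∈ interior C) (T : E →ₗ[ℝ] E) (a : ℝ)
    (hno : ∀ ψ : E, T ψ - a • ψ ∉ interior C) :
    ∃ z : E →ₗ[ℝ] ℝ, (∀ D ∈ interior C, 0 < z D) ∧ (∀ D ∈ C, 0 ≤ z D) ∧
      ∀ D, z (T D) = a * z D := by
  have hconv : Convex ℝ C := by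
    intro y hy y' hy' s t hs ht _
    exact hC.add _ (hC.smul s hs y hy) _ (hC.smul t ht y' hy')
  have hdis : Disjoint (interior C) (LinearMap.range (T - a • (1 : E →ₗ[ℝ] E)) : Set E) := by
    rw [Set.disjoint_left]
    rintro _ hy ⟨ψ, rfl⟩
    exact hno ψ hy
  obtain ⟨l, s, hl1, hl2⟩ := geometric_hahn_banach_open hconv.interior isOpen_interior
    (Submodule.convex (LinearMap.range (T - a • (1 : E →ₗ[ℝ] E)))) hdis
  have hs : s ≤ 0 := by
    have := hl2 0 (Submodule.zero_mem _)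
    rwa [map_zero] at this
  have hzero : ∀ y ∈ LinearMap.range (T - a • (1 : E →ₗ[ℝ] E)), l y = 0 := by
    intro y hy
    by_contra hne
    have h1 := hl2 (((s - 1) / l y) • y) (Submodule.smul_mem _ _ hy)
    rw [map_smul, smul_eq_mul, div_mul_cancel₀ _ hne] at h1
    linarith
  have hpos : ∀ D ∈ interior C, 0 < -(l D) := by
    intro D hD
    have := hl1 D hD
    linarith
  refine ⟨-(l : E →ₗ[ℝ] ℝ), hpos, ?_, ?_⟩
  · intro D hD
    show 0 ≤ -(l D)
    by_contra hneg
    push Not at hneg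
    have h1 : 0 < -(l H) := hpos H hH
    -- D + t H is in the interior
    have h2 : ((-(l D)) / (2 * l H)) • H + D ∈ interior C := by
      refine ample_add hC (ample_smul hC hH ?_) hD
      apply div_pos_of_neg_of_neg hneg
      linarith
    have h3 := hpos _ h2
    rw [map_add, map_smul, smul_eq_mul] at h3
    have h4 : -(l D) / (2 * l H) * l H = -(l D) / 2 := by
      have : l H ≠ 0 := by linarith
      field_simp
    rw [h4] at h3
    linarith
  · intro D
    have h1 := hzero _ (LinearMap.mem_range_self (T - a • (1 : E →ₗ[ℝ] E)) D)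
    rw [LinearMap.sub_apply, LinearMap.smul_apply, Module.End.one_apply, map_sub, map_smul,
      smul_eq_mul] at h1
    show -(l (T D)) = a * -(l D)
    linarith

end Pool.Agent.U935.KS
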