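import Mathlib
import Pool.Agent.U935.KS.Core

set_option autoImplicit false

namespace Pool.Agent.U935.KS

open Pool.Agent.Q8.KS Filter Topology

variable {G : Type} [Group G]

/-- An infinite orbit has no repetitions. -/
lemma orbit_injective {X : Type} (g : X → X) (x : X)
    (h : (Set.range fun n : ℕ => g^[n] x).Infinite) :
    Function.Injective fun n : ℕ => g^[n] x := by
  have key : ∀ m n : ℕ, m < n → g^[m] x = g^[n] x → False := by
    intro m n hmn heq
    apply h
    refine (Set.finite_le_nat n).image (fun k : ℕ => g^[k] x) |>.subset ?_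
    rintro _ ⟨k, rfl⟩
    induction k using Nat.strong_induction_on with
    | _ k ih =>
      by_cases hk : k ≤ n
      · exact ⟨k, hk, rfl⟩
      · push Not at hk
        have h1 : g^[k] x = g^[k - (n - m)] x := by
          have e1 : k = (k - n) + n := by omega
          have e2 : k - (n - m) = (k - n) + m := by omega
          rw [e2, Function.iterate_add_apply]
          conv_lhs => rw [e1, Function.iterate_add_apply]
          rw [heq]
        have h2 := ih (k - (n - m)) (by omega)
        simp only at h2 ⊢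
        rw [h1]
        exact h2
  intro m n hmn
  rcases lt_trichotomy m n with h1 | h1 | h1
  · exact (key m n h1 hmn).elim
  · exact h1
  · exact (key n m h1 hmn.symm).elim

/-- The number of conjugates does not increase along an orbit. -/
lemma ncard_orbit_le {V : Variety G} (hV : NumberField V) (f : Morphism V V) (x : V.Pt)
    (n : ℕ) : (MulAction.orbit G (f.pt^[n] x)).ncard ≤ (MulAction.orbit G x).ncard := by
  induction n with
  | zero => exact le_rfl
  | succ n ih =>
    refine le_trans ?_ ih
    have h1 : MulAction.orbit G (f.pt^[n + 1] x) = f.pt '' MulAction.orbit G (f.pt^[n] x) := by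
      ext y
      constructor
      · rintro ⟨g, rfl⟩
        refine ⟨g • f.pt^[n] x, ⟨g, rfl⟩, ?_⟩
        rw [f.pt_smul, Function.iterate_succ_apply']
      · rintro ⟨_, ⟨g, rfl⟩, rfl⟩
        refine ⟨g, ?_⟩
        show g • f.pt^[n + 1] x = f.pt (g • f.pt^[n] x)
        rw [f.pt_smul, Function.iterate_succ_apply']
    rw [h1]
    exact Set.ncard_image_le (hV.orbit_finite _)

/-- **The arithmetic degree of an infinite orbit is an eigenvalue of `f_*` on the cone dual
to `C`.** -/
theorem eigenclass {V : Variety G} (hV : NumberField V) (f : Morphism V V) {C : Set V.NS}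
    (hcone : IsCone C) (hnef : V.Nef ⊆ C) {x : V.Pt} (hC : LowerBounded f C x)
    (hinf : InfiniteOrbit f x) {A : V.Pic} (hA : V.IsAmple A) {u : V.Pt → ℝ}
    (hu : V.IsHeight A u) {a : ℝ} (ha : IsArithmeticDegree f u x a) :
    ∃ z : V.NS →ₗ[ℝ] ℝ, IsEigenclass f C a z ∧ ∀ D ∈ interior C, 0 < z D := by
  have hAC : V.cls A ∈ interior C := interior_mono hnef hA
  have ha1 : 1 ≤ a := ge_of_tendsto' ha fun n => one_le_seq f x u n
  have hno : ∀ ψ : V.NS, f.ns ψ - a • ψ ∉ interior C := by
    intro ψ hψ
    rcases ha1.lt_or_eq with h1 | h1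
    · rcases apart f hC hA hu h1 hψ with ⟨t, ht, hev⟩ | ⟨t, ht, hev⟩
      · have := le_of_tendsto ha (hev.mono fun n hn => hn.le)
        linarith
      · have := ge_of_tendsto ha (hev.mono fun n hn => hn.le)
        linarith
    · subst h1
      obtain ⟨w, C', ε, K, n₀, hC', hε, hw, hst⟩ := step f hC hA hu hψ
      rcases gap_one (fun n => max 1 (u (f.pt^[n] x))) w hC' hε n₀ hw
        (by
          intro n hn
          have := hst n hn
          rw [one_mul] at this
          exact this) with ⟨s, c, hs, hc, n₁, h⟩ | ⟨B, hB⟩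
      · obtain ⟨t, ht, hev⟩ := lower_of one_pos hs hc n₁ h
        have := ge_of_tendsto ha (hev.mono fun n hn => hn.le)
        linarith
      · -- Northcott
        have hfin := hV.northcott A u hA hu (MulAction.orbit G x).ncard B
        have hinj := orbit_injective f.pt x hinf
        have hfin2 : {n : ℕ | u (f.pt^[n] x) ≤ B}.Finite := by
          refine (hfin.preimage hinj.injOn).subset ?_
          intro n hn
          exact ⟨ncard_orbit_le hV f x n, hn⟩
        obtain ⟨N, hN⟩ := hfin2.bddAbove
        obtain ⟨n, hn, hnB⟩ := hB (N + 1)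
        have := hN (show u (f.pt^[n] x) ≤ B from (le_max_right _ _).trans hnB)
        omega
  obtain ⟨z, hz1, hz2, hz3⟩ := exists_form hcone hAC f.ns a hno
  refine ⟨z, ⟨?_, hz2, hz3⟩, hz1⟩
  rintro rfl
  have := hz1 _ hAC
  simp at this

/-- A nonzero form which is nonnegative on a cone is positive on its interior. -/
lemma pos_interior {V : Variety G} {f : Morphism V V} {C : Set V.NS} (hcone : IsCone C)
    {a : ℝ} {z : V.NS →ₗ[ℝ] ℝ} (hz : IsEigenclass f C a z) {H : V.NS} (hH : H ∈ interior C) :
    0 < z H := by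
  rcases (hz.nonneg _ (interior_subset hH)).lt_or_eq with h | h
  · exact h
  · exfalso
    apply hz.ne_zero
    obtain ⟨M, hM, hunit⟩ := unit_le hcone hH
    ext D
    have h1 := hz.nonneg _ (hunit D)
    have h2 := hz.nonneg _ (hunit (-D))
    rw [map_sub, map_smul, ← h, smul_zero] at h1
    rw [map_sub, map_smul, ← h, smul_zero, map_neg] at h2
    rw [LinearMap.zero_apply]
    linarith

/-- The alternative: either some `f^* D - r D` is in the interior of the cone, or `f_*` has
eigenvalue `r` on the dual cone. -/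
lemma alternative {V : Variety G} (f : Morphism V V) {C : Set V.NS} (hcone : IsCone C)
    {H : V.NS} (hH : H ∈ interior C) (r : ℝ) :
    (∃ z, IsEigenclass f C r z) ↔ ¬ ∃ D : V.NS, f.ns D - r • D ∈ interior C := by
  constructor
  · rintro ⟨z, hz⟩ ⟨D, hD⟩
    have h1 := pos_interior hcone hz hD
    rw [map_sub, map_smul, hz.eigen, smul_eq_mul, sub_self] at h1
    exact lt_irrefl _ h1
  · intro hno
    push Not at hno
    obtain ⟨z, hz1, hz2, hz3⟩ := exists_form hcone hH f.ns r hno
    refine ⟨z, ?_, hz2, hz3⟩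
    rintro rfl
    have := hz1 _ hH
    simp at this

/-- A class annihilated by a polynomial in `f^*`. -/
lemma aeval_eigen {V : Variety G} {f : Morphism V V} {C : Set V.NS}
    {a : ℝ} {z : V.NS →ₗ[ℝ] ℝ} (hz : IsEigenclass f C a z) (p : Polynomial ℝ) (B : V.NS) :
    z (Polynomial.aeval f.ns p B) = p.eval a * z B := by
  induction p using Polynomial.induction_on' with
  | add p q hp hq =>
    rw [map_add, LinearMap.add_apply, map_add, hp, hq, Polynomial.eval_add, add_mul]
  | monomial n c =>
    have hpow : ∀ (k : ℕ) (B : V.NS), z ((f.ns ^ k) B) = a ^ k * z B := by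
      intro k B
      induction k with
      | zero => simp
      | succ k ih =>
        rw [pow_succ', Module.End.mul_apply, hz.eigen, ih]
        ring
    rw [Polynomial.aeval_monomial, Module.End.mul_apply, Polynomial.eval_monomial, mul_assoc,
      ← hpow]
    simp [Algebra.algebraMap_eq_smul_one]

/-- An eigenclass of curves has eigenvalue at most the dynamical degree. -/
lemma eigen_le {V : Variety G} (f : Morphism V V) {C : Set V.NS} (hcone : IsCone C)
    (hnef : V.Nef ⊆ C) {A : V.Pic} (hA : V.IsAmple A) {d : ℝ} (hd : IsDynamicalDegree f A d)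
    {a : ℝ} (ha : 0 ≤ a) {z : V.NS →ₗ[ℝ] ℝ} (hz : IsEigenclass f C a z) : a ≤ d := by
  -- `z` is positive at the ample class
  have hAC : V.cls A ∈ interior C := interior_mono hnef hA
  have hzA : 0 < z (V.cls A) := pos_interior hcone hz hAC
  have hpow : ∀ k : ℕ, z ((f.ns ^ k) (V.cls A)) = a ^ k * z (V.cls A) := by
    intro k
    induction k with
    | zero => simp
    | succ k ih =>
      rw [pow_succ', Module.End.mul_apply, hz.eigen, ih]
      ring
  obtain ⟨M, hM, hnorm⟩ := norm_le V.nef_cone (V.deg (V.cls A))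
    (fun D hD h0 => V.int_pos _ hA D hD h0)
  obtain ⟨Q, hQ0, hQ⟩ : ∃ Q : ℝ, 0 < Q ∧ ∀ D, z D ≤ Q * ‖D‖ := by
    refine ⟨‖LinearMap.toContinuousLinearMap z‖ + 1, by positivity, fun D => ?_⟩
    have h1 := (LinearMap.toContinuousLinearMap z).le_opNorm D
    rw [Real.norm_eq_abs] at h1
    have h2 := le_abs_self (z D)
    have h3 : |z D| ≤ ‖LinearMap.toContinuousLinearMap z‖ * ‖D‖ := h1
    have h4 := norm_nonneg D
    nlinarith
  have hnefk : ∀ k : ℕ, (f.ns ^ k) (V.cls A) ∈ V.Nef :=
    fun k => pow_mem f.nef k (interior_subset hA)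
  refine le_of_tendsto_of_tendsto (root_lim (c := z (V.cls A) / (Q * M)) (by positivity) ha) hd
    (Eventually.of_forall fun k => ?_)
  refine Real.rpow_le_rpow (by positivity) ?_ (by positivity)
  rw [div_mul_eq_mul_div, div_le_iff₀ (by positivity)]
  calc z (V.cls A) * a ^ k = z ((f.ns ^ k) (V.cls A)) := by rw [hpow]; ring
    _ ≤ Q * ‖(f.ns ^ k) (V.cls A)‖ := hQ _
    _ ≤ Q * (M * V.deg (V.cls A) ((f.ns ^ k) (V.cls A))) :=
        mul_le_mul_of_nonneg_left (hnorm _ (hnefk k)) hQ0.le
    _ = V.deg (V.cls A) ((f.ns ^ k) (V.cls A)) * (Q * M) := by ring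

/-- A generic orbit is bounded below for the pseudo-effective cone. -/
lemma lowerBounded_eff {V : Variety G} (Z : Zariski V) (f : Morphism V V) {x : V.Pt}
    (hx : GenericOrbit Z f x) : LowerBounded f Z.Eff x := by
  intro D hD v hv
  obtain ⟨W, hW1, hW2, c, hc⟩ := Z.big_height D hD v hv
  obtain ⟨N, hN⟩ := (hx W hW1 hW2).bddAbove
  refine ⟨c, N + 1, fun n hn => hc _ fun hmem => ?_⟩
  have := hN (show f.pt^[n] x ∈ W from hmem)
  omega

/-- A generic orbit is infinite. -/
lemma generic_infinite {V : Variety G} (Z : Zariski V) (f : Morphism V V) {x : V.Pt}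
    (hx : GenericOrbit Z f x) : InfiniteOrbit f x := by
  letI := Z.top
  haveI := Z.t1
  haveI := Z.infinite
  intro hfin
  have h1 : IsClosed (Set.range fun n : ℕ => f.pt^[n] x) := hfin.isClosed
  have h2 : (Set.range fun n : ℕ => f.pt^[n] x) ≠ Set.univ := by
    intro h
    rw [h] at hfin
    exact Set.infinite_univ hfin
  have h3 := hx _ h1 h2
  have h4 : {n : ℕ | f.pt^[n] x ∈ Set.range fun n : ℕ => f.pt^[n] x} = Set.univ := by
    ext n
    simp
  rw [h4] at h3
  exact Set.infinite_univ h3

/-- **Dense orbits are generic** when the dynamical Mordell-Lang conjecture holds. -/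
theorem generic_of_dense {V : Variety G} (Z : Zariski V) (f : Morphism V V) {x : V.Pt}
    (hf : ClosedProper Z f) (hml : MordellLang Z f x) (hx : DenseOrbit Z f x) :
    GenericOrbit Z f x := by
  letI := Z.top
  haveI := Z.t1
  haveI := Z.infinite
  haveI := Z.irreducible
  intro W hW1 hW2
  obtain ⟨s, hs⟩ := hml W hW1
  rw [hs]
  refine Set.Finite.biUnion s.finite_toSet ?_
  rintro ⟨a, b⟩ hab
  rcases Nat.eq_zero_or_pos b with rfl | hb
  · refine (Set.finite_singleton a).subset ?_
    rintro n ⟨k, hk⟩
    simpa using hk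
  · exfalso
    have hmem : ∀ k : ℕ, f.pt^[a + b * k] x ∈ W := by
      intro k
      have h1 : a + b * k ∈ {n : ℕ | f.pt^[n] x ∈ W} := by
        rw [hs]
        exact Set.mem_biUnion hab ⟨k, rfl⟩
      exact h1
    -- images of `W`
    have himg : ∀ i : ℕ, IsClosed (f.pt^[i] '' W) ∧ f.pt^[i] '' W ≠ Set.univ := by
      intro i
      induction i with
      | zero => simpa using ⟨hW1, hW2⟩
      | succ i ih =>
        rw [Function.iterate_succ', Set.image_comp]
        exact hf _ ih.1 ih.2
    let F : Set (Set V.Pt) := (fun i : ℕ => f.pt^[i] '' W) '' {i | i < b} ∪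
      (fun i : ℕ => ({f.pt^[i] x} : Set V.Pt)) '' {i | i < a}
    have hFfin : F.Finite := ((Set.finite_lt_nat b).image _).union ((Set.finite_lt_nat a).image _)
    have hFcl : ∀ t ∈ F, IsClosed t ∧ t ≠ Set.univ := by
      rintro t (⟨i, -, rfl⟩ | ⟨i, -, rfl⟩)
      · exact himg i
      · refine ⟨isClosed_singleton, ?_⟩
        intro h
        have : (Set.univ : Set V.Pt).Finite := by
          rw [← h]
          exact Set.finite_singleton _
        exact Set.infinite_univ this
    have hcl : IsClosed (⋃₀ F) := by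
      rw [Set.sUnion_eq_biUnion]
      exact hFfin.isClosed_biUnion fun t ht => (hFcl t ht).1
    have hsub : (Set.range fun n : ℕ => f.pt^[n] x) ⊆ ⋃₀ F := by
      rintro _ ⟨n, rfl⟩
      by_cases hn : n < a
      · exact ⟨_, Or.inr ⟨n, hn, rfl⟩, rfl⟩
      · push Not at hn
        obtain ⟨m, rfl⟩ := Nat.exists_eq_add_of_le hn
        refine ⟨_, Or.inl ⟨m % b, Nat.mod_lt _ hb, rfl⟩, ?_⟩
        refine ⟨f.pt^[a + b * (m / b)] x, hmem _, ?_⟩
        rw [← Function.iterate_add_apply]
        have := Nat.mod_add_div m b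
        have h1 : m % b + (a + b * (m / b)) = a + m := by omega
        rw [h1]
    have huniv : ⋃₀ F = Set.univ := by
      have := hx.closure_eq
      rw [← Set.univ_subset_iff, ← this]
      exact closure_minimal hsub hcl
    have hirr : IsIrreducible (Set.univ : Set V.Pt) := IrreducibleSpace.isIrreducible_univ V.Pt
    rw [isIrreducible_iff_sUnion_isClosed] at hirr
    obtain ⟨t, ht, htu⟩ := hirr hFfin.toFinset (fun t ht => (hFcl t (hFfin.mem_toFinset.1 ht)).1)
      (by
        rw [hFfin.coe_toFinset, huniv])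
    exact (hFcl t (hFfin.mem_toFinset.1 ht)).2 (Set.univ_subset_iff.1 htu)

end Pool.Agent.U935.KS
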