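import Mathlib
import Pool.Agent.U935.KS.Defs

set_option autoImplicit false

namespace Pool.Agent.U935.KS

open Pool.Agent.Q8.KS Filter Topology

/-- An action of the abelian group `Γ` on the projective variety `V` by automorphisms over the
ground field, with common eigenclasses `D i` in `N¹(V)`, `γ^* D_i = e^{χ_i(γ)} D_i`, whose sum is
big; off the `Γ`-invariant proper closed subset `Null` the height of the sum is bounded below by a
positive multiple of an ample height. -/
structure AbelianAction {G : Type} [Group G] (V : Variety G) (Z : Zariski V) (Γ ι : Type)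
    [AddCommGroup Γ] [Fintype ι] where
  /-- the automorphisms -/
  act : Γ → Morphism V V
  act_zero : ∀ x, (act 0).pt x = x
  act_add : ∀ g h x, (act (g + h)).pt x = (act g).pt ((act h).pt x)
  /-- the eigenclasses -/
  D : ι → V.NS
  /-- the characters -/
  χ : ι → Γ →+ ℝ
  eigen : ∀ g i, (act g).ns (D i) = Real.exp (χ i g) • D i
  /-- the sum of the eigenclasses is big -/
  big : ∑ i, D i ∈ interior Z.Eff
  /-- pseudo-effective classes pull back to pseudo-effective classes -/
  eff_map : ∀ g, ∀ E ∈ Z.Eff, (act g).ns E ∈ Z.Eff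
  /-- pseudo-effective classes have nonnegative degree -/
  deg_eff : ∀ A : V.Pic, V.IsAmple A → ∀ E ∈ Z.Eff, 0 ≤ V.deg (V.cls A) E
  /-- the augmented base locus of the sum of the eigenclasses -/
  Null : Set V.Pt
  null_closed : IsClosed[Z.top] Null
  null_ne : Null ≠ Set.univ
  null_inv : ∀ g x, x ∈ Null → (act g).pt x ∈ Null
  null_height : ∀ (E A : V.Pic) (u v : V.Pt → ℝ), V.cls E = ∑ i, D i → V.IsAmple A →
    V.IsHeight E u → V.IsHeight A v → ∃ ε c : ℝ, 0 < ε ∧ ∀ x, x ∉ Null → ε * v x - c ≤ u x

variable {G : Type} [Group G] {V : Variety G} {Z : Zariski V} {Γ ι : Type} [AddCommGroup Γ]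
  [Fintype ι]

/-- For each `i` some group element has `χ_i > 0` and `χ_j < 2 χ_i` for all `j`. -/
def Exposed (P : AbelianAction V Z Γ ι) : Prop :=
  ∀ i, ∃ g : Γ, 0 < P.χ i g ∧ ∀ j, P.χ j g < 2 * P.χ i g

/-- For each nonempty set of indices which is not everything, some group element is negative at
all its characters. -/
def Balanced (P : AbelianAction V Z Γ ι) : Prop :=
  ∀ S : Finset ι, S.Nonempty → S ≠ Finset.univ → ∃ g : Γ, ∀ i ∈ S, P.χ i g < 0

/-- The orbit of `x` under the group is infinite. -/
def InfiniteGroupOrbit (P : AbelianAction V Z Γ ι) (x : V.Pt) : Prop :=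
  (Set.range fun g : Γ => (P.act g).pt x).Infinite

/-- The rate `max (1, e^{χ_i(g)} : i ∈ S)`. -/
noncomputable def rate (P : AbelianAction V Z Γ ι) (S : Finset ι) (g : Γ) : ℝ :=
  S.fold max 1 fun i => Real.exp (P.χ i g)

/-- The heights along the orbit of `x` under the group are, up to constant factors,
`1 + ∑_{i ∈ S} e^{χ_i(g)}`; `S` is empty if and only if the orbit is finite, and otherwise each `g`
is nonnegative at some character of `S`. -/
structure Spectrum (P : AbelianAction V Z Γ ι) (u : V.Pt → ℝ) (x : V.Pt) (S : Finset ι) :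
    Prop where
  heights : ∃ c C : ℝ, 0 < c ∧ 0 < C ∧ ∀ g : Γ,
    c * (1 + ∑ i ∈ S, Real.exp (P.χ i g)) ≤ max 1 (u ((P.act g).pt x)) ∧
      max 1 (u ((P.act g).pt x)) ≤ C * (1 + ∑ i ∈ S, Real.exp (P.χ i g))
  nonempty_iff : S.Nonempty ↔ InfiniteGroupOrbit P x
  balanced : S.Nonempty → ∀ g : Γ, ∃ i ∈ S, 0 ≤ P.χ i g

/-- There are at least two characters, they satisfy a linear relation with positive
coefficients, and after the removal of any one of them the others are linearly independent. -/
def MaximalRank (P : AbelianAction V Z Γ ι) : Prop :=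
  2 ≤ Fintype.card ι ∧
    (∀ i : ι, LinearIndependent ℝ fun j : {j // j ≠ i} => (P.χ j.1 : Γ → ℝ)) ∧
    ∃ c : ι → ℝ, (∀ i, 0 < c i) ∧ ∀ g, ∑ i, c i * P.χ i g = 0

end Pool.Agent.U935.KS
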