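import Mathlib
import Pool.Agent.U935.KS.GroupDefs

set_option autoImplicit false

namespace Pool.Agent.U935.KS

open Pool.Agent.Q8.KS Filter Topology

variable {G : Type} [Group G] {V : Variety G} {Z : Zariski V} {Γ ι : Type} [AddCommGroup Γ]
  [Fintype ι]

/-- Subvarieties of `V` and their intersection numbers with divisor classes; the sum of the
eigenclasses is nef, and `Null` is its null locus. -/
structure Subvarieties (P : AbelianAction V Z Γ ι) where
  /-- the Zariski topology is noetherian -/
  noetherian : @TopologicalSpace.NoetherianSpace V.Pt Z.top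
  /-- the automorphisms are continuous -/
  continuous : ∀ g, Continuous[Z.top, Z.top] (P.act g).pt
  /-- the dimension of an irreducible closed subset -/
  dim : Set V.Pt → ℕ
  dim_lt : ∀ W : Set V.Pt, IsClosed[Z.top] W → @IsIrreducible _ Z.top W → W ≠ Set.univ →
    dim W < V.dimPred + 1
  dim_pos : ∀ W : Set V.Pt, IsClosed[Z.top] W → @IsIrreducible _ Z.top W → W.Infinite →
    0 < dim W
  /-- the intersection numbers `E_1 ⋯ E_m ⋅ W`, `m = dim W` -/
  int : ∀ W : Set V.Pt, MultilinearMap ℝ (fun _ : Fin (dim W) => V.NS) ℝ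
  /-- `(∑ D_i)^m ⋅ W > 0` if `W` is not contained in the null locus -/
  int_pos : ∀ W : Set V.Pt, IsClosed[Z.top] W → @IsIrreducible _ Z.top W → ¬ W ⊆ P.Null →
    0 < int W (fun _ => ∑ i, P.D i)
  /-- the intersection numbers on `W` are invariant under automorphisms which preserve `W` -/
  int_map : ∀ W : Set V.Pt, IsClosed[Z.top] W → @IsIrreducible _ Z.top W → ∀ g : Γ,
    (P.act g).pt '' W = W → ∀ E : Fin (dim W) → V.NS,
      int W (fun j => (P.act g).ns (E j)) = int W E
  /-- infinitely many points of bounded degree are outside of the null locus -/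
  many : ∃ e : ℕ, {x : V.Pt | x ∉ P.Null ∧ (MulAction.orbit G x).ncard ≤ e}.Infinite

/-- The Zariski closure of the orbit of `x` under the group is the union of finitely many
translates of an irreducible closed subset `W`, and some sum of `dim W` characters (with
repetitions) is zero. -/
def ClosureSum (P : AbelianAction V Z Γ ι) (Q : Subvarieties P) (x : V.Pt) : Prop :=
  ∃ W : Set V.Pt, IsClosed[Z.top] W ∧ @IsIrreducible _ Z.top W ∧ W.Infinite ∧
    @closure _ Z.top (Set.range fun g : Γ => (P.act g).pt x) = ⋃ g : Γ, (P.act g).pt '' W ∧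
    (Set.range fun g : Γ => (P.act g).pt '' W).Finite ∧
    ∃ φ : Fin (Q.dim W) → ι, ∀ g : Γ, ∑ j, P.χ (φ j) g = 0

/-- No sum of `m` characters (with repetitions), `1 ≤ m < dim V`, is zero. -/
def NoShortRelation (P : AbelianAction V Z Γ ι) : Prop :=
  ∀ m : ℕ, 1 ≤ m → m < V.dimPred + 1 → ∀ φ : Fin m → ι, ∃ g : Γ, ∑ j, P.χ (φ j) g ≠ 0

/-- The orbit of `x` under the group is Zariski dense. -/
def DenseGroupOrbit (P : AbelianAction V Z Γ ι) (x : V.Pt) : Prop :=
  @Dense _ Z.top (Set.range fun g : Γ => (P.act g).pt x)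

/-- The rational points over the finite extension of the ground field with group `H` are
Zariski dense. -/
def PotentiallyDense (Z : Zariski V) : Prop :=
  ∃ H : Subgroup G, H.FiniteIndex ∧ @Dense _ Z.top {y : V.Pt | ∀ g ∈ H, g • y = y}

end Pool.Agent.U935.KS
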