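import Mathlib
import Pool.Agent.U935.KS.Main
import Pool.Agent.U935.KS.GroupDefs

set_option autoImplicit false

namespace Pool.Agent.U935.KS

open Pool.Agent.Q8.KS Filter Topology

variable {G : Type} [Group G] {V : Variety G} {Z : Zariski V} {Γ ι : Type} [AddCommGroup Γ]
  [Fintype ι]

lemma act_notMem (P : AbelianAction V Z Γ ι) {y : V.Pt} (hy : y ∉ P.Null) (g : Γ) :
    (P.act g).pt y ∉ P.Null := by
  intro h
  apply hy
  have := P.null_inv (-g) _ h
  rwa [← P.act_add, neg_add_cancel, P.act_zero] at this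

lemma act_iterate (P : AbelianAction V Z Γ ι) (g : Γ) (n : ℕ) (y : V.Pt) :
    (P.act g).pt^[n] y = (P.act (n • g)).pt y := by
  induction n with
  | zero => rw [zero_smul, P.act_zero]; rfl
  | succ n ih => rw [Function.iterate_succ_apply', ih, ← P.act_add, succ_nsmul']

/-- The heights of the eigenclasses. -/
structure Heights (P : AbelianAction V Z Γ ι) (u : V.Pt → ℝ) (w : ι → V.Pt → ℝ) (C : ℝ) :
    Prop where
  pos : 0 < C
  upper : ∀ i y, |w i y| ≤ C * max 1 (u y)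
  lower : ∀ y, y ∉ P.Null → max 1 (u y) ≤ C * (1 + ∑ i, |w i y|)
  step : ∀ g, ∃ c : ℝ, 0 ≤ c ∧ ∀ i y,
    |w i ((P.act g).pt y) - Real.exp (P.χ i g) * w i y| ≤ c * √(max 1 (u y))

lemma exists_heights (P : AbelianAction V Z Γ ι) {A : V.Pic} (hA : V.IsAmple A)
    {u : V.Pt → ℝ} (hu : V.IsHeight A u) : ∃ w C, Heights P u w C := by
  choose E hE using fun i => V.cls_surjective (P.D i)
  choose w hw using fun i => exists_height V (E i)
  choose c hc using fun i => height_bound V hA hu (hw i)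
  have hsum : V.IsHeight (∑ i, E i) (∑ i, w i) := by
    unfold Variety.IsHeight at *
    rw [map_sum, map_sum]
    exact Finset.sum_congr rfl fun i _ => hw i
  obtain ⟨ε, c₀, hε, h₀⟩ := P.null_height (∑ i, E i) A _ u
    (by rw [map_sum]; exact Finset.sum_congr rfl fun i _ => hE i) hA hsum hu
  refine ⟨w, ∑ i, |c i| + (1 + |c₀| + 1) / ε + 1, ?_, ?_, ?_, ?_⟩
  · have h1 : 0 ≤ ∑ i, |c i| := Finset.sum_nonneg fun i _ => abs_nonneg _
    positivity
  · intro i y
    refine (hc i y).trans (mul_le_mul_of_nonneg_right ?_ (le_trans zero_le_one (le_max_left _ _)))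
    have h1 : |c i| ≤ ∑ i, |c i| :=
      Finset.single_le_sum (f := fun i => |c i|) (fun i _ => abs_nonneg _) (Finset.mem_univ i)
    have h2 := le_abs_self (c i)
    have h3 : 0 < (1 + |c₀| + 1) / ε := by positivity
    linarith
  · intro y hy
    have h1 := h₀ y hy
    rw [Finset.sum_apply] at h1
    have h2 : ∑ i, w i y ≤ ∑ i, |w i y| := Finset.sum_le_sum fun i _ => le_abs_self _
    have h3 : 0 ≤ ∑ i, |w i y| := Finset.sum_nonneg fun i _ => abs_nonneg _
    have h4 : u y ≤ (1 + |c₀| + 1) / ε * (1 + ∑ i, |w i y|) := by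
      rw [div_mul_eq_mul_div, le_div_iff₀ hε]
      have h5 := le_abs_self c₀
      have h6 := abs_nonneg c₀
      nlinarith
    have h5 : (0 : ℝ) ≤ ∑ i, |c i| := Finset.sum_nonneg fun i _ => abs_nonneg _
    have h6 : 0 < (1 + |c₀| + 1) / ε := by positivity
    refine max_le ?_ (h4.trans ?_)
    · nlinarith
    · exact mul_le_mul_of_nonneg_right (by linarith) (by linarith)
  · intro g
    have key : ∀ i, ∃ c : ℝ, ∀ y,
        |w i ((P.act g).pt y) - Real.exp (P.χ i g) * w i y| ≤ c * √(max 1 (u y)) := by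
      intro i
      have h1 : V.cls ((P.act g).pic (E i) - Real.exp (P.χ i g) • E i) = 0 := by
        rw [map_sub, map_smul, (P.act g).cls_pic, hE, P.eigen, sub_self]
      exact V.numtrivial_height _ A h1 hA _ u
        (height_sub V ((P.act g).height_pic _ _ (hw i)) (height_smul V _ (hw i))) hu
    choose d hd using key
    refine ⟨∑ i, |d i|, Finset.sum_nonneg fun i _ => abs_nonneg _, fun i y => ?_⟩
    refine (hd i y).trans (mul_le_mul_of_nonneg_right ?_ (Real.sqrt_nonneg _))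
    exact (le_abs_self _).trans
      (Finset.single_le_sum (f := fun i => |d i|) (fun i _ => abs_nonneg _) (Finset.mem_univ i))

/-- `K √t ≤ η t + K² / η`. -/
lemma mul_sqrt_le {K η t : ℝ} (hK : 0 ≤ K) (hη : 0 < η) (ht : 0 ≤ t) :
    K * √t ≤ η * t + K ^ 2 / η := by
  have hs := Real.sqrt_nonneg t
  have hst := Real.mul_self_sqrt ht
  by_cases h : √t ≤ K / η
  · have h1 : K * √t ≤ K * (K / η) := mul_le_mul_of_nonneg_left h hK
    have h2 : K * (K / η) = K ^ 2 / η := by ring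
    have h3 : 0 ≤ η * t := by positivity
    linarith
  · push Not at h
    rw [div_lt_iff₀ hη] at h
    have h1 : K * √t ≤ (√t * η) * √t := mul_le_mul_of_nonneg_right h.le hs
    have h2 : (√t * η) * √t = η * (√t * √t) := by ring
    rw [hst] at h2
    have h3 : 0 ≤ K ^ 2 / η := by positivity
    linarith

/-- Growth of the heights under one group element. -/
lemma growth_step {P : AbelianAction V Z Γ ι} {u : V.Pt → ℝ} {w : ι → V.Pt → ℝ} {C : ℝ}
    (H : Heights P u w C) (g : Γ) {ρ₀ ρ : ℝ} (h0 : 1 ≤ ρ₀) (hρ : ρ₀ < ρ)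
    (hχ : ∀ j, Real.exp (P.χ j g) ≤ ρ₀) :
    ∃ L : ℝ, 0 ≤ L ∧ ∀ (n : ℕ) (y : V.Pt), y ∉ P.Null →
      1 + ∑ j, |w j ((P.act g).pt^[n] y)| ≤ ρ ^ n * ((1 + L) * (1 + ∑ j, |w j y|)) := by
  obtain ⟨c, hc, hstep⟩ := H.step g
  obtain ⟨K₁, hK₁⟩ : ∃ K₁ : ℝ, K₁ = Fintype.card ι * (c * √C) := ⟨_, rfl⟩
  have hK₁0 : 0 ≤ K₁ := by rw [hK₁]; positivity
  have hη : 0 < ρ - ρ₀ := by linarith
  have hρ1 : 0 < ρ - 1 := by linarith
  obtain ⟨L, hL⟩ : ∃ L : ℝ, L = K₁ ^ 2 / (ρ - ρ₀) / (ρ - 1) := ⟨_, rfl⟩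
  have hL0 : 0 ≤ L := by rw [hL]; positivity
  have hLK : L * (ρ - 1) = K₁ ^ 2 / (ρ - ρ₀) := by
    rw [hL, div_mul_cancel₀ _ hρ1.ne']
  have hone : ∀ y : V.Pt, y ∉ P.Null →
      (1 + ∑ j, |w j ((P.act g).pt y)|) + L ≤ ρ * ((1 + ∑ j, |w j y|) + L) := by
    intro y hy
    have hM0 : 0 ≤ ∑ j, |w j y| := Finset.sum_nonneg fun i _ => abs_nonneg _
    have hsq : √(max 1 (u y)) ≤ √C * √(1 + ∑ j, |w j y|) := by
      rw [← Real.sqrt_mul H.pos.le]
      exact Real.sqrt_le_sqrt (H.lower y hy)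
    have h1 : ∀ j, |w j ((P.act g).pt y)| ≤ ρ₀ * |w j y| + c * √C * √(1 + ∑ j, |w j y|) := by
      intro j
      have h2 := hstep j y
      have h3 : |w j ((P.act g).pt y)| ≤ |Real.exp (P.χ j g) * w j y|
          + |w j ((P.act g).pt y) - Real.exp (P.χ j g) * w j y| := by
        have := abs_add_le (Real.exp (P.χ j g) * w j y)
          (w j ((P.act g).pt y) - Real.exp (P.χ j g) * w j y)
        rwa [add_sub_cancel] at this
      rw [abs_mul, abs_of_pos (Real.exp_pos _)] at h3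
      have h4 : Real.exp (P.χ j g) * |w j y| ≤ ρ₀ * |w j y| :=
        mul_le_mul_of_nonneg_right (hχ j) (abs_nonneg _)
      have h5 : c * √(max 1 (u y)) ≤ c * (√C * √(1 + ∑ j, |w j y|)) :=
        mul_le_mul_of_nonneg_left hsq hc
      linarith
    have h2 : ∑ j, |w j ((P.act g).pt y)|
        ≤ ρ₀ * ∑ j, |w j y| + K₁ * √(1 + ∑ j, |w j y|) := by
      calc ∑ j, |w j ((P.act g).pt y)|
          ≤ ∑ j, (ρ₀ * |w j y| + c * √C * √(1 + ∑ j, |w j y|)) :=
            Finset.sum_le_sum fun j _ => h1 j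
        _ = _ := by
            rw [Finset.sum_add_distrib, ← Finset.mul_sum, Finset.sum_const, Finset.card_univ,
              nsmul_eq_mul, hK₁]
            ring
    have h3 := mul_sqrt_le hK₁0 hη (show (0 : ℝ) ≤ 1 + ∑ j, |w j y| by linarith)
    nlinarith
  refine ⟨L, hL0, fun n y hy => ?_⟩
  have hρ0 : 0 < ρ := by linarith
  have key : (1 + ∑ j, |w j ((P.act g).pt^[n] y)|) + L
      ≤ ρ ^ n * ((1 + ∑ j, |w j y|) + L) := by
    induction n with
    | zero => simp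
    | succ n ih =>
      have hyn : (P.act g).pt^[n] y ∉ P.Null := by
        rw [act_iterate]
        exact act_notMem P hy _
      have h1 := hone _ hyn
      rw [← Function.iterate_succ_apply' (P.act g).pt n y] at h1
      calc (1 + ∑ j, |w j ((P.act g).pt^[n + 1] y)|) + L
          ≤ ρ * ((1 + ∑ j, |w j ((P.act g).pt^[n] y)|) + L) := h1
        _ ≤ ρ * (ρ ^ n * ((1 + ∑ j, |w j y|) + L)) := mul_le_mul_of_nonneg_left ih hρ0.le
        _ = _ := by ring
  have hM0 : 0 ≤ ∑ j, |w j y| := Finset.sum_nonneg fun i _ => abs_nonneg _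
  have h1 : (1 + ∑ j, |w j y|) + L ≤ (1 + L) * (1 + ∑ j, |w j y|) := by nlinarith
  have h2 := mul_le_mul_of_nonneg_left h1 (pow_pos hρ0 n).le
  linarith

/-- The canonical height of one eigenclass. -/
lemma exists_canonical {P : AbelianAction V Z Γ ι} {u : V.Pt → ℝ} {w : ι → V.Pt → ℝ} {C : ℝ}
    (H : Heights P u w C) (i : ι) {γ : Γ} (h1 : 0 < P.χ i γ)
    (h2 : ∀ j, P.χ j γ < 2 * P.χ i γ) :
    ∃ (k : V.Pt → ℝ) (B : ℝ), 0 ≤ B ∧
      (∀ y, y ∉ P.Null → |w i y - k y| ≤ B * √(1 + ∑ j, |w j y|)) ∧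
      ∀ y, y ∉ P.Null → ∀ g : Γ, k ((P.act g).pt y) = Real.exp (P.χ i g) * k y := by
  classical
  obtain ⟨lam, hlam⟩ : ∃ lam : ℝ, lam = Real.exp (P.χ i γ) := ⟨_, rfl⟩
  have hlam1 : 1 < lam := by rw [hlam]; exact Real.one_lt_exp_iff.2 h1
  have hlam0 : 0 < lam := by linarith
  -- a bound for all the characters, less than `lam ^ 2`
  have hsq : ∀ j, Real.exp (P.χ j γ) < lam ^ 2 := by
    intro j
    rw [hlam, ← Real.exp_nat_mul]
    apply Real.exp_lt_exp.2
    have := h2 j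
    push_cast
    exact this
  obtain ⟨ρ₀, hρ₀1, hρ₀2, hρ₀3⟩ : ∃ ρ₀ : ℝ, 1 ≤ ρ₀ ∧ ρ₀ < lam ^ 2 ∧
      ∀ j, Real.exp (P.χ j γ) ≤ ρ₀ := by
    have hne : (Finset.univ : Finset ι).Nonempty := ⟨i, Finset.mem_univ i⟩
    refine ⟨max 1 (Finset.univ.sup' hne fun j => Real.exp (P.χ j γ)), le_max_left _ _, ?_, ?_⟩
    · refine max_lt (by nlinarith) ?_
      rw [Finset.sup'_lt_iff]
      exact fun j _ => hsq j
    · intro j
      exact (Finset.le_sup' (fun j => Real.exp (P.χ j γ)) (Finset.mem_univ j)).trans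
        (le_max_right _ _)
  obtain ⟨ρ, hρ1, hρ2⟩ := exists_between hρ₀2
  have hρ0 : 0 < ρ := by linarith
  obtain ⟨L, hL, hgr⟩ := growth_step H γ hρ₀1 hρ1 hρ₀3
  obtain ⟨c, hc, hstep⟩ := H.step γ
  obtain ⟨q, hq⟩ : ∃ q : ℝ, q = √ρ / lam := ⟨_, rfl⟩
  have hq0 : 0 ≤ q := by rw [hq]; positivity
  have hq1 : q < 1 := by
    rw [hq, div_lt_one hlam0]
    calc √ρ < √(lam ^ 2) := Real.sqrt_lt_sqrt hρ0.le hρ2
      _ = lam := Real.sqrt_sq hlam0.le
  -- the size of the error terms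
  have herr : ∀ (n : ℕ) (y : V.Pt), y ∉ P.Null →
      √(max 1 (u ((P.act γ).pt^[n] y))) / lam ^ n
        ≤ (√(C * (1 + L)) * √(1 + ∑ j, |w j y|)) * q ^ n := by
    intro n y hy
    have hyn : (P.act γ).pt^[n] y ∉ P.Null := by
      rw [act_iterate]
      exact act_notMem P hy _
    have h3 : max 1 (u ((P.act γ).pt^[n] y)) ≤ (C * (1 + L)) * (1 + ∑ j, |w j y|) * ρ ^ n := by
      refine (H.lower _ hyn).trans ?_
      have := mul_le_mul_of_nonneg_left (hgr n y hy) H.pos.le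
      linarith
    have h4 := Real.sqrt_le_sqrt h3
    have hCL : 0 ≤ C * (1 + L) := mul_nonneg H.pos.le (by linarith)
    have hM : 0 ≤ 1 + ∑ j, |w j y| := by
      have : 0 ≤ ∑ j, |w j y| := Finset.sum_nonneg fun i _ => abs_nonneg _
      linarith
    rw [Real.sqrt_mul (mul_nonneg hCL hM), Real.sqrt_mul hCL] at h4
    have h5 : √(ρ ^ n) = (√ρ) ^ n := by
      rw [← Real.sqrt_sq (pow_nonneg (Real.sqrt_nonneg ρ) n), ← pow_mul, mul_comm n 2, pow_mul,
        Real.sq_sqrt hρ0.le]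
    rw [h5] at h4
    rw [hq, div_pow, div_le_iff₀ (pow_pos hlam0 n)]
    have h6 : √(C * (1 + L)) * √(1 + ∑ j, |w j y|) * ((√ρ) ^ n / lam ^ n) * lam ^ n
        = √(C * (1 + L)) * √(1 + ∑ j, |w j y|) * (√ρ) ^ n := by
      field_simp
    rw [h6]
    exact h4
  have hcau : ∀ y : V.Pt, y ∉ P.Null → ∃ k : ℝ,
      Tendsto (fun n : ℕ => w i ((P.act γ).pt^[n] y) / lam ^ n) atTop (𝓝 k) ∧
        |w i y - k| ≤ (c * √(C * (1 + L)) / (1 - q)) * √(1 + ∑ j, |w j y|) := by
    intro y hy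
    have hdist : ∀ n : ℕ, dist (w i ((P.act γ).pt^[n] y) / lam ^ n)
        (w i ((P.act γ).pt^[n + 1] y) / lam ^ (n + 1))
          ≤ (c * (√(C * (1 + L)) * √(1 + ∑ j, |w j y|))) * q ^ n := by
      intro n
      have h3 := hstep i ((P.act γ).pt^[n] y)
      rw [← Function.iterate_succ_apply' (P.act γ).pt n y, ← hlam] at h3
      have h4 := herr n y hy
      have h5 : w i ((P.act γ).pt^[n] y) / lam ^ n - w i ((P.act γ).pt^[n + 1] y) / lam ^ (n + 1)
          = -((w i ((P.act γ).pt^[n + 1] y) - lam * w i ((P.act γ).pt^[n] y)) / lam ^ (n + 1)) := by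
        field_simp
        ring
      rw [Real.dist_eq, h5, abs_neg, abs_div, abs_of_pos (pow_pos hlam0 (n + 1))]
      have h6 : |w i ((P.act γ).pt^[n + 1] y) - lam * w i ((P.act γ).pt^[n] y)| / lam ^ (n + 1)
          ≤ c * √(max 1 (u ((P.act γ).pt^[n] y))) / lam ^ n := by
        refine div_le_div₀ (by positivity) h3 (pow_pos hlam0 n) ?_
        exact pow_le_pow_right₀ hlam1.le (Nat.le_succ n)
      refine h6.trans ?_
      rw [mul_div_assoc, mul_assoc]
      exact mul_le_mul_of_nonneg_left h4 hc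
    obtain ⟨k, hk⟩ := cauchySeq_tendsto_of_complete (cauchySeq_of_le_geometric q _ hq1 hdist)
    refine ⟨k, hk, ?_⟩
    have h3 := dist_le_of_le_geometric_of_tendsto₀ q _ hq1 hdist hk
    rw [Function.iterate_zero, id, pow_zero, div_one, Real.dist_eq] at h3
    refine h3.trans (le_of_eq ?_)
    ring
  choose! k hk1 hk2 using hcau
  refine ⟨k, c * √(C * (1 + L)) / (1 - q), div_nonneg (by positivity) (by linarith), hk2, ?_⟩
  intro y hy g
  obtain ⟨cg, hcg, hstepg⟩ := H.step g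
  have hgy := act_notMem P hy g
  -- compare the two sequences
  have hlim : Tendsto (fun n : ℕ => w i ((P.act γ).pt^[n] ((P.act g).pt y)) / lam ^ n
      - Real.exp (P.χ i g) * (w i ((P.act γ).pt^[n] y) / lam ^ n)) atTop (𝓝 0) := by
    have hb : ∀ n : ℕ, ‖w i ((P.act γ).pt^[n] ((P.act g).pt y)) / lam ^ n
        - Real.exp (P.χ i g) * (w i ((P.act γ).pt^[n] y) / lam ^ n)‖
          ≤ (cg * (√(C * (1 + L)) * √(1 + ∑ j, |w j y|))) * q ^ n := by
      intro n
      have hcomm : (P.act γ).pt^[n] ((P.act g).pt y) = (P.act g).pt ((P.act γ).pt^[n] y) := by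
        rw [act_iterate, act_iterate, ← P.act_add, ← P.act_add, add_comm]
      rw [hcomm]
      have h3 := hstepg i ((P.act γ).pt^[n] y)
      have h5 : w i ((P.act g).pt ((P.act γ).pt^[n] y)) / lam ^ n
          - Real.exp (P.χ i g) * (w i ((P.act γ).pt^[n] y) / lam ^ n)
          = (w i ((P.act g).pt ((P.act γ).pt^[n] y))
            - Real.exp (P.χ i g) * w i ((P.act γ).pt^[n] y)) / lam ^ n := by ring
      rw [h5, Real.norm_eq_abs, abs_div, abs_of_pos (pow_pos hlam0 n)]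
      refine (div_le_div_of_nonneg_right h3 (pow_pos hlam0 n).le).trans ?_
      rw [mul_div_assoc, mul_assoc]
      exact mul_le_mul_of_nonneg_left (herr n y hy) hcg
    refine squeeze_zero_norm hb ?_
    have := (tendsto_pow_atTop_nhds_zero_of_lt_one hq0 hq1).const_mul
      (cg * (√(C * (1 + L)) * √(1 + ∑ j, |w j y|)))
    rwa [mul_zero] at this
  have hl1 := (hk1 _ hgy).sub ((hk1 y hy).const_mul (Real.exp (P.χ i g)))
  have := tendsto_nhds_unique hl1 hlim
  linarith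

/-- **Canonical heights** of an abelian group of automorphisms. -/
theorem canonical (P : AbelianAction V Z Γ ι) (hP : Exposed P) {A : V.Pic}
    (hA : V.IsAmple A) {u : V.Pt → ℝ} (hu : V.IsHeight A u) :
    ∃ (k : ι → V.Pt → ℝ) (C : ℝ), 0 < C ∧ ∀ y, y ∉ P.Null →
      (∀ i g, k i ((P.act g).pt y) = Real.exp (P.χ i g) * k i y) ∧
      (∀ i, |k i y| ≤ C * max 1 (u y)) ∧ max 1 (u y) ≤ C * (1 + ∑ i, |k i y|) := by
  obtain ⟨w, C, H⟩ := exists_heights P hA hu
  choose γ hγ1 hγ2 using hP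
  choose k B hB hk1 hk2 using fun i => exists_canonical H i (hγ1 i) (hγ2 i)
  obtain ⟨B', hB'⟩ : ∃ B' : ℝ, B' = ∑ i, B i := ⟨_, rfl⟩
  have hB'0 : 0 ≤ B' := hB' ▸ Finset.sum_nonneg fun i _ => hB i
  have hBi : ∀ i, B i ≤ B' := fun i => hB' ▸
    Finset.single_le_sum (f := B) (fun i _ => hB i) (Finset.mem_univ i)
  have hC := H.pos
  obtain ⟨m, hm⟩ : ∃ m : ℝ, m = Fintype.card ι := ⟨_, rfl⟩
  have hm0 : 0 ≤ m := by rw [hm]; positivity
  -- constants
  refine ⟨k, C + B' * (1 + m * C) + C * (2 + (m * B') ^ 2 * 4) + 1, by positivity, ?_⟩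
  intro y hy
  have hH1 : (1 : ℝ) ≤ max 1 (u y) := le_max_left _ _
  have hM0 : 0 ≤ ∑ j, |w j y| := Finset.sum_nonneg fun i _ => abs_nonneg _
  have hM1 : (1 : ℝ) ≤ 1 + ∑ j, |w j y| := by linarith
  have hsqM : √(1 + ∑ j, |w j y|) ≤ 1 + ∑ j, |w j y| := by
    rw [Real.sqrt_le_left (by linarith)]
    nlinarith
  refine ⟨fun i g => hk2 i y hy g, ?_, ?_⟩
  · intro i
    have h1 := hk1 i y hy
    have h2 : |k i y| ≤ |w i y| + |w i y - k i y| := by
      have := abs_sub_abs_le_abs_sub (k i y) (w i y)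
      rw [abs_sub_comm] at this
      linarith
    have h3 : ∑ j, |w j y| ≤ m * (C * max 1 (u y)) := by
      calc ∑ j, |w j y| ≤ ∑ _j : ι, C * max 1 (u y) :=
            Finset.sum_le_sum fun j _ => H.upper j y
        _ = m * (C * max 1 (u y)) := by
            rw [Finset.sum_const, Finset.card_univ, nsmul_eq_mul, hm]
    have h4 : B i * √(1 + ∑ j, |w j y|) ≤ B' * (1 + ∑ j, |w j y|) :=
      mul_le_mul (hBi i) hsqM (Real.sqrt_nonneg _) hB'0
    have h5 : B' * (1 + ∑ j, |w j y|) ≤ B' * ((1 + m * C) * max 1 (u y)) := by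
      refine mul_le_mul_of_nonneg_left ?_ hB'0
      nlinarith
    have h6 := H.upper i y
    have h7 : 0 ≤ C * (2 + (m * B') ^ 2 * 4) + 1 := by positivity
    have h8 : 0 ≤ (C * (2 + (m * B') ^ 2 * 4) + 1) * max 1 (u y) :=
      mul_nonneg h7 (by linarith)
    calc |k i y| ≤ C * max 1 (u y) + B' * ((1 + m * C) * max 1 (u y)) := by linarith
      _ ≤ (C + B' * (1 + m * C) + C * (2 + (m * B') ^ 2 * 4) + 1) * max 1 (u y) := by
          nlinarith
  · have h1 := H.lower y hy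
    have h2 : ∑ j, |w j y| ≤ ∑ j, |k j y| + (m * B') * √(1 + ∑ j, |w j y|) := by
      calc ∑ j, |w j y| ≤ ∑ j, (|k j y| + B' * √(1 + ∑ j, |w j y|)) := by
            refine Finset.sum_le_sum fun j _ => ?_
            have h3 := hk1 j y hy
            have h4 := abs_sub_abs_le_abs_sub (w j y) (k j y)
            have h5 := mul_le_mul_of_nonneg_right (hBi j) (Real.sqrt_nonneg (1 + ∑ j, |w j y|))
            linarith
        _ = _ := by
            rw [Finset.sum_add_distrib, Finset.sum_const, Finset.card_univ, nsmul_eq_mul, hm]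
            ring
    have hmB : 0 ≤ m * B' := by positivity
    have h3 := mul_sqrt_le hmB (show (0 : ℝ) < 1 / 2 by norm_num)
      (show (0 : ℝ) ≤ 1 + ∑ j, |w j y| by linarith)
    have hk0 : 0 ≤ ∑ j, |k j y| := Finset.sum_nonneg fun i _ => abs_nonneg _
    have h4 : 1 + ∑ j, |w j y| ≤ 2 * (1 + ∑ j, |k j y|) + (m * B') ^ 2 * 4 := by
      have h5 : (m * B') ^ 2 / (1 / 2) = (m * B') ^ 2 * 2 := by ring
      rw [h5] at h3
      linarith
    have h5 : 1 + ∑ j, |w j y| ≤ (2 + (m * B') ^ 2 * 4) * (1 + ∑ j, |k j y|) := by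
      have h6 : (m * B') ^ 2 * 4 ≤ (m * B') ^ 2 * 4 * (1 + ∑ j, |k j y|) :=
        le_mul_of_one_le_right (by positivity) (by linarith)
      linarith
    have h6 : max 1 (u y) ≤ C * ((2 + (m * B') ^ 2 * 4) * (1 + ∑ j, |k j y|)) :=
      h1.trans (mul_le_mul_of_nonneg_left h5 hC.le)
    have h7 : 0 ≤ (C + B' * (1 + m * C) + 1) * (1 + ∑ j, |k j y|) := by positivity
    linarith

end Pool.Agent.U935.KS
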