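import Mathlib
import Pool.Agent.U935.KS.Group

set_option autoImplicit false

namespace Pool.Agent.U935.KS

open Pool.Agent.Q8.KS Filter Topology

variable {G : Type} [Group G] {V : Variety G} {Z : Zariski V} {Γ ι : Type} [AddCommGroup Γ]
  [Fintype ι]

lemma one_le_rate (P : AbelianAction V Z Γ ι) (S : Finset ι) (g : Γ) : 1 ≤ rate P S g := by
  classical
  unfold rate
  rw [Finset.le_fold_max]
  exact Or.inl le_rfl

lemma le_rate (P : AbelianAction V Z Γ ι) (S : Finset ι) (g : Γ) {i : ι} (hi : i ∈ S) :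
    Real.exp (P.χ i g) ≤ rate P S g := by
  classical
  unfold rate
  rw [Finset.le_fold_max]
  exact Or.inr ⟨i, hi, le_rfl⟩

lemma rate_cases (P : AbelianAction V Z Γ ι) (S : Finset ι) (g : Γ) :
    rate P S g = 1 ∨ ∃ i ∈ S, rate P S g = Real.exp (P.χ i g) := by
  classical
  unfold rate
  induction S using Finset.induction_on with
  | empty => exact Or.inl rfl
  | insert i S hi ih =>
    rw [Finset.fold_insert hi]
    rcases max_choice (Real.exp (P.χ i g)) (S.fold max 1 fun i => Real.exp (P.χ i g)) with h | h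
    · exact Or.inr ⟨i, Finset.mem_insert_self _ _, h⟩
    · rw [h]
      rcases ih with h1 | ⟨j, hj, h1⟩
      · exact Or.inl h1
      · exact Or.inr ⟨j, Finset.mem_insert_of_mem hj, h1⟩

lemma exp_nsmul (P : AbelianAction V Z Γ ι) (i : ι) (n : ℕ) (g : Γ) :
    Real.exp (P.χ i (n • g)) = Real.exp (P.χ i g) ^ n := by
  rw [map_nsmul, nsmul_eq_mul, Real.exp_nat_mul]

/-- Points of bounded height in the orbit under the group. -/
lemma finite_of_bounded (hV : NumberField V) (P : AbelianAction V Z Γ ι) {A : V.Pic}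
    (hA : V.IsAmple A) {u : V.Pt → ℝ} (hu : V.IsHeight A u) (x : V.Pt) (B : ℝ) {T : Type}
    (f : T → Γ) (hf : ∀ t, u ((P.act (f t)).pt x) ≤ B) :
    (Set.range fun t => (P.act (f t)).pt x).Finite := by
  refine (hV.northcott A u hA hu (MulAction.orbit G x).ncard B).subset ?_
  rintro _ ⟨t, rfl⟩
  refine ⟨?_, hf t⟩
  have := ncard_orbit_le hV (P.act (f t)) x 1
  simpa using this

/-- **The heights along the orbit under the group.** -/
theorem spectrum (hV : NumberField V) (P : AbelianAction V Z Γ ι) (hP : Exposed P) {A : V.Pic}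
    (hA : V.IsAmple A) {u : V.Pt → ℝ} (hu : V.IsHeight A u) {x : V.Pt} (hx : x ∉ P.Null) :
    ∃ S : Finset ι, Spectrum P u x S := by
  classical
  obtain ⟨k, C, hC, hk⟩ := canonical P hP hA hu
  obtain ⟨S, hS⟩ : ∃ S : Finset ι, S = Finset.univ.filter fun i => k i x ≠ 0 := ⟨_, rfl⟩
  have hmem : ∀ i, i ∈ S ↔ k i x ≠ 0 := by
    intro i
    rw [hS, Finset.mem_filter]
    exact ⟨fun h => h.2, fun h => ⟨Finset.mem_univ _, h⟩⟩
  have heq : ∀ i g, k i ((P.act g).pt x) = Real.exp (P.χ i g) * k i x :=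
    fun i g => (hk x hx).1 i g
  have hsum : ∀ g, ∑ i, |k i ((P.act g).pt x)| = ∑ i ∈ S, Real.exp (P.χ i g) * |k i x| := by
    intro g
    rw [hS, Finset.sum_filter]
    refine Finset.sum_congr rfl fun i _ => ?_
    rw [heq, abs_mul, abs_of_pos (Real.exp_pos _)]
    by_cases h : k i x = 0
    · simp [h]
    · simp [h]
  -- the smallest and the sum of the coefficients
  obtain ⟨a, ha, hamin⟩ : ∃ a : ℝ, 0 < a ∧ ∀ i ∈ S, a ≤ |k i x| := by
    rcases S.eq_empty_or_nonempty with h | h
    · exact ⟨1, one_pos, by simp [h]⟩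
    · obtain ⟨j, hj, hmin⟩ := S.exists_min_image (fun i => |k i x|) h
      exact ⟨|k j x|, abs_pos.2 ((hmem j).1 hj), hmin⟩
  have hbmax : ∀ i ∈ S, |k i x| ≤ ∑ j, |k j x| := fun i _ =>
    Finset.single_le_sum (f := fun j => |k j x|) (fun i _ => abs_nonneg _) (Finset.mem_univ i)
  have hb0 : 0 ≤ ∑ j, |k j x| := Finset.sum_nonneg fun i _ => abs_nonneg _
  have hheights : ∃ c C : ℝ, 0 < c ∧ 0 < C ∧ ∀ g : Γ,
      c * (1 + ∑ i ∈ S, Real.exp (P.χ i g)) ≤ max 1 (u ((P.act g).pt x)) ∧
        max 1 (u ((P.act g).pt x)) ≤ C * (1 + ∑ i ∈ S, Real.exp (P.χ i g)) := by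
    obtain ⟨m, hm⟩ : ∃ m : ℝ, m = Fintype.card ι := ⟨_, rfl⟩
    have hm0 : 0 ≤ m := by rw [hm]; positivity
    refine ⟨1 / (1 + m * C / a), C * (1 + ∑ j, |k j x|), by positivity, by positivity,
      fun g => ⟨?_, ?_⟩⟩
    · have hE0 : 0 ≤ ∑ i ∈ S, Real.exp (P.χ i g) := Finset.sum_nonneg fun i _ => (Real.exp_pos _).le
      have hgx := act_notMem P hx g
      have h1 : ∑ i, |k i ((P.act g).pt x)| ≤ m * (C * max 1 (u ((P.act g).pt x))) := by
        calc ∑ i, |k i ((P.act g).pt x)| ≤ ∑ _i : ι, C * max 1 (u ((P.act g).pt x)) :=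
              Finset.sum_le_sum fun i _ => (hk _ hgx).2.1 i
          _ = _ := by rw [Finset.sum_const, Finset.card_univ, nsmul_eq_mul, hm]
      have h2 : a * ∑ i ∈ S, Real.exp (P.χ i g) ≤ ∑ i, |k i ((P.act g).pt x)| := by
        rw [hsum, Finset.mul_sum]
        refine Finset.sum_le_sum fun i hi => ?_
        rw [mul_comm]
        exact mul_le_mul_of_nonneg_left (hamin i hi) (Real.exp_pos _).le
      have h3 : ∑ i ∈ S, Real.exp (P.χ i g) ≤ m * C / a * max 1 (u ((P.act g).pt x)) := by
        rw [div_mul_eq_mul_div, le_div_iff₀ ha]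
        linarith
      have h4 : (1 : ℝ) ≤ max 1 (u ((P.act g).pt x)) := le_max_left _ _
      rw [div_mul_eq_mul_div, one_mul, div_le_iff₀ (by positivity)]
      linarith
    · have hgx := act_notMem P hx g
      refine (hk _ hgx).2.2.trans ?_
      rw [mul_assoc]
      refine mul_le_mul_of_nonneg_left ?_ hC.le
      rw [hsum]
      have h1 : ∑ i ∈ S, Real.exp (P.χ i g) * |k i x|
          ≤ (∑ j, |k j x|) * ∑ i ∈ S, Real.exp (P.χ i g) := by
        rw [Finset.mul_sum]
        refine Finset.sum_le_sum fun i hi => ?_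
        rw [mul_comm]
        exact mul_le_mul_of_nonneg_right (hbmax i hi) (Real.exp_pos _).le
      have hE0 : 0 ≤ ∑ i ∈ S, Real.exp (P.χ i g) := Finset.sum_nonneg fun i _ => (Real.exp_pos _).le
      nlinarith
  -- two equal points in the orbit of one element
  have hrep : ∀ (g : Γ) (i : ι), i ∈ S → P.χ i g ≠ 0 →
      ¬ (Set.range fun n : ℕ => (P.act (n • g)).pt x).Finite := by
    intro g i hi hne hfin
    have hinj : Function.Injective fun n : ℕ => (P.act (n • g)).pt x := by
      intro m n hmn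
      have h1 : Real.exp (P.χ i (m • g)) * k i x = Real.exp (P.χ i (n • g)) * k i x := by
        rw [← heq, ← heq]
        exact congrArg (k i) hmn
      have h2 := mul_right_cancel₀ ((hmem i).1 hi) h1
      rw [Real.exp_eq_exp, map_nsmul, map_nsmul, nsmul_eq_mul, nsmul_eq_mul] at h2
      have h3 := mul_right_cancel₀ hne h2
      exact_mod_cast h3
    exact Set.infinite_range_of_injective hinj hfin
  refine ⟨S, hheights, ⟨?_, ?_⟩, ?_⟩
  · rintro ⟨i, hi⟩ hfin
    obtain ⟨g, hg, -⟩ := hP i
    refine hrep g i hi hg.ne' (Set.Finite.subset hfin ?_)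
    rintro _ ⟨n, rfl⟩
    exact ⟨n • g, rfl⟩
  · intro hinf
    by_contra hne
    rw [Finset.not_nonempty_iff_eq_empty] at hne
    obtain ⟨c, C', -, -, hb⟩ := hheights
    refine hinf (finite_of_bounded hV P hA hu x C' id fun g => ?_)
    have h1 := (hb g).2
    rw [hne, Finset.sum_empty, add_zero, mul_one] at h1
    exact (le_max_right _ _).trans h1
  · rintro ⟨i, hi⟩ g
    by_contra hcon
    push Not at hcon
    refine hrep g i hi (hcon i hi).ne ?_
    obtain ⟨c, C', -, hC', hb⟩ := hheights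
    refine finite_of_bounded hV P hA hu x (C' * (1 + S.card)) (fun n : ℕ => n • g) fun n => ?_
    refine (le_max_right _ _).trans ((hb (n • g)).2.trans ?_)
    refine mul_le_mul_of_nonneg_left ?_ hC'.le
    have h1 : ∑ i ∈ S, Real.exp (P.χ i (n • g)) ≤ ∑ _i ∈ S, (1 : ℝ) := by
      refine Finset.sum_le_sum fun j hj => ?_
      rw [exp_nsmul]
      exact pow_le_one₀ (Real.exp_pos _).le (Real.exp_le_one_iff.2 (hcon j hj).le)
    rw [Finset.sum_const, nsmul_eq_mul, mul_one] at h1
    linarith

/-- The arithmetic degrees of the elements of the group. -/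
theorem degree_of_spectrum (P : AbelianAction V Z Γ ι) {u : V.Pt → ℝ} {x : V.Pt}
    {S : Finset ι} (hS : Spectrum P u x S) (g : Γ) :
    IsArithmeticDegree (P.act g) u x (rate P S g) := by
  obtain ⟨c, C, hc, hC, hb⟩ := hS.heights
  have hr1 := one_le_rate P S g
  have hr0 : 0 ≤ rate P S g := by linarith
  have hlow : ∀ n : ℕ, rate P S g ^ n ≤ 1 + ∑ i ∈ S, Real.exp (P.χ i (n • g)) := by
    intro n
    have hE0 : 0 ≤ ∑ i ∈ S, Real.exp (P.χ i (n • g)) :=
      Finset.sum_nonneg fun i _ => (Real.exp_pos _).le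
    rcases rate_cases P S g with h | ⟨i, hi, h⟩
    · rw [h, one_pow]
      linarith
    · have h1 : Real.exp (P.χ i (n • g)) ≤ ∑ i ∈ S, Real.exp (P.χ i (n • g)) :=
        Finset.single_le_sum (f := fun i => Real.exp (P.χ i (n • g)))
          (fun i _ => (Real.exp_pos _).le) hi
      rw [h, ← exp_nsmul]
      linarith
  have hup : ∀ n : ℕ, 1 + ∑ i ∈ S, Real.exp (P.χ i (n • g)) ≤ (1 + S.card) * rate P S g ^ n := by
    intro n
    have h1 : ∑ i ∈ S, Real.exp (P.χ i (n • g)) ≤ ∑ _i ∈ S, rate P S g ^ n := by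
      refine Finset.sum_le_sum fun i hi => ?_
      rw [exp_nsmul]
      exact pow_le_pow_left₀ (Real.exp_pos _).le (le_rate P S g hi) n
    rw [Finset.sum_const, nsmul_eq_mul] at h1
    have h2 : 1 ≤ rate P S g ^ n := one_le_pow₀ hr1
    linarith
  refine tendsto_of_tendsto_of_tendsto_of_le_of_le (root_lim hc hr0)
    (root_lim (c := C * (1 + S.card)) (by positivity) hr0) ?_ ?_
  · intro n
    refine Real.rpow_le_rpow (by positivity) ?_ (by positivity)
    rw [act_iterate]
    exact (mul_le_mul_of_nonneg_left (hlow n) hc.le).trans (hb (n • g)).1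
  · intro n
    refine Real.rpow_le_rpow (le_trans zero_le_one (le_max_left _ _)) ?_ (by positivity)
    rw [act_iterate, mul_assoc]
    exact (hb (n • g)).2.trans (mul_le_mul_of_nonneg_left (hup n) hC.le)

/-- The dynamical degree is at most the largest character. -/
lemma dynamical_le (P : AbelianAction V Z Γ ι) {A : V.Pic} (hA : V.IsAmple A) (g : Γ) {d : ℝ}
    (hd : IsDynamicalDegree (P.act g) A d) : d ≤ rate P Finset.univ g := by
  -- a small multiple of the ample class can be subtracted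
  have hcont : Continuous fun t : ℝ => (∑ i, P.D i) - t • V.cls A := by fun_prop
  have hopen : {t : ℝ | (∑ i, P.D i) - t • V.cls A ∈ interior Z.Eff} ∈ 𝓝 (0 : ℝ) := by
    refine hcont.continuousAt.preimage_mem_nhds (isOpen_interior.mem_nhds ?_)
    simpa using P.big
  obtain ⟨δ, hδ, hball⟩ := Metric.mem_nhds_iff.1 hopen
  have hε : 0 < δ / 2 := by positivity
  have hmem : (∑ i, P.D i) - (δ / 2) • V.cls A ∈ Z.Eff := by
    apply interior_subset
    apply hball
    rw [Metric.mem_ball, Real.dist_eq, sub_zero, abs_of_pos hε]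
    linarith
  set ε := δ / 2 with hεd
  set T := (P.act g).ns with hT
  have heff : ∀ n : ℕ, (T ^ n) ((∑ i, P.D i) - ε • V.cls A) ∈ Z.Eff := by
    intro n
    induction n with
    | zero => simpa using hmem
    | succ n ih =>
      rw [pow_succ', Module.End.mul_apply]
      exact P.eff_map g _ ih
  have hTn : ∀ (n : ℕ) (i : ι), (T ^ n) (P.D i) = Real.exp (P.χ i g) ^ n • P.D i := by
    intro n i
    induction n with
    | zero => simp
    | succ n ih =>
      rw [pow_succ', Module.End.mul_apply, ih, map_smul, hT, P.eigen, smul_smul, pow_succ]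
  have hr1 := one_le_rate P Finset.univ g
  have hbound : ∀ n : ℕ, V.deg (V.cls A) ((T ^ n) (V.cls A))
      ≤ ((1 + ∑ i, |V.deg (V.cls A) (P.D i)|) / ε) * rate P Finset.univ g ^ n := by
    intro n
    have h1 := P.deg_eff A hA _ (heff n)
    rw [map_sub, map_sub, map_smul, map_smul, map_sum, map_sum, smul_eq_mul] at h1
    have h2 : ∑ i, V.deg (V.cls A) ((T ^ n) (P.D i))
        ≤ (∑ i, |V.deg (V.cls A) (P.D i)|) * rate P Finset.univ g ^ n := by
      rw [Finset.sum_mul]
      refine Finset.sum_le_sum fun i _ => ?_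
      rw [hTn, map_smul, smul_eq_mul, mul_comm]
      have h3 : Real.exp (P.χ i g) ^ n ≤ rate P Finset.univ g ^ n :=
        pow_le_pow_left₀ (Real.exp_pos _).le (le_rate P _ g (Finset.mem_univ i)) n
      have h4 : 0 ≤ Real.exp (P.χ i g) ^ n := by positivity
      calc V.deg (V.cls A) (P.D i) * Real.exp (P.χ i g) ^ n
          ≤ |V.deg (V.cls A) (P.D i)| * Real.exp (P.χ i g) ^ n :=
            mul_le_mul_of_nonneg_right (le_abs_self _) h4
        _ ≤ |V.deg (V.cls A) (P.D i)| * rate P Finset.univ g ^ n :=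
            mul_le_mul_of_nonneg_left h3 (abs_nonneg _)
    have h5 : 0 ≤ rate P Finset.univ g ^ n := by positivity
    rw [div_mul_eq_mul_div, le_div_iff₀ hε]
    linarith
  have hnef : ∀ n : ℕ, 0 ≤ V.deg (V.cls A) ((T ^ n) (V.cls A)) := by
    intro n
    have h1 : (T ^ n) (V.cls A) ∈ V.Nef := pow_mem (P.act g).nef n (interior_subset hA)
    exact P.deg_eff A hA _ (Z.nef_subset h1)
  refine le_of_tendsto_of_tendsto hd (root_lim
    (c := (1 + ∑ i, |V.deg (V.cls A) (P.D i)|) / ε) (by positivity) (by linarith))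
    (Eventually.of_forall fun n => Real.rpow_le_rpow (hnef n) (hbound n) (by positivity))

/-- **The conjecture of Kawaguchi and Silverman** for balanced actions. -/
theorem conjecture (hV : NumberField V) (P : AbelianAction V Z Γ ι) (hP : Exposed P)
    (hB : Balanced P) {A : V.Pic} (hA : V.IsAmple A) {u : V.Pt → ℝ} (hu : V.IsHeight A u)
    (g : Γ) {x : V.Pt} (hx : x ∉ P.Null) (hinf : InfiniteOrbit (P.act g) x) {d : ℝ}
    (hd : IsDynamicalDegree (P.act g) A d) : IsArithmeticDegree (P.act g) u x d := by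
  obtain ⟨S, hS⟩ := spectrum hV P hP hA hu hx
  have hΓ : InfiniteGroupOrbit P x := by
    intro hfin
    refine hinf (Set.Finite.subset hfin ?_)
    rintro _ ⟨n, rfl⟩
    exact ⟨n • g, by simp only [act_iterate]⟩
  have hne := hS.nonempty_iff.2 hΓ
  have huniv : S = Finset.univ := by
    by_contra h
    obtain ⟨g', hg'⟩ := hB S hne h
    obtain ⟨i, hi, hi0⟩ := hS.balanced hne g'
    have := hg' i hi
    linarith
  subst huniv
  have ha := degree_of_spectrum P hS g
  obtain ⟨z, hz, -⟩ := eigenclass hV (P.act g) V.nef_cone subset_rfl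
    (lowerBounded_nef (P.act g) x) hinf hA hu ha
  have h1 := eigen_le (P.act g) V.nef_cone subset_rfl hA hd
    (le_trans zero_le_one (one_le_rate P _ g)) hz
  have h2 := dynamical_le P hA g hd
  rwa [← le_antisymm h2 h1] at ha

/-- A dense orbit is infinite and outside of `Null`. -/
lemma of_dense (P : AbelianAction V Z Γ ι) (g : Γ) {x : V.Pt}
    (hx : DenseOrbit Z (P.act g) x) : x ∉ P.Null ∧ InfiniteOrbit (P.act g) x := by
  letI := Z.top
  haveI := Z.t1
  haveI := Z.infinite
  have key : ∀ W : Set V.Pt, IsClosed W → W ≠ Set.univ →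
      (Set.range fun n : ℕ => (P.act g).pt^[n] x) ⊆ W → False := by
    intro W h1 h2 h3
    apply h2
    rw [← Set.univ_subset_iff, ← hx.closure_eq]
    exact closure_minimal h3 h1
  constructor
  · intro hmem
    refine key P.Null P.null_closed P.null_ne ?_
    rintro _ ⟨n, rfl⟩
    simp only [act_iterate]
    exact P.null_inv _ _ hmem
  · intro hfin
    refine key _ hfin.isClosed ?_ subset_rfl
    intro h
    rw [h] at hfin
    exact Set.infinite_univ hfin

/-- Finitely many points of bounded degree outside of `Null` have a finite orbit. -/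
theorem finite_orbits (hV : NumberField V) (P : AbelianAction V Z Γ ι) (hP : Exposed P)
    {A : V.Pic} (hA : V.IsAmple A) {u : V.Pt → ℝ} (hu : V.IsHeight A u) (e : ℕ) :
    {x : V.Pt | x ∉ P.Null ∧ (MulAction.orbit G x).ncard ≤ e ∧
      ¬ InfiniteGroupOrbit P x}.Finite := by
  obtain ⟨k, C, hC, hk⟩ := canonical P hP hA hu
  refine (hV.northcott A u hA hu e C).subset ?_
  rintro x ⟨hx, he, hfin⟩
  refine ⟨he, ?_⟩
  have hzero : ∀ i, k i x = 0 := by
    intro i
    by_contra hne
    apply hfin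
    intro hfin'
    obtain ⟨g, hg, -⟩ := hP i
    have hinj : Function.Injective fun n : ℕ => (P.act (n • g)).pt x := by
      intro m n hmn
      have h1 : Real.exp (P.χ i (m • g)) * k i x = Real.exp (P.χ i (n • g)) * k i x := by
        rw [← (hk x hx).1, ← (hk x hx).1]
        exact congrArg (k i) hmn
      have h2 := mul_right_cancel₀ hne h1
      rw [Real.exp_eq_exp, map_nsmul, map_nsmul, nsmul_eq_mul, nsmul_eq_mul] at h2
      have h3 := mul_right_cancel₀ hg.ne' h2
      exact_mod_cast h3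
    refine Set.infinite_range_of_injective hinj (Set.Finite.subset hfin' ?_)
    rintro _ ⟨n, rfl⟩
    exact ⟨n • g, rfl⟩
  have h1 := (hk x hx).2.2
  simp only [hzero, abs_zero, Finset.sum_const_zero, add_zero, mul_one] at h1
  exact (le_max_right _ _).trans h1

end Pool.Agent.U935.KS
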