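import Mathlib
import Pool.Agent.U935.KS.GroupDefs

set_option autoImplicit false

namespace Pool.Agent.U935.KS

open Pool.Agent.Q8.KS

/-- Linearly independent characters of an abelian group are simultaneously negative at some
element. -/
lemma exists_negative {Γ κ : Type} [AddCommGroup Γ] [Fintype κ] (ψ : κ → Γ →+ ℝ)
    (h : LinearIndependent ℝ fun j => (ψ j : Γ → ℝ)) : ∃ g : Γ, ∀ j, ψ j g < 0 := by
  classical
  -- the values span
  have hspan : Submodule.span ℝ (Set.range fun (g : Γ) (j : κ) => ψ j g) = ⊤ := by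
    by_contra hne
    obtain ⟨f, hf, hle⟩ := Submodule.exists_le_ker_of_lt_top _ (lt_top_iff_ne_top.2 hne)
    apply hf
    have hz : ∀ g : Γ, ∑ j, ψ j g * f (fun i => if j = i then 1 else 0) = 0 := by
      intro g
      have h1 : f (fun j => ψ j g) = 0 := hle (Submodule.subset_span ⟨g, rfl⟩)
      rw [LinearMap.pi_apply_eq_sum_univ f] at h1
      simpa [smul_eq_mul] using h1
    rw [Fintype.linearIndependent_iff] at h
    have hc := h (fun j => f (fun i => if j = i then 1 else 0)) (by
      ext g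
      rw [Finset.sum_apply, Pi.zero_apply]
      refine (Finset.sum_congr rfl fun j _ => ?_).trans (hz g)
      rw [Pi.smul_apply, smul_eq_mul, mul_comm])
    ext v
    rw [LinearMap.comp_apply, LinearMap.pi_apply_eq_sum_univ f]
    simp only [hc, smul_zero, Finset.sum_const_zero]
    simp
  have hmem : (fun _ : κ => (-1 : ℝ)) ∈
      Submodule.span ℝ (Set.range fun (g : Γ) (j : κ) => ψ j g) := by
    rw [hspan]
    exact Submodule.mem_top
  rw [Finsupp.mem_span_range_iff_exists_finsupp] at hmem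
  obtain ⟨c, hc⟩ := hmem
  obtain ⟨N, hN⟩ := exists_nat_gt (∑ j, ∑ t ∈ c.support, |ψ j t|)
  refine ⟨∑ t ∈ c.support, ⌊(N : ℝ) * c t⌋ • t, fun j => ?_⟩
  have h1 : ∑ t ∈ c.support, c t * ψ j t = -1 := by
    have h2 := congrFun hc j
    rw [Finsupp.sum, Finset.sum_apply] at h2
    simpa [smul_eq_mul] using h2
  have h2 : ψ j (∑ t ∈ c.support, ⌊(N : ℝ) * c t⌋ • t)
      ≤ ∑ t ∈ c.support, ((N : ℝ) * c t * ψ j t + |ψ j t|) := by
    rw [map_sum]
    refine Finset.sum_le_sum fun t _ => ?_
    rw [map_zsmul, zsmul_eq_mul]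
    have h3 : ((⌊(N : ℝ) * c t⌋ : ℤ) : ℝ) * ψ j t
        = (N : ℝ) * c t * ψ j t - Int.fract ((N : ℝ) * c t) * ψ j t := by
      rw [← sub_mul, Int.self_sub_fract]
    rw [h3]
    have h4 : |Int.fract ((N : ℝ) * c t) * ψ j t| ≤ |ψ j t| := by
      rw [abs_mul, abs_of_nonneg (Int.fract_nonneg _)]
      exact mul_le_of_le_one_left (abs_nonneg _) (Int.fract_lt_one _).le
    have h5 := neg_abs_le (Int.fract ((N : ℝ) * c t) * ψ j t)
    linarith
  have h3 : ∑ t ∈ c.support, ((N : ℝ) * c t * ψ j t + |ψ j t|)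
      = -N + ∑ t ∈ c.support, |ψ j t| := by
    rw [Finset.sum_add_distrib]
    congr 1
    have : ∑ t ∈ c.support, (N : ℝ) * c t * ψ j t = N * ∑ t ∈ c.support, c t * ψ j t := by
      rw [Finset.mul_sum]
      exact Finset.sum_congr rfl fun t _ => by ring
    rw [this, h1]
    ring
  have h4 : ∑ t ∈ c.support, |ψ j t| ≤ ∑ j, ∑ t ∈ c.support, |ψ j t| :=
    Finset.single_le_sum (f := fun j => ∑ t ∈ c.support, |ψ j t|)
      (fun j _ => Finset.sum_nonneg fun t _ => abs_nonneg _) (Finset.mem_univ j)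
  linarith

variable {G : Type} [Group G] {V : Variety G} {Z : Zariski V} {Γ ι : Type} [AddCommGroup Γ]
  [Fintype ι]

/-- Actions of maximal rank are exposed and balanced. -/
theorem exposed_balanced (P : AbelianAction V Z Γ ι) (h : MaximalRank P) :
    Exposed P ∧ Balanced P := by
  classical
  obtain ⟨hcard, hind, c, hc, hrel⟩ := h
  -- an element which is negative at all characters except for `i`
  have key : ∀ i : ι, ∃ g : Γ, 0 < P.χ i g ∧ ∀ j, j ≠ i → P.χ j g < 0 := by
    intro i
    obtain ⟨g, hg⟩ := exists_negative (fun j : {j // j ≠ i} => P.χ j.1) (hind i)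
    have hneg : ∀ j, j ≠ i → P.χ j g < 0 := fun j hj => hg ⟨j, hj⟩
    refine ⟨g, ?_, hneg⟩
    have h1 := hrel g
    rw [← Finset.add_sum_erase _ _ (Finset.mem_univ i)] at h1
    have hne : (Finset.univ.erase i).Nonempty := by
      rw [← Finset.card_pos, Finset.card_erase_of_mem (Finset.mem_univ i), Finset.card_univ]
      omega
    have h2 : ∑ j ∈ Finset.univ.erase i, c j * P.χ j g < 0 := by
      refine Finset.sum_neg (fun j hj => ?_) hne
      exact mul_neg_of_pos_of_neg (hc j) (hneg j (Finset.ne_of_mem_erase hj))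
    have h3 : 0 < c i * P.χ i g := by linarith
    exact (mul_pos_iff_of_pos_left (hc i)).1 h3
  constructor
  · intro i
    obtain ⟨g, hg1, hg2⟩ := key i
    refine ⟨g, hg1, fun j => ?_⟩
    by_cases hj : j = i
    · rw [hj]
      linarith
    · have := hg2 j hj
      linarith
  · intro S _ hS
    obtain ⟨i, hi⟩ : ∃ i, i ∉ S := by
      by_contra hcon
      push Not at hcon
      exact hS (Finset.eq_univ_iff_forall.2 hcon)
    obtain ⟨g, -, hg2⟩ := key i
    exact ⟨g, fun j hj => hg2 j fun h => hi (h ▸ hj)⟩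

end Pool.Agent.U935.KS
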