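import Mathlib
import Pool.Agent.U935.KS.Group2
import Pool.Agent.U935.KS.Rank
import Pool.Agent.U935.KS.DenseDefs

set_option autoImplicit false

namespace Pool.Agent.U935.KS

open Pool.Agent.Q8.KS Filter Topology

variable {G : Type} [Group G] {V : Variety G} {Z : Zariski V} {Γ ι : Type} [AddCommGroup Γ]
  [Fintype ι]

lemma image_act (P : AbelianAction V Z Γ ι) (g h : Γ) (W : Set V.Pt) :
    (P.act g).pt '' ((P.act h).pt '' W) = (P.act (g + h)).pt '' W := by
  rw [Set.image_image]
  exact Set.image_congr fun x _ => (P.act_add g h x).symm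

lemma image_zero (P : AbelianAction V Z Γ ι) (W : Set V.Pt) :
    (P.act 0).pt '' W = W := by
  have : (P.act 0).pt = id := funext P.act_zero
  rw [this, Set.image_id]

/-- **The dimension of the closure of an infinite orbit outside of the null locus.** -/
theorem closure_sum (P : AbelianAction V Z Γ ι) (Q : Subvarieties P)
    {x : V.Pt} (hx : x ∉ P.Null) (hinf : InfiniteGroupOrbit P x) : ClosureSum P Q x := by
  letI := Z.top
  haveI := Q.noetherian
  set O : Set V.Pt := Set.range fun g : Γ => (P.act g).pt x with hO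
  set C : Set V.Pt := closure O with hC
  have hcont : ∀ g, Continuous (P.act g).pt := Q.continuous
  have hCsub : ∀ g, (P.act g).pt '' C ⊆ C := by
    intro g
    refine (image_closure_subset_closure_image (hcont g)).trans (closure_mono ?_)
    rintro _ ⟨_, ⟨h, rfl⟩, rfl⟩
    exact ⟨g + h, P.act_add g h x⟩
  obtain ⟨S, hSfin, hScl, hSirr, hSU⟩ :=
    TopologicalSpace.NoetherianSpace.exists_finite_set_isClosed_irreducible
      (isClosed_closure : IsClosed C)
  rw [← hC] at hSU
  -- an irreducible closed subset in the closed set is contained in a member of `S`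
  have hin : ∀ T : Set V.Pt, IsIrreducible T → T ⊆ C → ∃ t ∈ S, T ⊆ t := by
    intro T hT hTC
    rw [isIrreducible_iff_sUnion_isClosed] at hT
    obtain ⟨t, ht, hTt⟩ := hT hSfin.toFinset
      (fun t ht => hScl t (hSfin.mem_toFinset.1 ht)) (by rw [hSfin.coe_toFinset, ← hSU]; exact hTC)
    exact ⟨t, hSfin.mem_toFinset.1 ht, hTt⟩
  -- the maximal irreducible subsets
  let M : Set (Set V.Pt) := {T | IsIrreducible T ∧ T ⊆ C ∧
    ∀ T', IsIrreducible T' → T' ⊆ C → T ⊆ T' → T' ⊆ T}
  have hMS : M ⊆ S := by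
    rintro T ⟨h1, h2, h3⟩
    obtain ⟨t, ht, hTt⟩ := hin T h1 h2
    have htC : t ⊆ C := by
      rw [hSU]
      exact Set.subset_sUnion_of_mem ht
    have := h3 t (hSirr t ht) htC hTt
    rwa [Set.Subset.antisymm hTt this]
  have hMfin : M.Finite := hSfin.subset hMS
  have hMact : ∀ (g : Γ) (T : Set V.Pt), T ∈ M → (P.act g).pt '' T ∈ M := by
    rintro g T ⟨h1, h2, h3⟩
    refine ⟨h1.image _ (hcont g).continuousOn, (Set.image_mono h2).trans (hCsub g), ?_⟩
    intro T' hT' hT'C hsub
    have h4 : T ⊆ (P.act (-g)).pt '' T' := by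
      have := Set.image_mono (f := (P.act (-g)).pt) hsub
      rwa [image_act, neg_add_cancel, image_zero] at this
    have h5 := h3 _ (hT'.image _ (hcont (-g)).continuousOn)
      ((Set.image_mono hT'C).trans (hCsub (-g))) h4
    have h6 := Set.image_mono (f := (P.act g).pt) h5
    rwa [image_act, add_neg_cancel, image_zero] at h6
  -- a maximal irreducible subset with infinitely many points of the orbit
  obtain ⟨W, hWM, hWinf⟩ : ∃ W ∈ M, (W ∩ O).Infinite := by
    have hcov : O ⊆ ⋃ t ∈ S, t ∩ O := by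
      intro y hy
      have : y ∈ C := subset_closure hy
      rw [hSU] at this
      obtain ⟨t, ht, hyt⟩ := this
      exact Set.mem_biUnion ht ⟨hyt, hy⟩
    obtain ⟨t, ht, htinf⟩ : ∃ t ∈ S, (t ∩ O).Infinite := by
      by_contra hcon
      push Not at hcon
      exact hinf ((hSfin.biUnion fun t ht => hcon t ht).subset hcov)
    obtain ⟨t', htt', ht'⟩ := hSfin.exists_le_maximal ht
    refine ⟨t', ⟨hSirr t' ht'.1, ?_, ?_⟩, htinf.mono (Set.inter_subset_inter_left _ htt')⟩
    · rw [hSU]
      exact Set.subset_sUnion_of_mem ht'.1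
    · intro T' hT' hT'C hsub
      obtain ⟨t'', ht'', hTt⟩ := hin T' hT' hT'C
      exact hTt.trans (ht'.2 ht'' (hsub.trans hTt))
  have hWcl : IsClosed W := hScl W (hMS hWM)
  have hWirr : IsIrreducible W := hWM.1
  have hWnull : ¬ W ⊆ P.Null := by
    intro h
    obtain ⟨y, hyW, ⟨g, rfl⟩⟩ := hWinf.nonempty
    exact act_notMem P hx g (h hyW)
  have htfin : (Set.range fun g : Γ => (P.act g).pt '' W).Finite := by
    refine hMfin.subset ?_
    rintro _ ⟨g, rfl⟩
    exact hMact g W hWM
  -- the closure is the union of the translates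
  have hunion : C = ⋃ g : Γ, (P.act g).pt '' W := by
    apply Set.Subset.antisymm
    · have hcl : IsClosed (⋃ g : Γ, (P.act g).pt '' W) := by
        have h1 : (⋃ g : Γ, (P.act g).pt '' W)
            = ⋃ T ∈ Set.range (fun g : Γ => (P.act g).pt '' W), T := by
          rw [Set.biUnion_range]
        rw [h1]
        refine htfin.isClosed_biUnion ?_
        rintro _ ⟨g, rfl⟩
        exact hScl _ (hMS (hMact g W hWM))
      refine closure_minimal ?_ hcl
      rintro _ ⟨h, rfl⟩
      obtain ⟨y, hyW, ⟨g, rfl⟩⟩ := hWinf.nonempty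
      refine Set.mem_iUnion.2 ⟨h - g, _, hyW, ?_⟩
      show (P.act (h - g)).pt ((P.act g).pt x) = (P.act h).pt x
      rw [← P.act_add, sub_add_cancel]
    · exact Set.iUnion_subset fun g => (hMact g W hWM).2.1
  -- each group element has a multiple which preserves `W`
  have hper : ∀ g : Γ, ∃ N : ℕ, 0 < N ∧ (P.act (N • g)).pt '' W = W := by
    intro g
    obtain ⟨m, n, hmn, heq⟩ : ∃ m n : ℕ, m < n ∧
        (P.act (m • g)).pt '' W = (P.act (n • g)).pt '' W := by
      have hninj : ¬ Function.Injective fun n : ℕ => (P.act (n • g)).pt '' W := by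
        intro hinj
        refine Set.infinite_range_of_injective hinj (hMfin.subset ?_)
        rintro _ ⟨n, rfl⟩
        exact hMact _ _ hWM
      rw [Function.Injective] at hninj
      push Not at hninj
      obtain ⟨m, n, h1, h2⟩ := hninj
      rcases lt_or_gt_of_ne h2 with h | h
      · exact ⟨m, n, h, h1⟩
      · exact ⟨n, m, h, h1.symm⟩
    refine ⟨n - m, by omega, ?_⟩
    have h1 := congrArg (fun T => (P.act (-(m • g))).pt '' T) heq
    simp only [image_act] at h1
    rw [neg_add_cancel, image_zero] at h1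
    have h2 : -(m • g) + n • g = (n - m) • g := by
      have h3 : n • g = m • g + (n - m) • g := by
        rw [← add_smul]
        congr 1
        omega
      rw [h3, neg_add_cancel_left]
    rw [h2] at h1
    exact h1.symm
  -- expand the degree
  have hpos := Q.int_pos W hWcl hWirr hWnull
  obtain ⟨φ, hφ⟩ : ∃ φ : Fin (Q.dim W) → ι, Q.int W (fun j => P.D (φ j)) ≠ 0 := by
    by_contra hcon
    push Not at hcon
    have h1 : Q.int W (fun _ => ∑ i, P.D i) = ∑ φ : Fin (Q.dim W) → ι,
        Q.int W (fun j => P.D (φ j)) := MultilinearMap.map_sum (Q.int W) (fun _ i => P.D i)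
    rw [h1, Finset.sum_eq_zero fun φ _ => hcon φ] at hpos
    exact lt_irrefl _ hpos
  refine ⟨W, hWcl, hWirr, hWinf.mono Set.inter_subset_left, hunion, htfin, φ, fun g => ?_⟩
  obtain ⟨N, hN, hNW⟩ := hper g
  have h1 := Q.int_map W hWcl hWirr (N • g) hNW (fun j => P.D (φ j))
  simp only [P.eigen] at h1
  rw [MultilinearMap.map_smul_univ, smul_eq_mul] at h1
  have h2 : ∏ j, Real.exp (P.χ (φ j) (N • g)) = 1 := by
    have h3 : (∏ j, Real.exp (P.χ (φ j) (N • g))) * Q.int W (fun j => P.D (φ j))
        = 1 * Q.int W (fun j => P.D (φ j)) := by rw [one_mul]; exact h1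
    exact mul_right_cancel₀ hφ h3
  rw [← Real.exp_sum, Real.exp_eq_one_iff] at h2
  have h3 : ∑ j, P.χ (φ j) (N • g) = N * ∑ j, P.χ (φ j) g := by
    rw [Finset.mul_sum]
    refine Finset.sum_congr rfl fun j _ => ?_
    rw [map_nsmul, nsmul_eq_mul]
  rw [h3] at h2
  rcases mul_eq_zero.1 h2 with h | h
  · exfalso
    have : (N : ℝ) ≠ 0 := by exact_mod_cast hN.ne'
    exact this h
  · exact h

/-- **Infinite orbits outside of the null locus are dense.** -/
theorem dense_orbit (P : AbelianAction V Z Γ ι) (Q : Subvarieties P) (hR : NoShortRelation P)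
    {x : V.Pt} (hx : x ∉ P.Null) (hinf : InfiniteGroupOrbit P x) : DenseGroupOrbit P x := by
  letI := Z.top
  obtain ⟨W, hWcl, hWirr, hWinf, hU, -, φ, hφ⟩ := closure_sum P Q hx hinf
  have hWuniv : W = Set.univ := by
    by_contra hne
    obtain ⟨g, hg⟩ := hR (Q.dim W) (Q.dim_pos W hWcl hWirr hWinf) (Q.dim_lt W hWcl hWirr hne) φ
    exact hg (hφ g)
  refine dense_iff_closure_eq.2 ?_
  rw [hU, Set.eq_univ_iff_forall]
  intro y
  refine Set.mem_iUnion.2 ⟨0, ?_⟩
  rw [image_zero, hWuniv]
  exact Set.mem_univ y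

/-- All but finitely many points of bounded degree outside of the null locus have a dense
orbit. -/
theorem finite_nondense (hV : NumberField V) (P : AbelianAction V Z Γ ι) (Q : Subvarieties P)
    (hP : Exposed P) (hR : NoShortRelation P) {A : V.Pic} (hA : V.IsAmple A) {u : V.Pt → ℝ}
    (hu : V.IsHeight A u) (e : ℕ) :
    {x : V.Pt | x ∉ P.Null ∧ (MulAction.orbit G x).ncard ≤ e ∧
      ¬ DenseGroupOrbit P x}.Finite := by
  refine (finite_orbits hV P hP hA hu e).subset ?_
  rintro x ⟨h1, h2, h3⟩
  exact ⟨h1, h2, fun h => h3 (dense_orbit P Q hR h1 h)⟩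

/-- **Potential density.** -/
theorem potentially_dense (hV : NumberField V) (P : AbelianAction V Z Γ ι)
    (Q : Subvarieties P) (hP : Exposed P) (hR : NoShortRelation P) {A : V.Pic}
    (hA : V.IsAmple A) {u : V.Pt → ℝ} (hu : V.IsHeight A u) : PotentiallyDense Z := by
  obtain ⟨e, he⟩ := Q.many
  obtain ⟨x, ⟨hx1, hx2⟩, hx3⟩ := (he.sdiff (finite_nondense hV P Q hP hR hA hu e)).nonempty
  have hd : DenseGroupOrbit P x := by
    by_contra h
    exact hx3 ⟨hx1, hx2, h⟩
  refine ⟨MulAction.stabilizer G x, ?_, ?_⟩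
  · haveI : Finite (MulAction.orbit G x) := hV.orbit_finite x
    haveI : Finite (G ⧸ MulAction.stabilizer G x) :=
      Finite.of_equiv _ (MulAction.orbitEquivQuotientStabilizer G x)
    exact Subgroup.finiteIndex_of_finite_quotient
  · letI := Z.top
    refine Dense.mono ?_ hd
    rintro _ ⟨γ, rfl⟩ g hg
    rw [MulAction.mem_stabilizer_iff] at hg
    show g • (P.act γ).pt x = (P.act γ).pt x
    rw [← (P.act γ).pt_smul, hg]

/-- Groups of maximal rank have no short relations. -/
theorem noShortRelation (P : AbelianAction V Z Γ ι) (h : MaximalRank P)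
    (hdim : V.dimPred + 1 ≤ Fintype.card ι) : NoShortRelation P := by
  classical
  intro m hm hmd φ
  obtain ⟨-, hB⟩ := exposed_balanced P h
  have hne : (Finset.univ.image φ).Nonempty := ⟨φ ⟨0, by omega⟩, by simp⟩
  have huniv : Finset.univ.image φ ≠ Finset.univ := by
    intro h1
    have h2 : Fintype.card ι ≤ m := by
      rw [← Finset.card_univ, ← h1]
      exact Finset.card_image_le.trans (by simp)
    omega
  obtain ⟨g, hg⟩ := hB _ hne huniv
  refine ⟨g, ?_⟩
  have : ∑ j, P.χ (φ j) g < 0 := by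
    refine Finset.sum_neg (fun j _ => hg _ (Finset.mem_image_of_mem _ (Finset.mem_univ j))) ?_
    exact ⟨⟨0, by omega⟩, Finset.mem_univ _⟩
  exact this.ne

end Pool.Agent.U935.KS
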