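import Mathlib
import Pool.Agent.Q8.KS.Growth2

set_option autoImplicit false

namespace Pool.Agent.U935.KS

open Pool.Agent.Q8.KS Filter Topology TensorProduct

variable {E : Type} [NormedAddCommGroup E] [NormedSpace ℝ E] [FiniteDimensional ℝ E]

/-- The growth rate of the degrees bounds all complex eigenvalues. -/
lemma eigenvalue_le {C : Set E} (hC : IsCone C) (l : E →ₗ[ℝ] ℝ)
    (hl : ∀ x ∈ C, x ≠ 0 → 0 < l x) {A : E} (hA : A ∈ interior C) (F : E →ₗ[ℝ] E)
    (hF : ∀ x ∈ C, F x ∈ C) {d : ℝ} (hd : 0 < d)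
    (hlim : Tendsto (fun k : ℕ => (l ((F ^ k) A)) ^ (1 / (k : ℝ))) atTop (𝓝 d)) {μ : ℂ}
    (hμ : Module.End.HasEigenvalue (F.baseChange ℂ) μ) : ‖μ‖ ≤ d := by
  obtain ⟨v, hv⟩ := Module.End.HasEigenvalue.exists_hasEigenvector hμ
  have hv1 : v ≠ 0 := hv.2
  have hv2 : F.baseChange ℂ v = μ • v := hv.apply_eq_smul
  obtain ⟨K, hK, hdom⟩ := dominated hC l hl hA F hF
  obtain ⟨φ, hφ⟩ : ∃ φ : (ℂ ⊗[ℝ] E) →ₗ[ℂ] ℂ, φ v ≠ 0 := by
    by_contra hcon
    push Not at hcon
    exact hv1 ((Module.forall_dual_apply_eq_zero_iff ℂ v).1 hcon)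
  obtain ⟨D, hD, hDb⟩ := dominated_cplx F (fun k => l ((F ^ k) A)) K hK hdom φ v
  have hpos := deg_pos l hl (interior_subset hA) F hF hd hlim
  have hpow : ∀ k : ℕ, ((F.baseChange ℂ) ^ k) v = μ ^ k • v := by
    intro k
    induction k with
    | zero => simp
    | succ k ih =>
      rw [pow_succ', Module.End.mul_apply, ih, map_smul, hv2, smul_smul, pow_succ]
  by_contra hlt
  have hlt : d < ‖μ‖ := not_le.1 hlt
  have hφ0 : 0 < ‖φ v‖ := norm_pos_iff.2 hφ
  refine no_gt (c := ‖φ v‖ / (D + 1)) hd hlt (by positivity) (fun k => (hpos k).le) hlim 0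
    fun k _ => ?_
  have h1 := hDb k
  rw [hpow, map_smul, norm_smul, norm_pow] at h1
  rw [div_mul_eq_mul_div, div_le_iff₀ (by positivity)]
  have h2 := hpos k
  nlinarith

/-- Integral maps with bounded complex eigenvalues have finitely many real eigenvalues. -/
lemma finite_eigenvalues {ρ : ℕ} (b : Module.Basis (Fin ρ) ℝ E) (B : ℝ) :
    ∃ S : Set ℝ, S.Finite ∧ ∀ F : E →ₗ[ℝ] E, (∀ i j, ∃ m : ℤ, b.repr (F (b j)) i = m) →
      (∀ μ : ℂ, Module.End.HasEigenvalue (F.baseChange ℂ) μ → ‖μ‖ ≤ B) →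
      ∀ d : ℝ, Module.End.HasEigenvalue F d → d ∈ S := by
  classical
  obtain ⟨R, hR⟩ : ∃ R : ℝ, R = max B 1 ^ ρ * (ρ.choose (ρ / 2) : ℕ) := ⟨_, rfl⟩
  have hU : {m : ℤ | ‖(m : ℂ)‖ ≤ R}.Finite := by
    refine (Set.finite_Icc (-⌈R⌉) ⌈R⌉).subset fun m hm => ?_
    have h1 : |(m : ℝ)| ≤ R := by
      have : ‖(m : ℂ)‖ ≤ R := hm
      rwa [Complex.norm_intCast] at this
    have h2 := abs_le.1 h1
    have h3 := Int.le_ceil R
    constructor
    · have : (-⌈R⌉ : ℝ) ≤ m := by linarith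
      exact_mod_cast this
    · have : (m : ℝ) ≤ ⌈R⌉ := by linarith
      exact_mod_cast this
  refine ⟨_, Polynomial.bUnion_roots_finite (Int.castRingHom ℝ) ρ hU, fun F hF hμ d hd => ?_⟩
  choose m hm using hF
  let M : Matrix (Fin ρ) (Fin ρ) ℤ := Matrix.of fun i j => m i j
  have hM : LinearMap.toMatrix b b F = M.map (Int.castRingHom ℝ) := by
    ext i j
    rw [LinearMap.toMatrix_apply, hm]
    rfl
  have hchar : F.charpoly = M.charpoly.map (Int.castRingHom ℝ) := by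
    rw [← F.charpoly_toMatrix b, hM, Matrix.charpoly_map]
  have hcharC : (F.baseChange ℂ).charpoly = M.charpoly.map (Int.castRingHom ℂ) := by
    rw [LinearMap.charpoly_baseChange, hchar, Polynomial.map_map]
    congr 1
  have hdeg : M.charpoly.natDegree = ρ := by
    rw [Matrix.charpoly_natDegree_eq_dim, Fintype.card_fin]
  have hcoef : ∀ i, ‖(M.charpoly.map (Int.castRingHom ℂ)).coeff i‖ ≤ R := by
    intro i
    have h1 := Polynomial.coeff_bdd_of_roots_le (B := B) (d := ρ) (RingHom.id ℂ)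
      (p := M.charpoly.map (Int.castRingHom ℂ)) ((Matrix.charpoly_monic M).map _)
      (IsAlgClosed.splits _) (by
        rw [(Matrix.charpoly_monic M).natDegree_map, hdeg]) (by
        intro z hz
        rw [Polynomial.map_id] at hz
        apply hμ
        rw [Module.End.hasEigenvalue_iff_isRoot_charpoly, hcharC]
        exact Polynomial.isRoot_of_mem_roots hz) i
    rw [Polynomial.map_id] at h1
    rw [hR]
    exact h1
  refine Set.mem_biUnion (x := M.charpoly) ⟨hdeg.le, fun i => ?_⟩ ?_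
  · have := hcoef i
    rw [Polynomial.coeff_map] at this
    exact this
  · rw [Finset.mem_coe, Multiset.mem_toFinset, ← hchar, Polynomial.mem_roots']
    exact ⟨(LinearMap.charpoly_monic F).ne_zero,
      (Module.End.hasEigenvalue_iff_isRoot_charpoly F d).1 hd⟩

end Pool.Agent.U935.KS
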