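import Mathlib
import Pool.Agent.U935.KS.Defs

set_option autoImplicit false

namespace Pool.Agent.U935.KS

open Pool.Agent.Q8.KS Filter Topology

/-- A symmetric multilinear form which is nonnegative on the cone `C` and has the Hodge index
property. -/
structure Good {E : Type} [NormedAddCommGroup E] [NormedSpace ℝ E] (C : Set E) {m : ℕ}
    (J : MultilinearMap ℝ (fun _ : Fin m => E) ℝ) : Prop where
  symm : ∀ (σ : Equiv.Perm (Fin m)) (x : Fin m → E), J (fun i => x (σ i)) = J x
  nonneg : ∀ x : Fin m → E, (∀ i, x i ∈ C) → 0 ≤ J x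
  hodge : ∀ x : Fin m → E, (∀ i, x i ∈ C) → ∀ i j : Fin m, i ≠ j → ∀ A ∈ C, ∀ y : E,
    J (Function.update (Function.update x i y) j y) *
      J (Function.update (Function.update x i A) j A) ≤
        J (Function.update (Function.update x i y) j A) ^ 2

/-- Known facts on divisor classes on the projective variety `V`: the intersection numbers of nef
classes and the Hodge index theorem, the Néron-Severi lattice, the degree of effective classes,
nef classes with positive top self-intersection are big, and augmented base loci. -/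
structure Geometry {G : Type} [Group G] (V : Variety G) (Z : Zariski V) where
  /-- the intersection form is symmetric and nonnegative on nef classes; for nef `E_3, …, E_m, A`
  the form `q(x, y) = x ⋅ y ⋅ E_3 ⋯ E_m` has `q(y, y) q(A, A) ≤ q(y, A)²` -/
  good : Good V.Nef V.int
  /-- a nef class with positive top self-intersection is big -/
  big : ∀ D ∈ V.Nef, 0 < V.int (fun _ => D) → D ∈ interior Z.Eff
  /-- pseudo-effective classes have nonnegative degree -/
  deg_eff : ∀ A : V.Pic, V.IsAmple A → ∀ E ∈ Z.Eff, 0 ≤ V.deg (V.cls A) E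
  /-- the Picard number -/
  rk : ℕ
  /-- a basis of the lattice of classes of line bundles in `N¹(V) ⊗ ℝ` -/
  lattice : Module.Basis (Fin rk) ℝ V.NS
  /-- the augmented base locus: the intersection of the supports of all effective `F` with
  `D ≡ H + F`, `H` ample -/
  base : V.NS → Set V.Pt
  base_closed : ∀ D, IsClosed[Z.top] (base D)
  base_ne : ∀ D ∈ interior Z.Eff, base D ≠ Set.univ
  base_add : ∀ D : V.NS, ∀ E ∈ V.Nef, base (D + E) ⊆ base D
  base_smul : ∀ (t : ℝ) (D : V.NS), 0 < t → base (t • D) = base D
  /-- heights of a big class dominate ample heights off the augmented base locus -/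
  base_height : ∀ (E A : V.Pic) (u v : V.Pt → ℝ), V.cls E ∈ interior Z.Eff → V.IsAmple A →
    V.IsHeight E u → V.IsHeight A v →
      ∃ ε c : ℝ, 0 < ε ∧ ∀ x, x ∉ base (V.cls E) → ε * v x - c ≤ u x

/-- The abelian group `Γ` acts on `V` by automorphisms over the ground field; the action on points
and on divisor classes, and its known properties. -/
structure GroupAction {G : Type} [Group G] {V : Variety G} {Z : Zariski V} (Q : Geometry V Z)
    (Γ : Type) [AddCommGroup Γ] where
  /-- the automorphisms -/
  act : Γ → Morphism V V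
  act_zero : ∀ x, (act 0).pt x = x
  act_add : ∀ g h x, (act (g + h)).pt x = (act g).pt ((act h).pt x)
  ns_zero : ∀ D, (act 0).ns D = D
  ns_add : ∀ g h D, (act (g + h)).ns D = (act g).ns ((act h).ns D)
  /-- automorphisms preserve intersection numbers -/
  int_ns : ∀ g (E : Fin (V.dimPred + 1) → V.NS), V.int (fun i => (act g).ns (E i)) = V.int E
  /-- automorphisms preserve the pseudo-effective cone -/
  eff_ns : ∀ g, ∀ E ∈ Z.Eff, (act g).ns E ∈ Z.Eff
  /-- automorphisms preserve the Néron-Severi lattice -/
  lattice_ns : ∀ g i j, ∃ m : ℤ, Q.lattice.repr ((act g).ns (Q.lattice j)) i = m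
  /-- the augmented base locus of the pullback is the preimage -/
  base_ns : ∀ g D, Q.base ((act g).ns D) = (act g).pt ⁻¹' Q.base D

variable {G : Type} [Group G] {V : Variety G} {Z : Zariski V} {Q : Geometry V Z} {Γ : Type}
  [AddCommGroup Γ]

/-- The group contains the image of a free abelian group of rank `dim V - 1` all of whose nonzero
elements have first dynamical degree larger than one (positive entropy). -/
def MaximalEntropyRank (P : GroupAction Q Γ) : Prop :=
  ∃ (A : V.Pic) (w : (Fin V.dimPred → ℤ) →+ Γ), V.IsAmple A ∧ ∀ a : Fin V.dimPred → ℤ, a ≠ 0 →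
    ∃ d : ℝ, 1 < d ∧ IsDynamicalDegree (P.act (w a)) A d

/-- The characters `χ_i` of nef classes `c_1, …, c_m`, `m = dim V`, with `g^* c_i = e^{χ_i(g)} c_i`
and `c_1 ⋯ c_m > 0`; their sum is zero, and any `m - 1` of them are linearly independent. -/
structure NefCharacters (P : GroupAction Q Γ) (χ : Fin (V.dimPred + 1) → Γ →+ ℝ) : Prop where
  classes : ∃ c : Fin (V.dimPred + 1) → V.NS, (∀ i, c i ∈ V.Nef) ∧
    (∀ i g, (P.act g).ns (c i) = Real.exp (χ i g) • c i) ∧ 0 < V.int c
  sum_zero : ∀ g, ∑ i, χ i g = 0
  independent : ∀ i, LinearIndependent ℝ fun j : {j // j ≠ i} => (χ j.1 : Γ → ℝ)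

/-- The number `max_i e^{χ_i(g)}` (or `1` if it is larger). -/
noncomputable def topRate {m : ℕ} (χ : Fin m → Γ →+ ℝ) (g : Γ) : ℝ :=
  Finset.univ.fold max 1 fun i => Real.exp (χ i g)

/-- `B` is a proper closed subset which is invariant under the group. -/
structure Exceptional (P : GroupAction Q Γ) (B : Set V.Pt) : Prop where
  closed : IsClosed[Z.top] B
  ne_univ : B ≠ Set.univ
  invariant : ∀ g x, x ∈ B → (P.act g).pt x ∈ B

/-- The orbit of `x` under the group is infinite. -/
def InfiniteUnder (P : GroupAction Q Γ) (x : V.Pt) : Prop :=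
  (Set.range fun g : Γ => (P.act g).pt x).Infinite

/-- The heights along the orbit of `x` under the group are `∑_i e^{χ_i(g)}` up to constant
factors. -/
def HeightGrowth (P : GroupAction Q Γ) (u : V.Pt → ℝ) {m : ℕ} (χ : Fin m → Γ →+ ℝ) (x : V.Pt) :
    Prop :=
  ∃ c C : ℝ, 0 < c ∧ 0 < C ∧ ∀ g : Γ, c * ∑ i, Real.exp (χ i g) ≤ max 1 (u ((P.act g).pt x)) ∧
    max 1 (u ((P.act g).pt x)) ≤ C * ∑ i, Real.exp (χ i g)

end Pool.Agent.U935.KS
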