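import Mathlib
import Pool.Agent.Q8.KS.Perron
import Pool.Agent.U935.KS.GeoDefs

set_option autoImplicit false

namespace Pool.Agent.U935.KS

open Pool.Agent.Q8.KS

section

variable {E : Type} [NormedAddCommGroup E] [NormedSpace ℝ E]

lemma cons_mem {C : Set E} {m : ℕ} {c : E} (hc : c ∈ C) {x : Fin m → E} (hx : ∀ i, x i ∈ C) :
    ∀ i, (Fin.cons c x : Fin (m + 1) → E) i ∈ C := by
  intro i
  refine Fin.cases ?_ (fun j => ?_) i
  · exact hc
  · exact hx j

lemma Good.curry {C : Set E} {m : ℕ} {J : MultilinearMap ℝ (fun _ : Fin (m + 1) => E) ℝ}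
    (h : Good C J) {c : E} (hc : c ∈ C) : Good C (J.curryLeft c) := by
  refine ⟨?_, ?_, ?_⟩
  · intro σ x
    rw [MultilinearMap.curryLeft_apply, MultilinearMap.curryLeft_apply,
      ← h.symm (Equiv.Perm.decomposeFin.symm (0, σ)) (Fin.cons c x)]
    congr 1
    funext i
    refine Fin.cases ?_ (fun j => ?_) i
    · simp
    · simp
  · intro x hx
    rw [MultilinearMap.curryLeft_apply]
    exact h.nonneg _ (cons_mem hc hx)
  · intro x hx i j hij A hA y
    simp only [MultilinearMap.curryLeft_apply, Fin.cons_update]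
    exact h.hodge _ (cons_mem hc hx) _ _ (fun h => hij (Fin.succ_injective _ h)) A hA y

lemma mono {C : Set E} {m : ℕ} {J : MultilinearMap ℝ (fun _ : Fin m => E) ℝ}
    (h : Good C J) {x y : Fin m → E} (hx : ∀ i, x i ∈ C) (hy : ∀ i, y i ∈ C)
    (hxy : ∀ i, x i - y i ∈ C) : J y ≤ J x := by
  classical
  have key : ∀ S : Finset (Fin m), J y ≤ J (S.piecewise x y) := by
    intro S
    induction S using Finset.induction_on with
    | empty => rw [Finset.piecewise_empty]
    | insert j S hj ih =>
      rw [Finset.piecewise_insert]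
      have h1 : x j = (x j - y j) + y j := by abel
      rw [h1, J.map_update_add]
      have h2 : Function.update (S.piecewise x y) j (y j) = S.piecewise x y := by
        rw [Function.update_eq_self_iff, Finset.piecewise_eq_of_notMem _ _ _ hj]
      rw [h2]
      have h3 : 0 ≤ J (Function.update (S.piecewise x y) j (x j - y j)) := by
        apply h.nonneg
        intro i
        by_cases hi : i = j
        · subst hi
          rw [Function.update_self]
          exact hxy i
        · rw [Function.update_of_ne hi]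
          by_cases hiS : i ∈ S
          · rw [Finset.piecewise_eq_of_mem _ _ _ hiS]
            exact hx i
          · rw [Finset.piecewise_eq_of_notMem _ _ _ hiS]
            exact hy i
      linarith
  have := key Finset.univ
  rwa [Finset.piecewise_univ] at this

/-- If the form is positive at `x` and `x` is dominated by `y`, the form is positive at `y`. -/
lemma dom_pos {C : Set E} (hC : IsCone C) {m : ℕ}
    {J : MultilinearMap ℝ (fun _ : Fin m => E) ℝ}
    (h : Good C J) {x y : Fin m → E} (hx : ∀ i, x i ∈ C) (hy : ∀ i, y i ∈ C)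
    (hxy : ∀ i, ∃ t : ℝ, 0 ≤ t ∧ t • y i - x i ∈ C) (hpos : 0 < J x) : 0 < J y := by
  choose t ht hty using hxy
  have h1 : J x ≤ J (fun i => t i • y i) :=
    mono h (fun i => hC.smul _ (ht i) _ (hy i)) hx hty
  rw [J.map_smul_univ, smul_eq_mul] at h1
  have h2 := h.nonneg y hy
  have h3 : 0 ≤ ∏ i, t i := Finset.prod_nonneg fun i _ => ht i
  by_contra hcon
  have h4 : J y = 0 := le_antisymm (not_lt.1 hcon) h2
  rw [h4, mul_zero] at h1
  linarith

lemma lorentz {q : E → E → ℝ} (hadd : ∀ x y z, q (x + y) z = q x z + q y z)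
    (hsmul : ∀ (t : ℝ) x z, q (t • x) z = t * q x z) (hsymm : ∀ x y, q x y = q y x) {N : E}
    (hN : 0 < q N N) (hodge : ∀ x, q x x * q N N ≤ q x N ^ 2) {c c' : E} (hcc : q c c' = 0)
    (h1 : 0 ≤ q c c) (h2 : 0 ≤ q c' c') (z : E) : q c' N * q c z = q c N * q c' z := by
  obtain ⟨a, ha⟩ : ∃ a, a = q c' N := ⟨_, rfl⟩
  obtain ⟨b, hb⟩ : ∃ b, b = q c N := ⟨_, rfl⟩
  have haddr : ∀ x y z, q x (y + z) = q x y + q x z := by
    intro x y z
    rw [hsymm, hadd, hsymm y, hsymm z]
  have hsmulr : ∀ (t : ℝ) x z, q x (t • z) = t * q x z := by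
    intro t x z
    rw [hsymm, hsmul, hsymm z]
  have hx : ∀ w, q (a • c + (-b) • c') w = a * q c w - b * q c' w := by
    intro w
    rw [hadd, hsmul, hsmul]
    ring
  obtain ⟨x, hxd⟩ : ∃ x, x = a • c + (-b) • c' := ⟨_, rfl⟩
  rw [← hxd] at hx
  have hxN : q x N = 0 := by
    rw [hx, ha, hb]
    ring
  have hxx : 0 ≤ q x x := by
    rw [hx, hsymm c x, hsymm c' x, hx, hx, hsymm c' c, hcc]
    have := mul_nonneg (mul_self_nonneg a) h1
    have := mul_nonneg (mul_self_nonneg b) h2
    nlinarith
  have key : q x z = 0 := by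
    obtain ⟨w, hw⟩ : ∃ w, w = 2 * q x z * q N N := ⟨_, rfl⟩
    obtain ⟨K, hK⟩ : ∃ K, K = q z N ^ 2 - q z z * q N N := ⟨_, rfl⟩
    have h3 : ∀ t : ℝ, t * w ≤ t ^ 2 * K := by
      intro t
      have h4 := hodge (x + t • z)
      rw [hadd, haddr, haddr, hsmul, hsmul, hsmulr, hsmulr, hsymm z x, hadd, hsmul, hxN] at h4
      have h5 : 0 ≤ q x x * q N N := mul_nonneg hxx hN.le
      rw [hw, hK]
      nlinarith
    have h4 := h3 (w / (|K| + 1))
    have h5 : 0 < |K| + 1 := by positivity
    have h6 : w / (|K| + 1) * w = w ^ 2 / (|K| + 1) := by ring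
    rw [h6, div_pow, div_mul_eq_mul_div, div_le_div_iff₀ h5 (by positivity)] at h4
    have h7 : w ^ 2 * (|K| + 1) ≤ w ^ 2 * K := by
      have : w ^ 2 * (|K| + 1) ^ 2 = (w ^ 2 * (|K| + 1)) * (|K| + 1) := by ring
      rw [this] at h4
      exact le_of_mul_le_mul_right h4 h5
    have h8 : w ^ 2 * K ≤ w ^ 2 * |K| := mul_le_mul_of_nonneg_left (le_abs_self K) (sq_nonneg w)
    have h9 : w ^ 2 ≤ 0 := by nlinarith
    have h10 : w = 0 := by
      have := le_antisymm h9 (sq_nonneg w)
      exact pow_eq_zero_iff (two_ne_zero) |>.1 this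
    rw [h10] at hw
    have h11 : q x z * (2 * q N N) = 0 := by linarith
    rcases mul_eq_zero.1 h11 with h | h
    · exact h
    · linarith
  rw [hx] at key
  rw [← ha, ← hb]
  linarith

lemma exists_dom {C : Set E} (hC : IsCone C) {A : E} (hA : A ∈ interior C) (x : E) :
    ∃ t : ℝ, 0 ≤ t ∧ t • A - x ∈ C := by
  obtain ⟨M, hM, h⟩ := unit_le hC hA
  exact ⟨M * ‖x‖, by positivity, h x⟩

lemma self_dom {C : Set E} (hC : IsCone C) (x : E) : ∃ t : ℝ, 0 ≤ t ∧ t • x - x ∈ C :=
  ⟨1, zero_le_one, by rw [one_smul, sub_self]; exact hC.zero⟩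

/-- Two nef eigenvectors with different eigenvalues have a positive product. -/
lemma pair_pos {C : Set E} (hC : IsCone C) {A : E} (hA : A ∈ interior C) {m : ℕ}
    {J : MultilinearMap ℝ (fun _ : Fin (m + 1 + 1) => E) ℝ} (hJ : Good C J) (T : E →ₗ[ℝ] E)
    (hTA : T A ∈ interior C) {θ : ℝ} (hθ0 : θ ≠ 0)
    (hθ : ∀ x : Fin (m + 1 + 1) → E, J (fun i => T (x i)) = θ * J x)
    {c c' : E} (hc : c ∈ C) (hc' : c' ∈ C) {s s' : ℝ} (hs : T c = s • c) (hs' : T c' = s' • c')
    (hss : s ≠ s') (h1 : 0 < J.curryLeft c fun _ => A) (h2 : 0 < J.curryLeft c' fun _ => A) :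
    0 < J (Fin.cons c (Fin.cons c' fun _ => A)) := by
  classical
  have hAC : A ∈ C := interior_subset hA
  have hm := fun {x : Fin m → E} (hx : ∀ i, x i ∈ C) => cons_mem hc (cons_mem hc' hx)
  have hnn : 0 ≤ J (Fin.cons c (Fin.cons c' fun _ => A)) := hJ.nonneg _ (hm fun _ => hAC)
  by_contra hcon
  have h0 : J (Fin.cons c (Fin.cons c' fun _ => A)) = 0 := le_antisymm (not_lt.1 hcon) hnn
  rw [MultilinearMap.curryLeft_apply] at h1 h2
  -- symmetry of the forms in two variables
  have hsw : ∀ (F : Fin (m + 1) → E) (l : Fin (m + 1)) (x y : E),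
      J (Fin.cons x (Function.update F l y)) = J (Fin.cons y (Function.update F l x)) := by
    intro F l x y
    rw [← hJ.symm (Equiv.swap 0 l.succ) (Fin.cons x (Function.update F l y))]
    congr 1
    funext i
    refine Fin.cases ?_ (fun j => ?_) i
    · rw [Equiv.swap_apply_left, Fin.cons_succ, Function.update_self, Fin.cons_zero]
    · by_cases hj : j = l
      · subst hj
        rw [Equiv.swap_apply_right, Fin.cons_zero, Fin.cons_succ, Function.update_self]
      · rw [Equiv.swap_apply_of_ne_of_ne (Fin.succ_ne_zero j)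
          (fun h => hj (Fin.succ_injective _ h)), Fin.cons_succ, Fin.cons_succ,
          Function.update_of_ne hj, Function.update_of_ne hj]
  have hupd : ∀ (F : Fin (m + 1) → E) (l : Fin (m + 1)) (y : E), (∀ i, F i ∈ C) → y ∈ C →
      ∀ i, Function.update F l y i ∈ C := by
    intro F l y hF hy i
    by_cases hi : i = l
    · subst hi
      rwa [Function.update_self]
    · rw [Function.update_of_ne hi]
      exact hF i
  -- the product of the two eigenvectors vanishes in all positions
  have hz : ∀ (F : Fin (m + 1) → E) (l : Fin (m + 1)), (∀ i, F i ∈ C) →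
      J (Fin.cons c (Function.update F l c')) = 0 := by
    intro F l hF
    by_contra hne
    have hpos : 0 < J (Fin.cons c (Function.update F l c')) :=
      lt_of_le_of_ne (hJ.nonneg _ (cons_mem hc (hupd F l c' hF hc'))) (Ne.symm hne)
    have h3 : 0 < J (Fin.cons c (Function.update (fun _ => A) l c')) := by
      refine dom_pos hC hJ (cons_mem hc (hupd F l c' hF hc'))
        (cons_mem hc (hupd _ l c' (fun _ => hAC) hc')) (fun i => ?_) hpos
      refine Fin.cases ?_ (fun j => ?_) i
      · exact self_dom hC c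
      · by_cases hj : j = l
        · subst hj
          rw [Fin.cons_succ, Fin.cons_succ, Function.update_self, Function.update_self]
          exact self_dom hC c'
        · rw [Fin.cons_succ, Fin.cons_succ, Function.update_of_ne hj, Function.update_of_ne hj]
          exact exists_dom hC hA _
    have h4 : J (Fin.cons c (Function.update (fun _ => A) l c'))
        = J (Fin.cons c (Fin.cons c' fun _ => A)) := by
      rw [← hJ.symm (Equiv.swap (Fin.succ 0 : Fin (m + 1 + 1)) l.succ) (Fin.cons c (Fin.cons c' fun _ => A))]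
      congr 1
      funext i
      refine Fin.cases ?_ (fun j => ?_) i
      · rw [Equiv.swap_apply_of_ne_of_ne (Fin.succ_ne_zero 0).symm (Fin.succ_ne_zero l).symm]
        rfl
      · by_cases hj : j = l
        · subst hj
          rw [Equiv.swap_apply_right, Fin.cons_succ, Function.update_self]
          rfl
        · rw [Fin.cons_succ, Function.update_of_ne hj]
          refine (?_ : A = _)
          by_cases hj0 : j = 0
          · subst hj0
            have h5 : Equiv.swap (Fin.succ 0 : Fin (m + 1 + 1)) l.succ (Fin.succ 0) = l.succ :=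
              Equiv.swap_apply_left _ _
            rw [h5, Fin.cons_succ]
            obtain ⟨k, hk⟩ := Fin.exists_succ_eq.2 (fun h => hj h.symm : l ≠ 0)
            rw [← hk, Fin.cons_succ]
          · rw [Equiv.swap_apply_of_ne_of_ne (fun h => hj0 (Fin.succ_injective _ h))
              (fun h => hj (Fin.succ_injective _ h)), Fin.cons_succ]
            obtain ⟨k, hk⟩ := Fin.exists_succ_eq.2 hj0
            rw [← hk, Fin.cons_succ]
    rw [h4, h0] at h3
    exact lt_irrefl _ h3
  -- positivity
  have hposf : ∀ (x : E), x ∈ C → 0 < J (Fin.cons x fun _ => A) → ∀ F : Fin (m + 1) → E,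
      (∀ i, F i ∈ interior C) → 0 < J (Fin.cons x F) := by
    intro x hx hpos F hF
    refine dom_pos hC hJ (cons_mem hx fun _ => hAC)
      (cons_mem hx fun i => interior_subset (hF i)) (fun i => ?_) hpos
    refine Fin.cases ?_ (fun j => ?_) i
    · exact self_dom hC x
    · exact exists_dom hC (hF j) _
  have hAA : 0 < J (Fin.cons A fun _ => A) := by
    refine dom_pos hC hJ (cons_mem hc fun _ => hAC) (cons_mem hAC fun _ => hAC) (fun i => ?_) h1
    refine Fin.cases ?_ (fun j => ?_) i
    · exact exists_dom hC hA _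
    · exact exists_dom hC hA _
  -- the ratio does not depend on one argument
  have hratio : ∀ (F : Fin (m + 1) → E) (l : Fin (m + 1)) (z : E), (∀ i, F i ∈ interior C) →
      J (Fin.cons c' (Function.update F l A)) * J (Fin.cons c (Function.update F l z)) =
        J (Fin.cons c (Function.update F l A)) * J (Fin.cons c' (Function.update F l z)) := by
    intro F l z hF
    have hFC : ∀ i, F i ∈ C := fun i => interior_subset (hF i)
    refine lorentz (q := fun x y => J (Fin.cons x (Function.update F l y))) ?_ ?_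
      (fun x y => hsw F l x y) ?_ ?_ (hz F l hFC) ?_ ?_ z
    · intro x y w
      exact J.cons_add _ _ _
    · intro t x w
      exact J.cons_smul _ _ _
    · refine hposf A hAC hAA _ fun i => ?_
      by_cases hi : i = l
      · subst hi
        rwa [Function.update_self]
      · rw [Function.update_of_ne hi]
        exact hF i
    · intro x
      have h3 := hJ.hodge (Fin.cons A F) (cons_mem hAC hFC) 0 l.succ (Fin.succ_ne_zero l).symm A
        hAC x
      simp only [Fin.update_cons_zero, ← Fin.cons_update] at h3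
      exact h3
    · exact hJ.nonneg _ (cons_mem hc (hupd F l c hFC hc))
    · exact hJ.nonneg _ (cons_mem hc' (hupd F l c' hFC hc'))
  have hr : ∀ (F : Fin (m + 1) → E) (l : Fin (m + 1)) (z : E), (∀ i, F i ∈ interior C) →
      z ∈ interior C →
      J (Fin.cons c' (Function.update F l z)) / J (Fin.cons c (Function.update F l z)) =
        J (Fin.cons c' F) / J (Fin.cons c F) := by
    intro F l z hF hz'
    have hin : ∀ w, w ∈ interior C → ∀ i, Function.update F l w i ∈ interior C := by
      intro w hw i
      by_cases hi : i = l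
      · subst hi
        rwa [Function.update_self]
      · rw [Function.update_of_ne hi]
        exact hF i
    have h3 := hratio F l z hF
    have h4 := hratio F l (F l) hF
    rw [Function.update_eq_self] at h4
    have h5 := hposf c hc h1 _ (hin A hA)
    have h6 := hposf c hc h1 _ (hin z hz')
    have h7 := hposf c hc h1 _ hF
    rw [div_eq_div_iff h6.ne' h7.ne']
    have h8 : J (Fin.cons c (Function.update F l A)) * (J (Fin.cons c' (Function.update F l z)) *
        J (Fin.cons c F)) = J (Fin.cons c (Function.update F l A)) *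
        (J (Fin.cons c' F) * J (Fin.cons c (Function.update F l z))) := by
      rw [← mul_assoc, ← h3, ← mul_assoc, ← h4]
      ring
    exact mul_left_cancel₀ h5.ne' h8
  -- the ratio at `T A` and at `A`
  have hch : ∀ S : Finset (Fin (m + 1)),
      J (Fin.cons c' (S.piecewise (fun _ => T A) fun _ => A)) /
        J (Fin.cons c (S.piecewise (fun _ => T A) fun _ => A)) =
      J (Fin.cons c' fun _ => A) / J (Fin.cons c fun _ => A) := by
    intro S
    induction S using Finset.induction_on with
    | empty => rw [Finset.piecewise_empty]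
    | insert j S hj ih =>
      rw [Finset.piecewise_insert, hr _ j (T A) _ hTA, ih]
      intro i
      by_cases hiS : i ∈ S
      · rw [Finset.piecewise_eq_of_mem _ _ _ hiS]
        exact hTA
      · rw [Finset.piecewise_eq_of_notMem _ _ _ hiS]
        exact hA
  have hfin := hch Finset.univ
  rw [Finset.piecewise_univ] at hfin
  have h3 := hposf c hc h1 (fun _ => T A) fun _ => hTA
  have h4 := hposf c' hc' h2 (fun _ => T A) fun _ => hTA
  rw [div_eq_div_iff h3.ne' h1.ne'] at hfin
  have hsemi : ∀ (x : E) (r : ℝ), T x = r • x →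
      r * J (Fin.cons x fun _ => T A) = θ * J (Fin.cons x fun _ => A) := by
    intro x r hx
    rw [← hθ, ← smul_eq_mul, ← J.cons_smul]
    congr 1
    funext i
    refine Fin.cases ?_ (fun j => ?_) i
    · rw [Fin.cons_zero, Fin.cons_zero, hx]
    · rw [Fin.cons_succ, Fin.cons_succ]
  have h5 := hsemi c s hs
  have h6 := hsemi c' s' hs'
  apply hss
  have h7 : (θ * J (Fin.cons c' fun _ => A) * J (Fin.cons c fun _ => A)) * s
      = (θ * J (Fin.cons c' fun _ => A) * J (Fin.cons c fun _ => A)) * s' := by
    calc (θ * J (Fin.cons c' fun _ => A) * J (Fin.cons c fun _ => A)) * s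
        = s * (s' * (J (Fin.cons c' fun _ => T A) * J (Fin.cons c fun _ => A))) := by
          rw [← h6]; ring
      _ = s * (s' * (J (Fin.cons c' fun _ => A) * J (Fin.cons c fun _ => T A))) := by rw [hfin]
      _ = (s * J (Fin.cons c fun _ => T A)) * (s' * J (Fin.cons c' fun _ => A)) := by ring
      _ = (θ * J (Fin.cons c' fun _ => A) * J (Fin.cons c fun _ => A)) * s' := by rw [h5]; ring
  exact mul_left_cancel₀ (mul_ne_zero (mul_ne_zero hθ0 h2.ne') h1.ne') h7

/-- **Products of nef eigenvectors** with distinct characters are positive. -/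
theorem hodge_pos {C : Set E} (hC : IsCone C) {A : E} (hA : A ∈ interior C) {Γ : Type}
    (T : Γ → E →ₗ[ℝ] E) (hTA : ∀ g, T g A ∈ interior C) :
    ∀ (m : ℕ) (J : MultilinearMap ℝ (fun _ : Fin (m + 1) => E) ℝ), Good C J →
      (∀ g, ∃ θ : ℝ, θ ≠ 0 ∧ ∀ x : Fin (m + 1) → E, J (fun i => T g (x i)) = θ * J x) →
      ∀ c : Fin (m + 1) → E, (∀ i, c i ∈ C) → ∀ s : Fin (m + 1) → Γ → ℝ, (∀ i g, s i g ≠ 0) →
      (∀ i g, T g (c i) = s i g • c i) → Function.Injective s →
      (∀ i, 0 < J.curryLeft (c i) fun _ => A) → 0 < J c := by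
  intro m
  induction m with
  | zero =>
    intro J _ _ c _ s _ _ _ hpos
    have h1 := hpos 0
    rw [MultilinearMap.curryLeft_apply] at h1
    have h2 : (Fin.cons (c 0) fun _ => A : Fin (0 + 1) → E) = c := by
      funext i
      refine Fin.cases ?_ (fun j => j.elim0) i
      rw [Fin.cons_zero]
    rwa [h2] at h1
  | succ m ih =>
    intro J hJ hsemi c hc s hs0 hs hinj hpos
    have h1 := ih (J.curryLeft (c 0)) (hJ.curry (hc 0)) (by
      intro g
      obtain ⟨θ, hθ0, hθ⟩ := hsemi g
      refine ⟨θ / s 0 g, div_ne_zero hθ0 (hs0 0 g), fun x => ?_⟩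
      rw [MultilinearMap.curryLeft_apply, MultilinearMap.curryLeft_apply, div_mul_eq_mul_div,
        eq_div_iff (hs0 0 g), ← hθ, mul_comm, ← smul_eq_mul, ← J.cons_smul]
      congr 1
      funext i
      refine Fin.cases ?_ (fun j => ?_) i
      · rw [Fin.cons_zero, Fin.cons_zero, hs]
      · rw [Fin.cons_succ, Fin.cons_succ]) (fun i => c i.succ) (fun i => hc _)
      (fun i => s i.succ) (fun i => hs0 _) (fun i => hs _)
      (fun i j h => Fin.succ_injective _ (hinj h)) (by
      intro i
      rw [MultilinearMap.curryLeft_apply, MultilinearMap.curryLeft_apply]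
      have hne : s 0 ≠ s i.succ := fun h => (Fin.succ_ne_zero i).symm (hinj h)
      obtain ⟨g, hg⟩ := Function.ne_iff.1 hne
      obtain ⟨θ, hθ0, hθ⟩ := hsemi g
      exact pair_pos hC hA hJ (T g) (hTA g) hθ0 hθ (hc 0) (hc i.succ) (hs 0 g) (hs i.succ g) hg
        (hpos 0) (hpos i.succ))
    rw [MultilinearMap.curryLeft_apply] at h1
    have h2 : (Fin.cons (c 0) fun i => c i.succ : Fin (m + 1 + 1) → E) = c := Fin.cons_self_tail c
    rwa [h2] at h1

end

end Pool.Agent.U935.KS
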