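import Mathlib

set_option autoImplicit false

namespace Pool.Agent.U935.KS

open Module

/-- The values of the characters span a space of dimension at least the rank of the group, if the
characters do not become small outside of zero. -/
lemma rank_lower {Γ κ : Type} [AddCommGroup Γ] [Fintype κ] (χ : κ → Γ →+ ℝ) {δ : ℝ} (hδ : 0 < δ)
    (h : ∀ g : Γ, g ≠ 0 → ∃ j, δ ≤ |χ j g|) {r : ℕ} (v : Fin r → Γ)
    (hv : LinearIndependent ℤ v) :
    r ≤ finrank ℝ (Submodule.span ℝ (Set.range fun (g : Γ) (j : κ) => χ j g)) := by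
  classical
  let Φ : Γ →+ (κ → ℝ) := AddMonoidHom.pi χ
  have hΦ : ∀ g j, Φ g j = χ j g := fun g j => rfl
  have hΦinj : Function.Injective Φ := by
    rw [injective_iff_map_eq_zero]
    intro g hg
    by_contra hne
    obtain ⟨j, hj⟩ := h g hne
    have : Φ g j = 0 := by rw [hg]; rfl
    rw [hΦ] at this
    rw [this, abs_zero] at hj
    linarith
  obtain ⟨s, hs⟩ : ∃ s : Set (κ → ℝ), s = Set.range Φ := ⟨_, rfl⟩
  have hspan : (Submodule.span ℤ s : Set (κ → ℝ)) = Set.range Φ := by
    have h1 : s = (LinearMap.range Φ.toIntLinearMap : Set (κ → ℝ)) := by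
      rw [hs]
      rfl
    rw [h1, Submodule.span_eq]
    rfl
  have hdisc : DiscreteTopology (Submodule.span ℤ s) := by
    rw [discreteTopology_iff_isOpen_singleton_zero, Metric.isOpen_singleton_iff]
    refine ⟨δ, hδ, fun y hy => ?_⟩
    have hy2 : y.1 ∈ (Submodule.span ℤ s : Set (κ → ℝ)) := y.2
    rw [hspan] at hy2
    obtain ⟨g, hg⟩ := hy2
    by_cases hg0 : g = 0
    · apply Subtype.ext
      rw [← hg, hg0, map_zero]
      rfl
    · exfalso
      obtain ⟨j, hj⟩ := h g hg0
      rw [dist_zero_right] at hy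
      have h1 : ‖y.1‖ < δ := hy
      have h2 := norm_le_pi_norm y.1 j
      rw [← hg, hΦ, Real.norm_eq_abs] at h2
      rw [← hg] at h1
      linarith
  have h1 := Real.finrank_eq_int_finrank_of_discrete hdisc
  have h2 : (Set.range fun (g : Γ) (j : κ) => χ j g) = s := by
    rw [hs]
    rfl
  rw [h2]
  change r ≤ Set.finrank ℝ s
  rw [h1, Set.finrank]
  have hmem : ∀ g, Φ g ∈ Submodule.span ℤ s := by
    intro g
    rw [← SetLike.mem_coe, hspan]
    exact ⟨g, rfl⟩
  have hli : LinearIndependent ℤ fun i : Fin r => (⟨Φ (v i), hmem _⟩ : Submodule.span ℤ s) := by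
    have h3 : LinearIndependent ℤ (Φ.toIntLinearMap ∘ v) :=
      hv.map' _ (LinearMap.ker_eq_bot.2 hΦinj)
    exact LinearIndependent.of_comp (Submodule.span ℤ s).subtype h3
  have : Module.Finite ℤ (Submodule.span ℤ s) := inferInstance
  have := hli.fintype_card_le_finrank
  rwa [Fintype.card_fin] at this

/-- If the values of `r + 1` characters with sum zero span a space of dimension `r`, then all
relations are multiples of the sum. -/
lemma relation_const {Γ κ : Type} [AddCommGroup Γ] [Fintype κ] (χ : κ → Γ →+ ℝ) {r : ℕ}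
    (hcard : Fintype.card κ = r + 1)
    (hr : r ≤ finrank ℝ (Submodule.span ℝ (Set.range fun (g : Γ) (j : κ) => χ j g)))
    (hsum : ∀ g, ∑ j, χ j g = 0) (a : κ → ℝ) (ha : ∀ g, ∑ j, a j * χ j g = 0) :
    ∃ t : ℝ, ∀ j, a j = t := by
  classical
  obtain ⟨W, hW⟩ : ∃ W : Submodule ℝ (κ → ℝ),
    W = Submodule.span ℝ (Set.range fun (g : Γ) (j : κ) => χ j g) := ⟨_, rfl⟩
  rw [← hW] at hr
  have h1 := Subspace.finrank_add_finrank_dualAnnihilator_eq W
  rw [finrank_fintype_fun_eq_card, hcard] at h1
  let f : (κ → ℝ) → Module.Dual ℝ (κ → ℝ) := fun b => ∑ j, b j • LinearMap.proj j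
  have hf : ∀ b w, f b w = ∑ j, b j * w j := by
    intro b w
    simp [f]
  have hmem : ∀ b : κ → ℝ, (∀ g, ∑ j, b j * χ j g = 0) → f b ∈ W.dualAnnihilator := by
    intro b hb
    rw [Submodule.mem_dualAnnihilator, hW]
    intro w hw
    induction hw using Submodule.span_induction with
    | mem x hx =>
      obtain ⟨g, rfl⟩ := hx
      rw [hf]
      exact hb g
    | zero => exact map_zero _
    | add x y _ _ hx hy => rw [map_add, hx, hy, add_zero]
    | smul t x _ hx => rw [map_smul, hx, smul_zero]
  have hone : f (fun _ => 1) ∈ W.dualAnnihilator := hmem _ fun g => by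
    simpa using hsum g
  obtain ⟨i0⟩ : Nonempty κ := by
    rw [← Fintype.card_pos_iff, hcard]
    omega
  have hsingle : ∀ b j, f b (Pi.single j 1) = b j := by
    intro b j
    rw [hf, Finset.sum_eq_single j]
    · simp
    · intro k _ hk
      rw [Pi.single_eq_of_ne hk, mul_zero]
    · intro h
      exact absurd (Finset.mem_univ j) h
  have hne : (⟨f fun _ => 1, hone⟩ : W.dualAnnihilator) ≠ 0 := by
    intro h
    have h2 : f (fun _ => 1) = 0 := congrArg Subtype.val h
    have h3 := hsingle (fun _ => 1) i0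
    rw [h2] at h3
    simp at h3
  have hpos : 0 < finrank ℝ W.dualAnnihilator := by
    have : Nontrivial W.dualAnnihilator := ⟨⟨_, _, hne⟩⟩
    exact Module.finrank_pos (R := ℝ) (M := W.dualAnnihilator)
  have hfr : finrank ℝ W.dualAnnihilator = 1 := by omega
  obtain ⟨t, ht⟩ := exists_smul_eq_of_finrank_eq_one (V := W.dualAnnihilator) hfr hne
    (⟨f a, hmem a ha⟩ : W.dualAnnihilator)
  refine ⟨t, fun j => ?_⟩
  have h2 : t • f (fun _ => 1) = f a := congrArg Subtype.val ht
  have h3 := hsingle a j
  rw [← h2, LinearMap.smul_apply, hsingle, smul_eq_mul, mul_one] at h3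
  exact h3.symm

/-- If the characters are linearly dependent, the dimension of the span of the values is smaller
than the number of characters. -/
lemma rank_lt {Γ κ : Type} [AddCommGroup Γ] [Fintype κ] (χ : κ → Γ →+ ℝ)
    (hdep : ¬ LinearIndependent ℝ fun j => (χ j : Γ → ℝ)) :
    finrank ℝ (Submodule.span ℝ (Set.range fun (g : Γ) (j : κ) => χ j g)) < Fintype.card κ := by
  classical
  rw [← finrank_fintype_fun_eq_card ℝ]
  apply Submodule.finrank_lt
  intro htop
  apply hdep
  rw [Fintype.linearIndependent_iff]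
  intro a ha
  have h1 : ∀ w : κ → ℝ, ∑ j, a j * w j = 0 := by
    intro w
    have hw : w ∈ Submodule.span ℝ (Set.range fun (g : Γ) (j : κ) => χ j g) := by
      rw [htop]
      exact Submodule.mem_top
    induction hw using Submodule.span_induction with
    | mem x hx =>
      obtain ⟨g, rfl⟩ := hx
      have := congrFun ha g
      rw [Finset.sum_apply] at this
      simpa using this
    | zero => simp
    | add x y _ _ hx hy =>
      simp only [Pi.add_apply, mul_add, Finset.sum_add_distrib, hx, hy, add_zero]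
    | smul t x _ hx =>
      have : ∑ j, a j * (t • x) j = t * ∑ j, a j * x j := by
        rw [Finset.mul_sum]
        exact Finset.sum_congr rfl fun j _ => by rw [Pi.smul_apply, smul_eq_mul]; ring
      rw [this, hx, mul_zero]
  intro i
  have := h1 (Pi.single i 1)
  rw [Finset.sum_eq_single i] at this
  · simpa using this
  · intro k _ hk
    rw [Pi.single_eq_of_ne hk, mul_zero]
  · intro h
    exact absurd (Finset.mem_univ i) h

end Pool.Agent.U935.KS
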