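import Mathlib
import Pool.Agent.Q8.KS.Core2
import Pool.Agent.U935.KS.Seq

set_option autoImplicit false

namespace Pool.Agent.U935.KS

open Pool.Agent.Q8.KS Filter Topology

section

variable {E : Type} [NormedAddCommGroup E] [NormedSpace ℝ E] [FiniteDimensional ℝ E]

/-- The growth rate of the degrees exists for an injective map preserving a cone. -/
lemma growth_limit {C : Set E} (hC : IsCone C) (l : E →ₗ[ℝ] ℝ)
    (hl : ∀ x ∈ C, x ≠ 0 → 0 < l x) {H : E} (hH : H ∈ interior C) (hH0 : H ≠ 0)
    (B : E →ₗ[ℝ] E) (hB : ∀ x ∈ C, B x ∈ C) (hinj : Function.Injective B) :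
    ∃ d : ℝ, 0 < d ∧ Tendsto (fun k : ℕ => (l ((B ^ k) H)) ^ (1 / (k : ℝ))) atTop (𝓝 d) := by
  obtain ⟨M, hM, hnorm⟩ := norm_le hC l hl
  obtain ⟨M2, hM2, hunit⟩ := unit_le hC hH
  have hHC : H ∈ C := interior_subset hH
  have hinjk : ∀ k : ℕ, Function.Injective (B ^ k) := by
    intro k
    rw [Module.End.coe_pow]
    exact hinj.iterate k
  have hBk : ∀ k : ℕ, (B ^ k) H ∈ C := fun k => pow_mem hB k hHC
  have hBk0 : ∀ k : ℕ, (B ^ k) H ≠ 0 := by
    intro k h
    exact hH0 (hinjk k (by rw [h, map_zero]))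
  have hpos : ∀ k : ℕ, 0 < l ((B ^ k) H) := fun k => hl _ (hBk k) (hBk0 k)
  have hnn : ∀ x ∈ C, 0 ≤ l x := by
    intro x hx
    by_cases h0 : x = 0
    · simp [h0]
    · exact (hl x hx h0).le
  obtain ⟨Q, hQ⟩ : ∃ Q : ℝ, Q = M2 * M := ⟨_, rfl⟩
  have hQ0 : 0 < Q := by rw [hQ]; positivity
  have hsub : ∀ m k : ℕ, l ((B ^ (m + k)) H) ≤ Q * l ((B ^ m) H) * l ((B ^ k) H) := by
    intro m k
    have h1 : (B ^ m) ((M2 * ‖(B ^ k) H‖) • H - (B ^ k) H) ∈ C := pow_mem hB m (hunit _)
    have h2 := hnn _ h1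
    rw [map_sub, map_smul, map_sub, map_smul, smul_eq_mul, ← Module.End.mul_apply,
      ← pow_add] at h2
    have h3 := hnorm _ (hBk k)
    have h4 := hpos m
    have h5 : M2 * ‖(B ^ k) H‖ * l ((B ^ m) H) ≤ M2 * (M * l ((B ^ k) H)) * l ((B ^ m) H) :=
      mul_le_mul_of_nonneg_right (mul_le_mul_of_nonneg_left h3 hM2.le) h4.le
    rw [hQ]
    nlinarith
  obtain ⟨K, hK, hanti⟩ := LinearMap.exists_antilipschitzWith B (LinearMap.ker_eq_bot.2 hinj)
  have hlow : ∀ x : E, ‖x‖ ≤ K * ‖B x‖ := by
    intro x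
    have := hanti.le_mul_dist x 0
    simpa [dist_eq_norm] using this
  have hK0 : (0 : ℝ) < K := by exact_mod_cast hK
  obtain ⟨L, hL⟩ : ∃ L : ℝ, L = (K : ℝ) + 1 := ⟨_, rfl⟩
  have hL1 : 1 ≤ L := by rw [hL]; linarith
  have hlowk : ∀ k : ℕ, ‖H‖ ≤ L ^ k * ‖(B ^ k) H‖ := by
    intro k
    induction k with
    | zero => simp
    | succ k ih =>
      have h1 := hlow ((B ^ k) H)
      rw [← Module.End.mul_apply, ← pow_succ'] at h1
      have h2 : ‖(B ^ k) H‖ ≤ L * ‖(B ^ (k + 1)) H‖ := by
        have := norm_nonneg ((B ^ (k + 1)) H)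
        rw [hL]
        linarith
      calc ‖H‖ ≤ L ^ k * ‖(B ^ k) H‖ := ih
        _ ≤ L ^ k * (L * ‖(B ^ (k + 1)) H‖) := mul_le_mul_of_nonneg_left h2 (by positivity)
        _ = _ := by ring
  have hH1 : 0 < ‖H‖ := norm_pos_iff.2 hH0
  -- Fekete
  have hsa : Subadditive fun n : ℕ => Real.log (Q * l ((B ^ n) H)) := by
    intro m k
    have h1 := hpos m
    have h2 := hpos k
    have h3 := hpos (m + k)
    rw [← Real.log_mul (by positivity) (by positivity)]
    apply Real.log_le_log (by positivity)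
    have := mul_le_mul_of_nonneg_left (hsub m k) hQ0.le
    linarith
  have hbdd : BddBelow (Set.range fun n : ℕ => Real.log (Q * l ((B ^ n) H)) / n) := by
    refine ⟨-|Real.log (Q * ‖H‖ / M)| - Real.log L, ?_⟩
    rintro _ ⟨n, rfl⟩
    have hlogL : 0 ≤ Real.log L := Real.log_nonneg hL1
    have habs := abs_nonneg (Real.log (Q * ‖H‖ / M))
    rcases Nat.eq_zero_or_pos n with rfl | hn
    · simp only [Nat.cast_zero, div_zero]
      linarith
    · have hn1 : (1 : ℝ) ≤ n := by exact_mod_cast hn
      have h1 : Q * ‖H‖ / M / L ^ n ≤ Q * l ((B ^ n) H) := by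
        have h2 := hnorm _ (hBk n)
        have h3 := hlowk n
        rw [div_div, div_le_iff₀ (by positivity)]
        have h4 : ‖H‖ ≤ L ^ n * (M * l ((B ^ n) H)) :=
          h3.trans (mul_le_mul_of_nonneg_left h2 (by positivity))
        have h5 := mul_le_mul_of_nonneg_left h4 hQ0.le
        linarith
      have h2 := Real.log_le_log (by positivity) h1
      rw [Real.log_div (by positivity) (by positivity), Real.log_pow] at h2
      show _ ≤ Real.log (Q * l ((B ^ n) H)) / n
      rw [le_div_iff₀ (by linarith)]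
      have h3 := neg_abs_le (Real.log (Q * ‖H‖ / M))
      nlinarith
  have hlim := hsa.tendsto_lim hbdd
  refine ⟨Real.exp hsa.lim, Real.exp_pos _, ?_⟩
  have h1 : Tendsto (fun n : ℕ => Real.log (Q * l ((B ^ n) H)) / n - Real.log Q / n) atTop
      (𝓝 (hsa.lim - 0)) := hlim.sub (tendsto_const_div_atTop_nhds_zero_nat _)
  rw [sub_zero] at h1
  refine ((Real.continuous_exp.tendsto _).comp h1).congr' ?_
  filter_upwards [eventually_gt_atTop 0] with n hn
  have hn0 : (0 : ℝ) < n := by exact_mod_cast hn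
  rw [Function.comp_apply, Real.log_mul hQ0.ne' (hpos n).ne', ← sub_div, add_sub_cancel_left,
    Real.rpow_def_of_pos (hpos n)]
  congr 1
  ring

/-- Perron-Frobenius for an injective map preserving a cone with nonempty interior. -/
lemma exists_eigenvector {C : Set E} (hC : IsCone C) (l : E →ₗ[ℝ] ℝ)
    (hl : ∀ x ∈ C, x ≠ 0 → 0 < l x) {H : E} (hH : H ∈ interior C) (hH0 : H ≠ 0)
    (B : E →ₗ[ℝ] E) (hB : ∀ x ∈ C, B x ∈ C) (hinj : Function.Injective B) :
    ∃ d : ℝ, ∃ v ∈ C, v ≠ 0 ∧ B v = d • v := by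
  obtain ⟨d, hd, hlim⟩ := growth_limit hC l hl hH hH0 B hB hinj
  exact ⟨d, perron hC l hl hH B hB hd hlim⟩

end

/-- The restriction of a cone to a subspace. -/
lemma isCone_preimage {E : Type} [NormedAddCommGroup E] [NormedSpace ℝ E] {C : Set E}
    (hC : IsCone C) (S : Submodule ℝ E) : IsCone ((Subtype.val : S → E) ⁻¹' C) where
  closed := hC.closed.preimage continuous_subtype_val
  zero := hC.zero
  add := fun x hx y hy => hC.add _ hx _ hy
  smul := fun a ha x hx => hC.smul a ha _ hx

/-- **Common eigenvectors** of commuting maps which preserve a cone. -/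
theorem common_eigenvector (n : ℕ) : ∀ (E : Type) [NormedAddCommGroup E] [NormedSpace ℝ E]
    [FiniteDimensional ℝ E] (C : Set E) (_ : IsCone C) (l : E →ₗ[ℝ] ℝ)
    (_ : ∀ x ∈ C, x ≠ 0 → 0 < l x) (Γ : Type) (T : Γ → (E →ₗ[ℝ] E))
    (_ : ∀ g, Function.Injective (T g)) (_ : ∀ g h x, T g (T h x) = T h (T g x))
    (_ : ∀ g, ∀ x ∈ C, T g x ∈ C) (_ : ∃ x ∈ C, x ≠ 0) (_ : Module.finrank ℝ E ≤ n),
    ∃ c ∈ C, c ≠ 0 ∧ ∀ g, ∃ t : ℝ, T g c = t • c := by
  induction n with
  | zero =>
    intro E _ _ _ C hC l hl Γ T hinj hcomm hT hne hdim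
    obtain ⟨x, hx, hx0⟩ := hne
    exfalso
    have : Module.finrank ℝ E = 0 := by omega
    rw [Module.finrank_zero_iff] at this
    exact hx0 (Subsingleton.elim _ _)
  | succ n ih =>
    intro E _ _ _ C hC l hl Γ T hinj hcomm hT hne hdim
    by_cases hall : ∀ g, ∃ t : ℝ, ∀ x ∈ C, T g x = t • x
    · obtain ⟨x, hx, hx0⟩ := hne
      refine ⟨x, hx, hx0, fun g => ?_⟩
      obtain ⟨t, ht⟩ := hall g
      exact ⟨t, ht x hx⟩
    · push Not at hall
      obtain ⟨g, hg⟩ := hall
      -- an eigenvector of `T g` in the cone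
      obtain ⟨t, v, hv, hv0, hvt⟩ : ∃ t : ℝ, ∃ v ∈ C, v ≠ 0 ∧ T g v = t • v := by
        let S : Submodule ℝ E := Submodule.span ℝ C
        have hmap : ∀ x ∈ S, T g x ∈ S := by
          intro x hx
          have h1 : S ≤ S.comap (T g) := by
            rw [Submodule.span_le]
            intro y hy
            exact Submodule.subset_span (hT g y hy)
          exact h1 hx
        have hC1 := isCone_preimage hC S
        obtain ⟨x, hx, hx0⟩ := hne
        have hint : (interior ((Subtype.val : S → E) ⁻¹' C)).Nonempty := by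
          have hconv : Convex ℝ ((Subtype.val : S → E) ⁻¹' C) := by
            intro y hy y' hy' s r hs hr _
            exact hC1.add _ (hC1.smul s hs y hy) _ (hC1.smul r hr y' hy')
          rw [hconv.interior_nonempty_iff_affineSpan_eq_top]
          have h0 : (0 : S) ∈ (Subtype.val : S → E) ⁻¹' C := hC.zero
          have h1 : (affineSpan ℝ ((Subtype.val : S → E) ⁻¹' C) : Set S)
              = Submodule.span ℝ ((Subtype.val : S → E) ⁻¹' C) := by
            conv_lhs => rw [← Set.insert_eq_of_mem h0]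
            exact affineSpan_insert_zero (k := ℝ) (s := (Subtype.val : S → E) ⁻¹' C)
          have h2 : Submodule.span ℝ ((Subtype.val : S → E) ⁻¹' C) = ⊤ :=
            Submodule.span_span_coe_preimage
          rw [h2] at h1
          apply SetLike.coe_injective
          rw [h1]
          rfl
        obtain ⟨H, hH⟩ := hint
        -- an interior point which is not zero
        have hH2 : H + ⟨x, Submodule.subset_span hx⟩ ∈ interior ((Subtype.val : S → E) ⁻¹' C) :=
          ample_add hC1 hH hx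
        have hH20 : H + ⟨x, Submodule.subset_span hx⟩ ≠ 0 := by
          intro h
          have h1 : H.1 + x = 0 := congrArg Subtype.val h
          have h2 : H.1 ∈ C := (interior_subset hH : H ∈ (Subtype.val : S → E) ⁻¹' C)
          have h3 := hl x hx hx0
          have h4 : l H.1 + l x = 0 := by rw [← map_add, h1, map_zero]
          by_cases h5 : H.1 = 0
          · rw [h5, map_zero, zero_add] at h4
            linarith
          · have := hl _ h2 h5
            linarith
        obtain ⟨d, v, hv, hv0, hvd⟩ := exists_eigenvector hC1 (l ∘ₗ S.subtype)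
          (fun y hy hy0 => hl _ hy fun h => hy0 (Subtype.ext h)) hH2 hH20
          ((T g).restrict hmap) (fun y hy => hT g _ hy) (by
            intro y y' hyy
            apply Subtype.ext
            apply hinj g
            exact congrArg Subtype.val hyy)
        refine ⟨d, v.1, hv, fun h => hv0 (Subtype.ext h), ?_⟩
        exact congrArg Subtype.val hvd
      -- the eigencone
      let C2 : Set E := {x | x ∈ C ∧ T g x = t • x}
      let S2 : Submodule ℝ E := Submodule.span ℝ C2
      have hker : S2 ≤ LinearMap.ker (T g - t • LinearMap.id) := by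
        rw [Submodule.span_le]
        rintro x ⟨-, hx⟩
        rw [SetLike.mem_coe, LinearMap.mem_ker, LinearMap.sub_apply, LinearMap.smul_apply,
          LinearMap.id_apply, hx, sub_self]
      have hlt : Module.finrank ℝ S2 < Module.finrank ℝ E := by
        apply Submodule.finrank_lt
        intro htop
        obtain ⟨x, hx, hxt⟩ := hg t
        apply hxt
        have h1 : x ∈ S2 := by rw [htop]; exact Submodule.mem_top
        have h2 := hker h1
        rwa [LinearMap.mem_ker, LinearMap.sub_apply, LinearMap.smul_apply,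
          LinearMap.id_apply, sub_eq_zero] at h2
      have hC2 : IsCone C2 := by
        refine ⟨?_, ⟨hC.zero, by simp⟩, ?_, ?_⟩
        · apply hC.closed.inter
          exact isClosed_eq (T g).continuous_of_finiteDimensional (continuous_const_smul t)
        · rintro x ⟨h1, h2⟩ y ⟨h3, h4⟩
          exact ⟨hC.add _ h1 _ h3, by rw [map_add, h2, h4, smul_add]⟩
        · rintro a ha x ⟨h1, h2⟩
          exact ⟨hC.smul a ha _ h1, by rw [map_smul, h2, smul_comm]⟩
      have hT2 : ∀ h, ∀ x ∈ C2, T h x ∈ C2 := by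
        rintro h x ⟨h1, h2⟩
        exact ⟨hT h x h1, by rw [hcomm, h2, map_smul]⟩
      have hmap2 : ∀ h, ∀ x ∈ S2, T h x ∈ S2 := by
        intro h x hx
        have h1 : S2 ≤ S2.comap (T h) := by
          rw [Submodule.span_le]
          intro y hy
          exact Submodule.subset_span (hT2 h y hy)
        exact h1 hx
      obtain ⟨c, hc, hc0, hct⟩ := ih S2 ((Subtype.val : S2 → E) ⁻¹' C2) (isCone_preimage hC2 S2)
        (l ∘ₗ S2.subtype) (fun y hy hy0 => hl _ hy.1 fun h => hy0 (Subtype.ext h)) Γ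
        (fun h => (T h).restrict (hmap2 h))
        (by
          intro h y y' hyy
          apply Subtype.ext
          apply hinj h
          exact congrArg Subtype.val hyy)
        (by
          intro h h' y
          apply Subtype.ext
          exact hcomm h h' y.1)
        (fun h y hy => hT2 h _ hy)
        ⟨⟨v, Submodule.subset_span ⟨hv, hvt⟩⟩, ⟨hv, hvt⟩, fun h => hv0 (congrArg Subtype.val h)⟩
        (by omega)
      refine ⟨c.1, hc.1, fun h => hc0 (Subtype.ext h), fun h => ?_⟩
      obtain ⟨s, hs⟩ := hct h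
      exact ⟨s, congrArg Subtype.val hs⟩

end Pool.Agent.U935.KS
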