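import Mathlib
import Pool.Agent.U935.KS.PF
import Pool.Agent.U935.KS.Hodge
import Pool.Agent.U935.KS.Lattice
import Pool.Agent.U935.KS.Gap
import Pool.Agent.U935.KS.Rank

set_option autoImplicit false

namespace Pool.Agent.U935.KS

open Pool.Agent.Q8.KS Filter Topology

variable {E : Type} [NormedAddCommGroup E] [NormedSpace ℝ E] [FiniteDimensional ℝ E]

/-- A linear action of the abelian group `Γ` preserving the cone `C`. -/
structure ConeAction (C : Set E) {Γ : Type} [AddCommGroup Γ] (T : Γ → E →ₗ[ℝ] E) : Prop where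
  zero : ∀ x, T 0 x = x
  add : ∀ g h x, T (g + h) x = T g (T h x)
  mem : ∀ g, ∀ x ∈ C, T g x ∈ C

variable {C : Set E} {Γ : Type} [AddCommGroup Γ] {T : Γ → E →ₗ[ℝ] E}

omit [FiniteDimensional ℝ E] in
lemma ConeAction.neg (h : ConeAction C T) (g : Γ) (x : E) : T (-g) (T g x) = x := by
  rw [← h.add, neg_add_cancel, h.zero]

omit [FiniteDimensional ℝ E] in
lemma ConeAction.neg' (h : ConeAction C T) (g : Γ) (x : E) : T g (T (-g) x) = x := by
  rw [← h.add, add_neg_cancel, h.zero]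

omit [FiniteDimensional ℝ E] in
lemma ConeAction.injective (h : ConeAction C T) (g : Γ) : Function.Injective (T g) := by
  intro x y hxy
  rw [← h.neg g x, hxy, h.neg]

lemma ConeAction.interior (h : ConeAction C T) (g : Γ) {x : E} (hx : x ∈ interior C) :
    T g x ∈ interior C := by
  have hcont : Continuous (T (-g)) := (T (-g)).continuous_of_finiteDimensional
  have hopen : IsOpen (T (-g) ⁻¹' _root_.interior C) := isOpen_interior.preimage hcont
  refine interior_maximal ?_ hopen ?_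
  · intro y hy
    have h1 : T (-g) y ∈ C := interior_subset hy
    have h2 := h.mem g _ h1
    rwa [h.neg'] at h2
  · rw [Set.mem_preimage, h.neg]
    exact hx

/-- The character `χ` occurs on a nonzero vector of the cone. -/
def IsChar (C : Set E) (T : Γ → E →ₗ[ℝ] E) (χ : Γ →+ ℝ) : Prop :=
  ∃ c ∈ C, c ≠ 0 ∧ ∀ g, T g c = Real.exp (χ g) • c

omit [FiniteDimensional ℝ E] in
lemma exists_char (h : ConeAction C T) (l : E →ₗ[ℝ] ℝ) (hl : ∀ x ∈ C, x ≠ 0 → 0 < l x) {c : E}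
    (hc : c ∈ C) (hc0 : c ≠ 0) (ht : ∀ g, ∃ t : ℝ, T g c = t • c) :
    ∃ χ : Γ →+ ℝ, ∀ g, T g c = Real.exp (χ g) • c := by
  choose t ht using ht
  have hpos : ∀ g, 0 < t g := by
    intro g
    have h1 : T g c ≠ 0 := fun h0 => hc0 (h.injective g (by rw [h0, map_zero]))
    have h2 := hl _ (h.mem g c hc) h1
    rw [ht, map_smul, smul_eq_mul] at h2
    exact (mul_pos_iff_of_pos_right (hl c hc hc0)).1 h2
  have hadd : ∀ g k, t (g + k) = t g * t k := by
    intro g k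
    have h1 := h.add g k c
    rw [ht, ht k, map_smul, ht g, smul_smul, mul_comm (t k)] at h1
    exact smul_left_injective ℝ hc0 h1
  refine ⟨AddMonoidHom.mk' (fun g => Real.log (t g)) fun g k => ?_, fun g => ?_⟩
  · rw [hadd, Real.log_mul (hpos g).ne' (hpos k).ne']
  · rw [AddMonoidHom.mk'_apply, Real.exp_log (hpos g)]
    exact ht g

/-- Each growth rate comes from a character. -/
lemma exists_growth_char (hC : IsCone C) (h : ConeAction C T) (l : E →ₗ[ℝ] ℝ)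
    (hl : ∀ x ∈ C, x ≠ 0 → 0 < l x) {A : E} (hA : A ∈ interior C) {g : Γ} {d : ℝ} (hd : 0 < d)
    (hlim : Tendsto (fun k : ℕ => (l ((T g ^ k) A)) ^ (1 / (k : ℝ))) atTop (𝓝 d)) :
    ∃ χ : Γ →+ ℝ, IsChar C T χ ∧ Real.exp (χ g) = d := by
  obtain ⟨v, hv, hv0, hvd⟩ := perron hC l hl hA (T g) (h.mem g) hd hlim
  obtain ⟨c, ⟨hc, hcd⟩, hc0, hct⟩ := common_eigenvector (Module.finrank ℝ E) E
    {x | x ∈ C ∧ T g x = d • x}
    (by
      refine ⟨?_, ⟨hC.zero, by simp⟩, ?_, ?_⟩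
      · apply hC.closed.inter
        exact isClosed_eq (T g).continuous_of_finiteDimensional (continuous_const_smul d)
      · rintro x ⟨h1, h2⟩ y ⟨h3, h4⟩
        exact ⟨hC.add _ h1 _ h3, by rw [map_add, h2, h4, smul_add]⟩
      · rintro a ha x ⟨h1, h2⟩
        exact ⟨hC.smul a ha _ h1, by rw [map_smul, h2, smul_comm]⟩)
    l (fun x hx hx0 => hl x hx.1 hx0) Γ T h.injective
    (fun g k x => by rw [← h.add, add_comm, h.add])
    (by
      rintro k x ⟨h1, h2⟩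
      exact ⟨h.mem k x h1, by rw [← h.add, add_comm, h.add, h2, map_smul]⟩)
    ⟨v, ⟨hv, hvd⟩, hv0⟩ le_rfl
  obtain ⟨χ, hχ⟩ := exists_char h l hl hc hc0 hct
  refine ⟨χ, ⟨c, hc, hc0, hχ⟩, ?_⟩
  have h1 := hχ g
  rw [hcd] at h1
  exact (smul_left_injective ℝ hc0 h1).symm

section forms

variable {r : ℕ} {J : MultilinearMap ℝ (fun _ : Fin (r + 1) => E) ℝ}

/-- Products of eigenvectors for distinct characters are positive. -/
lemma prod_pos (hC : IsCone C) (h : ConeAction C T) {A : E} (hA : A ∈ interior C)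
    (hJ : Good C J) (hJT : ∀ g (x : Fin (r + 1) → E), J (fun i => T g (x i)) = J x)
    (hJpos : ∀ c ∈ C, c ≠ 0 → 0 < J.curryLeft c fun _ => A) (c : Fin (r + 1) → E)
    (hc : ∀ i, c i ∈ C) (hc0 : ∀ i, c i ≠ 0) (χ : Fin (r + 1) → Γ →+ ℝ)
    (hχ : ∀ i g, T g (c i) = Real.exp (χ i g) • c i) (hinj : Function.Injective χ) :
    0 < J c := by
  refine hodge_pos hC hA T (fun g => h.interior g hA) r J hJ
    (fun g => ⟨1, one_ne_zero, fun x => by rw [hJT, one_mul]⟩) c hc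
    (fun i g => Real.exp (χ i g)) (fun i g => (Real.exp_pos _).ne') hχ (fun i j hij => ?_)
    (fun i => hJpos _ (hc i) (hc0 i))
  apply hinj
  ext g
  exact Real.exp_injective (congrFun hij g)

lemma sum_zero (hC : IsCone C) (h : ConeAction C T) {A : E} (hA : A ∈ interior C)
    (hJ : Good C J) (hJT : ∀ g (x : Fin (r + 1) → E), J (fun i => T g (x i)) = J x)
    (hJpos : ∀ c ∈ C, c ≠ 0 → 0 < J.curryLeft c fun _ => A)
    (χ : Fin (r + 1) → Γ →+ ℝ) (hχ : ∀ i, IsChar C T (χ i)) (hinj : Function.Injective χ)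
    (g : Γ) : ∑ i, χ i g = 0 := by
  choose c hc hc0 hcχ using hχ
  have h1 := prod_pos hC h hA hJ hJT hJpos c hc hc0 χ hcχ hinj
  have h2 := hJT g c
  have h3 : (fun i => T g (c i)) = fun i => Real.exp (χ i g) • c i := funext fun i => hcχ i g
  rw [h3, J.map_smul_univ, smul_eq_mul, ← Real.exp_sum] at h2
  have h4 : Real.exp (∑ i, χ i g) = 1 := by
    have : (Real.exp (∑ i, χ i g) - 1) * J c = 0 := by linarith
    rcases mul_eq_zero.1 this with h5 | h5
    · linarith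
    · exact absurd h5 h1.ne'
  rwa [Real.exp_eq_one_iff] at h4

lemma sum_zero_finset (hC : IsCone C) (h : ConeAction C T) {A : E} (hA : A ∈ interior C)
    (hJ : Good C J) (hJT : ∀ g (x : Fin (r + 1) → E), J (fun i => T g (x i)) = J x)
    (hJpos : ∀ c ∈ C, c ≠ 0 → 0 < J.curryLeft c fun _ => A)
    (F : Finset (Γ →+ ℝ)) (hF : ∀ χ ∈ F, IsChar C T χ) (hcard : F.card = r + 1) (g : Γ) :
    ∑ χ ∈ F, χ g = 0 := by
  have e := F.equivFinOfCardEq hcard
  have h1 := sum_zero hC h hA hJ hJT hJpos (fun i => (e.symm i : Γ →+ ℝ))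
    (fun i => hF _ (e.symm i).2) (fun i j hij => e.symm.injective (Subtype.ext hij)) g
  rw [← h1, ← Finset.sum_coe_sort F fun χ => χ g]
  exact (Equiv.sum_comp e.symm fun χ : F => (χ : Γ →+ ℝ) g).symm

lemma card_le (hC : IsCone C) (h : ConeAction C T) {A : E} (hA : A ∈ interior C)
    (hJ : Good C J) (hJT : ∀ g (x : Fin (r + 1) → E), J (fun i => T g (x i)) = J x)
    (hJpos : ∀ c ∈ C, c ≠ 0 → 0 < J.curryLeft c fun _ => A)
    (F : Finset (Γ →+ ℝ)) (hF : ∀ χ ∈ F, IsChar C T χ) : F.card ≤ r + 1 := by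
  classical
  by_contra hcon
  obtain ⟨F', hF', hcard⟩ := Finset.exists_subset_card_eq (by omega : r + 1 + 1 ≤ F.card)
  have h1 : ∀ χ ∈ F', ∀ g, ∑ ψ ∈ F', ψ g = χ g := by
    intro χ hχ g
    have h2 := sum_zero_finset hC h hA hJ hJT hJpos (F'.erase χ)
      (fun ψ hψ => hF ψ (hF' (Finset.mem_of_mem_erase hψ)))
      (by rw [Finset.card_erase_of_mem hχ, hcard]; rfl) g
    rw [← Finset.add_sum_erase _ _ hχ, h2, add_zero]
  have h2 : F'.card ≤ 1 := by
    rw [Finset.card_le_one]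
    intro χ hχ ψ hψ
    ext g
    rw [← h1 χ hχ g, h1 ψ hψ g]
  omega

/-- **The eigenvectors of Dinh and Sibony.** -/
theorem characters (hC : IsCone C) (h : ConeAction C T) (l : E →ₗ[ℝ] ℝ)
    (hl : ∀ x ∈ C, x ≠ 0 → 0 < l x) {A : E} (hA : A ∈ interior C)
    (hJ : Good C J) (hJT : ∀ g (x : Fin (r + 1) → E), J (fun i => T g (x i)) = J x)
    (hJpos : ∀ c ∈ C, c ≠ 0 → 0 < J.curryLeft c fun _ => A)
    {ρ : ℕ} (b : Module.Basis (Fin ρ) ℝ E) (hint : ∀ g i j, ∃ m : ℤ, b.repr (T g (b j)) i = m)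
    (hr : 1 ≤ r) (w : (Fin r → ℤ) →+ Γ)
    (hent : ∀ a : Fin r → ℤ, a ≠ 0 → ∃ d : ℝ, 1 < d ∧
      Tendsto (fun k : ℕ => (l ((T (w a) ^ k) A)) ^ (1 / (k : ℝ))) atTop (𝓝 d)) :
    ∃ (c : Fin (r + 1) → E) (χ : Fin (r + 1) → Γ →+ ℝ), (∀ i, c i ∈ C) ∧
      (∀ i g, T g (c i) = Real.exp (χ i g) • c i) ∧ 0 < J c ∧ (∀ g, ∑ i, χ i g = 0) ∧
      (∀ i, LinearIndependent ℝ fun j : {j // j ≠ i} => (χ j.1 : Γ → ℝ)) ∧
      (∀ a : Fin (r + 1) → ℝ, (∀ x, ∑ j, a j * χ j (w x) = 0) → ∃ t : ℝ, ∀ j, a j = t) := by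
  classical
  -- there are finitely many characters
  have hfin : {χ : Γ →+ ℝ | IsChar C T χ}.Finite := by
    by_contra hinf
    obtain ⟨F, hF, hcard⟩ := Set.Infinite.exists_subset_card_eq hinf (r + 2)
    have := card_le hC h hA hJ hJT hJpos F fun χ hχ => hF hχ
    omega
  obtain ⟨F, hF⟩ : ∃ F : Finset (Γ →+ ℝ), F = hfin.toFinset := ⟨_, rfl⟩
  have hmem : ∀ χ, χ ∈ F ↔ IsChar C T χ := by
    intro χ
    rw [hF, Set.Finite.mem_toFinset]
    rfl
  have hle : F.card ≤ r + 1 := card_le hC h hA hJ hJT hJpos F fun χ hχ => (hmem χ).1 hχ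
  -- each element has a positive character
  have hpos : ∀ a : Fin r → ℤ, a ≠ 0 → ∃ χ ∈ F, 0 < χ (w a) := by
    intro g hg
    obtain ⟨d, hd, hlim⟩ := hent g hg
    obtain ⟨χ, hχ, hχd⟩ := exists_growth_char hC h l hl hA (zero_lt_one.trans hd) hlim
    refine ⟨χ, (hmem χ).2 hχ, ?_⟩
    rw [← hχd] at hd
    exact Real.one_lt_exp_iff.1 hd
  -- the gap
  obtain ⟨δ, hδ, hgap⟩ : ∃ δ : ℝ, 0 < δ ∧ ∀ a : Fin r → ℤ, a ≠ 0 → ∃ χ ∈ F, δ ≤ |χ (w a)| := by
    obtain ⟨S, hS, hSF⟩ := finite_eigenvalues b (Real.exp 1)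
    obtain ⟨ε, hε, hεS⟩ : ∃ ε : ℝ, 1 < ε ∧ ∀ d ∈ S, 1 < d → ε ≤ d := by
      rcases (S ∩ Set.Ioi 1).eq_empty_or_nonempty with he | hne
      · refine ⟨2, by norm_num, fun d hd hd1 => ?_⟩
        have hmem2 : d ∈ S ∩ Set.Ioi 1 := ⟨hd, hd1⟩
        rw [he] at hmem2
        exact hmem2.elim
      · obtain ⟨e, he, hmin⟩ := Set.exists_min_image _ id (hS.inter_of_left _) hne
        exact ⟨e, he.2, fun d hd hd1 => hmin d ⟨hd, hd1⟩⟩
    refine ⟨min 1 (Real.log ε), lt_min one_pos (Real.log_pos hε), fun g hg => ?_⟩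
    by_contra hcon
    push Not at hcon
    obtain ⟨d, hd, hlim⟩ := hent g hg
    have hd0 : 0 < d := zero_lt_one.trans hd
    obtain ⟨χ, hχ, hχd⟩ := exists_growth_char hC h l hl hA hd0 hlim
    have h1 := hcon χ ((hmem χ).2 hχ)
    have h2 : χ (w g) ≤ 1 := by
      have := le_abs_self (χ (w g))
      have := h1.trans_le (min_le_left _ _)
      linarith
    have h3 : d ≤ Real.exp 1 := by
      rw [← hχd]
      exact Real.exp_le_exp.2 h2
    have h4 : d ∈ S := by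
      refine hSF (T (w g)) (hint (w g)) (fun μ hμ => ?_) d ?_
      · exact (eigenvalue_le hC l hl hA (T (w g)) (h.mem (w g)) hd0 hlim hμ).trans h3
      · obtain ⟨c, hc, hc0, hcχ⟩ := hχ
        refine Module.End.hasEigenvalue_of_hasEigenvector (x := c) ⟨?_, hc0⟩
        rw [Module.End.mem_eigenspace_iff, hcχ, hχd]
    have h5 := hεS d h4 hd
    rw [← hχd] at h5
    have h6 : Real.log ε ≤ χ (w g) := by
      have := Real.log_le_log (by linarith) h5
      rwa [Real.log_exp] at this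
    have h7 := h1.trans_le (min_le_right _ _)
    have := le_abs_self (χ (w g))
    linarith
  -- the characters are dependent
  have hv : LinearIndependent ℤ (Pi.basisFun ℤ (Fin r)) := (Pi.basisFun ℤ (Fin r)).linearIndependent
  have hv0 : (Pi.basisFun ℤ (Fin r)) ⟨0, hr⟩ ≠ 0 := hv.ne_zero _
  have hrank := rank_lower (fun χ : F => (χ : Γ →+ ℝ).comp w) hδ (fun g hg => by
    obtain ⟨χ, hχ, hχg⟩ := hgap g hg
    exact ⟨⟨χ, hχ⟩, hχg⟩) _ hv
  have hdep : ¬ LinearIndependent ℝ fun χ : F => ((χ : Γ →+ ℝ).comp w : (Fin r → ℤ) → ℝ) := by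
    intro hli
    obtain ⟨g, hg⟩ := exists_negative (fun χ : F => (χ : Γ →+ ℝ).comp w) hli
    obtain ⟨χ, hχ, -⟩ := hpos _ hv0
    have hg0 : g ≠ 0 := by
      intro h0
      have := hg ⟨χ, hχ⟩
      rw [h0, map_zero] at this
      exact lt_irrefl _ this
    obtain ⟨ψ, hψ, hψg⟩ := hpos g hg0
    have h1 : ψ (w g) < 0 := hg ⟨ψ, hψ⟩
    linarith
  have hlt := rank_lt (fun χ : F => (χ : Γ →+ ℝ).comp w) hdep
  rw [Fintype.card_coe] at hlt
  have hcard : F.card = r + 1 := by omega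
  have e := F.equivFinOfCardEq hcard
  obtain ⟨χ, hχe⟩ : ∃ χ : Fin (r + 1) → Γ →+ ℝ, χ = fun i => (e.symm i : Γ →+ ℝ) := ⟨_, rfl⟩
  have hχinj : Function.Injective χ := by
    rw [hχe]
    exact fun i j hij => e.symm.injective (Subtype.ext hij)
  have hχchar : ∀ i, IsChar C T (χ i) := by
    intro i
    rw [hχe]
    exact (hmem _).1 (e.symm i).2
  have hχsurj : ∀ ψ ∈ F, ∃ i, χ i = ψ := by
    intro ψ hψ
    refine ⟨e ⟨ψ, hψ⟩, ?_⟩
    rw [hχe]
    show ((e.symm (e ⟨ψ, hψ⟩) : F) : Γ →+ ℝ) = ψ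
    rw [e.symm_apply_apply]
  have hrank2 := rank_lower (fun i => (χ i).comp w) hδ (fun g hg => by
    obtain ⟨ψ, hψ, hψg⟩ := hgap g hg
    obtain ⟨i, rfl⟩ := hχsurj ψ hψ
    exact ⟨i, hψg⟩) _ hv
  have hsum := sum_zero hC h hA hJ hJT hJpos χ hχchar hχinj
  have hconst : ∀ a : Fin (r + 1) → ℝ, (∀ x, ∑ j, a j * χ j (w x) = 0) → ∃ t : ℝ, ∀ j, a j = t :=
    fun a ha => relation_const (fun i => (χ i).comp w) (Fintype.card_fin _) hrank2
      (fun g => hsum (w g)) a ha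
  choose c hc hc0 hcχ using hχchar
  refine ⟨c, χ, hc, hcχ, prod_pos hC h hA hJ hJT hJpos c hc hc0 χ hcχ hχinj, hsum, fun i => ?_,
    hconst⟩
  rw [Fintype.linearIndependent_iff]
  intro a ha
  obtain ⟨a', ha'⟩ : ∃ a' : Fin (r + 1) → ℝ,
    a' = fun j => if hj : j ≠ i then a ⟨j, hj⟩ else 0 := ⟨_, rfl⟩
  have ha'i : a' i = 0 := by
    rw [ha']
    simp
  have ha'j : ∀ j : {j // j ≠ i}, a' j.1 = a j := by
    intro j
    rw [ha']
    simp [j.2]
  obtain ⟨t, ht⟩ := hconst a' (by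
    intro g
    rw [← Finset.add_sum_erase _ _ (Finset.mem_univ i), ha'i, zero_mul, zero_add,
      Finset.sum_subtype (Finset.univ.erase i) (p := fun j => j ≠ i) (by simp)]
    have := congrFun ha (w g)
    rw [Finset.sum_apply] at this
    refine (Finset.sum_congr rfl fun j _ => ?_).trans this
    rw [ha'j, Pi.smul_apply, smul_eq_mul])
  intro j
  rw [← ha'j, ht j.1, ← ht i, ha'i]

end forms

end Pool.Agent.U935.KS
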