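import Mathlib
import Pool.Agent.U935.KS.GeoDefs
import Pool.Agent.U935.KS.Chars
import Pool.Agent.U935.KS.Group2
import Pool.Agent.U935.KS.Rank

set_option autoImplicit false

namespace Pool.Agent.U935.KS

open Pool.Agent.Q8.KS Filter Topology

variable {G : Type} [Group G] {V : Variety G} {Z : Zariski V} {Q : Geometry V Z} {Γ : Type}
  [AddCommGroup Γ]

lemma coneAction (P : GroupAction Q Γ) : ConeAction V.Nef fun g => (P.act g).ns :=
  ⟨P.ns_zero, P.ns_add, fun g x hx => (P.act g).nef x hx⟩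

/-- The augmented base locus of the sum of nef eigenclasses is invariant. -/
lemma base_invariant (P : GroupAction Q Γ) {m : ℕ} (c : Fin (m + 1) → V.NS)
    (χ : Fin (m + 1) → Γ →+ ℝ) (hc : ∀ i, c i ∈ V.Nef)
    (hχ : ∀ i g, (P.act g).ns (c i) = Real.exp (χ i g) • c i) (g : Γ) :
    ∀ x, x ∈ Q.base (∑ i, c i) → (P.act g).pt x ∈ Q.base (∑ i, c i) := by
  -- the preimage is contained in the locus
  have key : ∀ g : Γ, (P.act g).pt ⁻¹' Q.base (∑ i, c i) ⊆ Q.base (∑ i, c i) := by
    intro g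
    obtain ⟨i0, -, hmin⟩ := Finset.exists_min_image Finset.univ (fun i => Real.exp (χ i g))
      ⟨(0 : Fin (m + 1)), Finset.mem_univ _⟩
    have h1 : (P.act g).ns (∑ i, c i) = Real.exp (χ i0 g) • (∑ i, c i) +
        ∑ i, (Real.exp (χ i g) - Real.exp (χ i0 g)) • c i := by
      rw [map_sum, Finset.smul_sum, ← Finset.sum_add_distrib]
      refine Finset.sum_congr rfl fun i _ => ?_
      rw [hχ, sub_smul]
      abel
    have h2 : ∑ i, (Real.exp (χ i g) - Real.exp (χ i0 g)) • c i ∈ V.Nef := by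
      refine Finset.sum_induction _ (fun x => x ∈ V.Nef) (fun x y hx hy => V.nef_cone.add x hx y hy)
        V.nef_cone.zero fun i _ => ?_
      exact V.nef_cone.smul _ (by linarith [hmin i (Finset.mem_univ i)]) _ (hc i)
    rw [← P.base_ns, h1]
    refine (Q.base_add _ _ h2).trans ?_
    rw [Q.base_smul _ _ (Real.exp_pos _)]
  intro x hx
  apply key (-g)
  rw [Set.mem_preimage, ← P.act_add, neg_add_cancel, P.act_zero]
  exact hx

/-- **The classes of Dinh and Sibony** exist for groups of maximal rank. -/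
theorem exists_action (P : GroupAction Q Γ) (hdim : 1 ≤ V.dimPred)
    (hP : MaximalEntropyRank P) :
    ∃ R : AbelianAction V Z Γ (Fin (V.dimPred + 1)), R.act = P.act ∧ MaximalRank R ∧
      (∀ g, ∑ i, R.χ i g = 0) ∧ (∀ i, R.D i ∈ V.Nef) ∧ 0 < V.int R.D ∧
      R.Null = Q.base (∑ i, R.D i) ∧
      ∃ w : (Fin V.dimPred → ℤ) →+ Γ, ∀ a : Fin (V.dimPred + 1) → ℝ,
        (∀ x, ∑ j, a j * R.χ j (w x) = 0) → ∃ t : ℝ, ∀ j, a j = t := by
  obtain ⟨A, w, hA, hw⟩ := hP
  have hpos : ∀ c ∈ V.Nef, c ≠ 0 → 0 < V.int.curryLeft c fun _ => V.cls A :=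
    fun c hc hc0 => V.int_pos _ hA c hc hc0
  obtain ⟨c, χ, hc, hχ, hJ, hsum, hli, hconst⟩ := characters V.nef_cone (coneAction P)
    (V.deg (V.cls A)) hpos hA Q.good P.int_ns hpos Q.lattice P.lattice_ns hdim w hw
  have hnefsum : ∑ i, c i ∈ V.Nef :=
    Finset.sum_induction _ (fun x => x ∈ V.Nef) (fun x y hx hy => V.nef_cone.add x hx y hy)
      V.nef_cone.zero fun i _ => hc i
  have hbig : ∑ i, c i ∈ interior Z.Eff := by
    refine Q.big _ hnefsum (dom_pos V.nef_cone Q.good hc (fun _ => hnefsum) (fun i => ?_) hJ)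
    refine ⟨1, zero_le_one, ?_⟩
    rw [one_smul, ← Finset.add_sum_erase _ _ (Finset.mem_univ i), add_sub_cancel_left]
    exact Finset.sum_induction _ (fun x => x ∈ V.Nef)
      (fun x y hx hy => V.nef_cone.add x hx y hy) V.nef_cone.zero fun i _ => hc i
  refine ⟨{ act := P.act, act_zero := P.act_zero, act_add := P.act_add, D := c, χ := χ,
            eigen := fun g i => hχ i g, big := hbig, eff_map := P.eff_ns, deg_eff := Q.deg_eff,
            Null := Q.base (∑ i, c i), null_closed := Q.base_closed _,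
            null_ne := Q.base_ne _ hbig,
            null_inv := fun g => base_invariant P c χ hc hχ g,
            null_height := ?_ }, rfl, ⟨?_, hli, fun _ => 1, fun _ => one_pos, fun g => ?_⟩, hsum,
          hc, hJ, rfl, w, hconst⟩
  · intro E B u v hE hB hu hv
    obtain ⟨ε, C, hε, h⟩ := Q.base_height E B u v (hE ▸ hbig) hB hu hv
    rw [hE] at h
    exact ⟨ε, C, hε, h⟩
  · rw [Fintype.card_fin]
    omega
  · simp only [one_mul]
    exact hsum g

/-- The first dynamical degrees are given by the characters. -/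
lemma dynamical_eq (R : AbelianAction V Z Γ (Fin (V.dimPred + 1))) (hdim : 1 ≤ V.dimPred)
    (hsum : ∀ g, ∑ i, R.χ i g = 0) (hnef : ∀ i, R.D i ∈ V.Nef) (hJ : 0 < V.int R.D) {A : V.Pic}
    (hA : V.IsAmple A) (g : Γ) :
    IsDynamicalDegree (R.act g) A (rate R Finset.univ g) := by
  have hne : ∀ i, R.D i ≠ 0 := by
    intro i h0
    rw [V.int.map_coord_zero i h0] at hJ
    exact lt_irrefl _ hJ
  have hl : ∀ x ∈ V.Nef, x ≠ 0 → 0 < V.deg (V.cls A) x := fun x hx hx0 => V.int_pos _ hA x hx hx0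
  have hA0 : V.cls A ≠ 0 := by
    intro h0
    have h1 : 0 < V.int.curryLeft (R.D 0) fun _ => V.cls A := V.int_pos _ hA _ (hnef 0) (hne 0)
    rw [MultilinearMap.map_coord_zero (V.int.curryLeft (R.D 0)) (⟨0, hdim⟩ : Fin V.dimPred)
      (m := fun _ => V.cls A) h0] at h1
    exact lt_irrefl _ h1
  obtain ⟨T, hT⟩ : ∃ T, T = (R.act g).ns := ⟨_, rfl⟩
  have hTnef : ∀ x ∈ V.Nef, T x ∈ V.Nef := by
    rw [hT]
    exact (R.act g).nef
  have hinj : Function.Injective T := by
    rw [hT]
    apply (R.act g).injective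
    intro y
    refine ⟨(R.act (-g)).pt y, ?_⟩
    rw [← R.act_add, add_neg_cancel, R.act_zero]
  obtain ⟨d, hd, hlim⟩ := growth_limit V.nef_cone (V.deg (V.cls A)) hl hA hA0 T hTnef hinj
  have hdyn : IsDynamicalDegree (R.act g) A d := by
    rw [IsDynamicalDegree, ← hT]
    exact hlim
  have hle : d ≤ rate R Finset.univ g := dynamical_le R hA g hdyn
  have hge : ∀ i, Real.exp (R.χ i g) ≤ d := by
    intro i
    by_contra hlt
    have hlt : d < Real.exp (R.χ i g) := not_le.1 hlt
    obtain ⟨M, hM, hunit⟩ := unit_le V.nef_cone hA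
    have hnn : ∀ k : ℕ, 0 ≤ V.deg (V.cls A) ((T ^ k) (V.cls A)) := by
      intro k
      have h1 : (T ^ k) (V.cls A) ∈ V.Nef := pow_mem hTnef k (interior_subset hA)
      by_cases h0 : (T ^ k) (V.cls A) = 0
      · rw [h0, map_zero]
      · exact (hl _ h1 h0).le
    have hTn : ∀ n : ℕ, (T ^ n) (R.D i) = Real.exp (R.χ i g) ^ n • R.D i := by
      intro n
      induction n with
      | zero => simp
      | succ n ih =>
        rw [pow_succ', Module.End.mul_apply, ih, map_smul, hT, R.eigen, smul_smul, pow_succ]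
    have hli : 0 < V.deg (V.cls A) (R.D i) := hl _ (hnef i) (hne i)
    have hn0 : 0 < ‖R.D i‖ := norm_pos_iff.2 (hne i)
    refine no_gt (c := V.deg (V.cls A) (R.D i) / (M * ‖R.D i‖)) hd hlt (by positivity) hnn hlim 0
      fun k _ => ?_
    have h1 : (T ^ k) ((M * ‖R.D i‖) • V.cls A - R.D i) ∈ V.Nef := pow_mem hTnef k (hunit _)
    have h2 : 0 ≤ V.deg (V.cls A) ((T ^ k) ((M * ‖R.D i‖) • V.cls A - R.D i)) := by
      by_cases h0 : (T ^ k) ((M * ‖R.D i‖) • V.cls A - R.D i) = 0
      · rw [h0, map_zero]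
      · exact (hl _ h1 h0).le
    rw [map_sub, map_sub, map_smul, map_smul, hTn, map_smul, smul_eq_mul, smul_eq_mul] at h2
    rw [div_mul_eq_mul_div, div_le_iff₀ (by positivity)]
    linarith
  have hone : 1 ≤ d := by
    obtain ⟨i, hi⟩ : ∃ i, 0 ≤ R.χ i g := by
      by_contra hcon
      push Not at hcon
      have h1 := Finset.sum_neg (fun i _ => hcon i)
        (⟨(0 : Fin (V.dimPred + 1)), Finset.mem_univ _⟩ : (Finset.univ : Finset (Fin _)).Nonempty)
      rw [hsum g] at h1
      exact lt_irrefl _ h1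
    exact (Real.one_le_exp hi).trans (hge i)
  have hrd : rate R Finset.univ g = d := by
    refine le_antisymm ?_ hle
    rcases rate_cases R Finset.univ g with h | ⟨i, -, h⟩
    · rw [h]
      exact hone
    · rw [h]
      exact hge i
  rw [hrd]
  exact hdyn

/-- Outside of the null locus, all characters occur in the heights along an infinite orbit. -/
lemma spectrum_univ (hV : NumberField V) (R : AbelianAction V Z Γ (Fin (V.dimPred + 1)))
    (hR : MaximalRank R) {A : V.Pic} (hA : V.IsAmple A) {u : V.Pt → ℝ} (hu : V.IsHeight A u)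
    {x : V.Pt} (hx : x ∉ R.Null) (hinf : InfiniteGroupOrbit R x) :
    Spectrum R u x Finset.univ := by
  obtain ⟨hE, hB⟩ := exposed_balanced R hR
  obtain ⟨S, hS⟩ := spectrum hV R hE hA hu hx
  have hne := hS.nonempty_iff.2 hinf
  have huniv : S = Finset.univ := by
    by_contra h
    obtain ⟨g', hg'⟩ := hB S hne h
    obtain ⟨i, hi, hi0⟩ := hS.balanced hne g'
    have := hg' i hi
    linarith
  rwa [huniv] at hS

/-- **The conjecture of Kawaguchi and Silverman** for groups of maximal rank and positive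
entropy. -/
theorem kawaguchi_silverman (hV : NumberField V) (P : GroupAction Q Γ) (hdim : 1 ≤ V.dimPred)
    (hP : MaximalEntropyRank P) :
    ∃ (χ : Fin (V.dimPred + 1) → Γ →+ ℝ) (B : Set V.Pt), NefCharacters P χ ∧ Exceptional P B ∧
      ∀ (A : V.Pic) (u : V.Pt → ℝ), V.IsAmple A → V.IsHeight A u →
        (∀ g, IsDynamicalDegree (P.act g) A (topRate χ g)) ∧
        (∀ x, x ∉ B → InfiniteUnder P x → HeightGrowth P u χ x ∧
          ∀ g, IsArithmeticDegree (P.act g) u x (topRate χ g)) ∧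
        (∀ e : ℕ, {x | x ∉ B ∧ (MulAction.orbit G x).ncard ≤ e ∧ ¬ InfiniteUnder P x}.Finite) ∧
        ∀ g x, DenseOrbit Z (P.act g) x → IsArithmeticDegree (P.act g) u x (topRate χ g) := by
  obtain ⟨R, hact, hR, hsum, hnef, hJ, -, -⟩ := exists_action P hdim hP
  have hinf : ∀ x, InfiniteGroupOrbit R x ↔ InfiniteUnder P x := by
    intro x
    rw [InfiniteGroupOrbit, hact]
    rfl
  refine ⟨R.χ, R.Null, ⟨⟨R.D, hnef, fun i g => ?_, hJ⟩, hsum, hR.2.1⟩,
    ⟨R.null_closed, R.null_ne, fun g x hx => ?_⟩, fun A u hA hu => ?_⟩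
  · rw [← hact]
    exact R.eigen g i
  · rw [← hact]
    exact R.null_inv g x hx
  have hdeg : ∀ x, x ∉ R.Null → InfiniteUnder P x →
      ∀ g, IsArithmeticDegree (P.act g) u x (topRate R.χ g) := by
    intro x hx hi g
    have h1 := degree_of_spectrum R (spectrum_univ hV R hR hA hu hx ((hinf x).2 hi)) g
    rw [hact] at h1
    exact h1
  refine ⟨fun g => ?_, fun x hx hi => ⟨?_, hdeg x hx hi⟩, fun e => ?_, fun g x hx => ?_⟩
  · rw [← hact]
    exact dynamical_eq R hdim hsum hnef hJ hA g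
  · obtain ⟨c, C, hc, hC, hb⟩ := (spectrum_univ hV R hR hA hu hx ((hinf x).2 hi)).heights
    refine ⟨c, 2 * C, hc, by positivity, fun g => ?_⟩
    have h0 : ∀ i, 0 < Real.exp (R.χ i g) := fun i => Real.exp_pos _
    have h1 : 1 ≤ ∑ i, Real.exp (R.χ i g) := by
      obtain ⟨i, hi⟩ : ∃ i, 0 ≤ R.χ i g := by
        by_contra hcon
        push Not at hcon
        have h1 := Finset.sum_neg (fun i _ => hcon i)
          (⟨(0 : Fin (V.dimPred + 1)), Finset.mem_univ _⟩ :
            (Finset.univ : Finset (Fin _)).Nonempty)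
        rw [hsum g] at h1
        exact lt_irrefl _ h1
      exact (Real.one_le_exp hi).trans (Finset.single_le_sum
        (f := fun i => Real.exp (R.χ i g)) (fun j _ => (h0 j).le) (Finset.mem_univ i))
    have h2 := hb g
    rw [hact] at h2
    constructor
    · refine le_trans ?_ h2.1
      nlinarith
    · refine h2.2.trans ?_
      nlinarith
  · have h1 := finite_orbits hV R (exposed_balanced R hR).1 hA hu e
    refine h1.subset ?_
    rintro x ⟨h2, h3, h4⟩
    exact ⟨h2, h3, fun h => h4 ((hinf x).1 h)⟩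
  · rw [← hact] at hx
    obtain ⟨h1, h2⟩ := of_dense R g hx
    refine hdeg x h1 ?_ g
    intro hfin
    refine h2 (Set.Finite.subset hfin ?_)
    rintro _ ⟨n, rfl⟩
    refine ⟨n • g, ?_⟩
    simp only [act_iterate, ← hact]

end Pool.Agent.U935.KS
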