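import Mathlib
import Pool.Agent.U935.KS.GeoDefs

set_option autoImplicit false

namespace Pool.Agent.U935.KS

open Pool.Agent.Q8.KS Filter Topology

/-- Known facts on the subvarieties (irreducible closed subsets) of `V` and their intersection
numbers with divisor classes. -/
structure IntersectionNumbers {G : Type} [Group G] {V : Variety G} {Z : Zariski V}
    (Q : Geometry V Z) where
  /-- the Zariski topology is noetherian -/
  noetherian : @TopologicalSpace.NoetherianSpace V.Pt Z.top
  /-- the dimension of an irreducible closed subset -/
  dim : Set V.Pt → ℕ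
  dim_lt : ∀ W : Set V.Pt, IsClosed[Z.top] W → @IsIrreducible _ Z.top W → W ≠ Set.univ →
    dim W < V.dimPred + 1
  dim_pos : ∀ W : Set V.Pt, IsClosed[Z.top] W → @IsIrreducible _ Z.top W → W.Infinite →
    0 < dim W
  /-- the intersection numbers `E_1 ⋯ E_m ⋅ W`, `m = dim W` -/
  int : ∀ W : Set V.Pt, MultilinearMap ℝ (fun _ : Fin (dim W) => V.NS) ℝ
  /-- `D^m ⋅ W > 0` for `D` nef and big and `W` not contained in the augmented base locus -/
  int_pos : ∀ W : Set V.Pt, IsClosed[Z.top] W → @IsIrreducible _ Z.top W → ∀ D ∈ V.Nef,
    D ∈ interior Z.Eff → ¬ W ⊆ Q.base D → 0 < int W (fun _ => D)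
  /-- infinitely many points of bounded degree are outside of a proper closed subset -/
  many : ∀ B : Set V.Pt, IsClosed[Z.top] B → B ≠ Set.univ →
    ∃ e : ℕ, {x : V.Pt | x ∉ B ∧ (MulAction.orbit G x).ncard ≤ e}.Infinite

variable {G : Type} [Group G] {V : Variety G} {Z : Zariski V} {Q : Geometry V Z} {Γ : Type}
  [AddCommGroup Γ]

/-- The automorphisms are continuous in the Zariski topology, and those which map a subvariety
onto itself preserve the intersection numbers on it. -/
structure Preserves (P : GroupAction Q Γ) (S : IntersectionNumbers Q) : Prop where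
  continuous : ∀ g, Continuous[Z.top, Z.top] (P.act g).pt
  int_map : ∀ W : Set V.Pt, IsClosed[Z.top] W → @IsIrreducible _ Z.top W → ∀ g : Γ,
    (P.act g).pt '' W = W → ∀ E : Fin (S.dim W) → V.NS,
      S.int W (fun j => (P.act g).ns (E j)) = S.int W E

/-- The orbit of `x` under the group is Zariski dense. -/
def DenseUnder (P : GroupAction Q Γ) (x : V.Pt) : Prop :=
  @Dense _ Z.top (Set.range fun g : Γ => (P.act g).pt x)

/-- The rational points over a finite extension of the ground field are Zariski dense: for a
subgroup `H` of finite index of the Galois group, the points fixed by `H` are dense. -/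
def DensePoints (Z : Zariski V) : Prop :=
  ∃ H : Subgroup G, H.FiniteIndex ∧ @Dense _ Z.top {y : V.Pt | ∀ g ∈ H, g • y = y}

/-- Campana's core of `V`: a rational map `map`, defined on the nonempty open subset `dom`, which is
invariant under a subgroup of finite index of `Γ` (the core is equivariant under automorphisms,
its orbifold base is of general type, and the automorphism groups of such orbifolds are
finite). -/
structure CoreMap (P : GroupAction Q Γ) where
  /-- the points of the base of the core -/
  Base : Type
  /-- the domain of the core map -/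
  dom : Set V.Pt
  dom_open : IsOpen[Z.top] dom
  dom_nonempty : dom.Nonempty
  /-- the core map -/
  map : V.Pt → Base
  /-- the fibres are closed in the domain -/
  fibre_closed : ∀ t : Base, ∃ F : Set V.Pt, IsClosed[Z.top] F ∧ ∀ x ∈ dom, x ∈ F ↔ map x = t
  /-- a subgroup of finite index which acts trivially on the base -/
  sub : AddSubgroup Γ
  finiteIndex : sub.FiniteIndex
  invariant : ∀ g ∈ sub, ∀ x ∈ dom, (P.act g).pt x ∈ dom → map ((P.act g).pt x) = map x

/-- The core map is constant; by Campana this means that `V` is special. -/
def CoreConstant {P : GroupAction Q Γ} (c : CoreMap P) : Prop :=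
  ∀ x ∈ c.dom, ∀ y ∈ c.dom, c.map x = c.map y

end Pool.Agent.U935.KS
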