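import Mathlib
import Pool.Agent.U935.KS.SubDefs
import Pool.Agent.U935.KS.Derive
import Pool.Agent.U935.KS.Dense

set_option autoImplicit false

namespace Pool.Agent.U935.KS

open Pool.Agent.Q8.KS Filter Topology

variable {G : Type} [Group G] {V : Variety G} {Z : Zariski V} {Q : Geometry V Z} {Γ : Type}
  [AddCommGroup Γ]

/-- The facts on subvarieties for the derived action. -/
lemma exists_subvarieties (P : GroupAction Q Γ) (S : IntersectionNumbers Q) (hS : Preserves P S)
    (R : AbelianAction V Z Γ (Fin (V.dimPred + 1))) (hact : R.act = P.act)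
    (hnef : ∀ i, R.D i ∈ V.Nef) (hNull : R.Null = Q.base (∑ i, R.D i)) :
    Nonempty (Subvarieties R) := by
  have hsum : ∑ i, R.D i ∈ V.Nef :=
    Finset.sum_induction _ (fun x => x ∈ V.Nef) (fun x y hx hy => V.nef_cone.add x hx y hy)
      V.nef_cone.zero fun i _ => hnef i
  exact ⟨{ noetherian := S.noetherian
           continuous := by rw [hact]; exact hS.continuous
           dim := S.dim
           dim_lt := S.dim_lt
           dim_pos := S.dim_pos
           int := S.int
           int_pos := fun W h1 h2 h3 => S.int_pos W h1 h2 _ hsum R.big (by rwa [← hNull])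
           int_map := by rw [hact]; exact hS.int_map
           many := S.many _ R.null_closed R.null_ne }⟩

/-- **Potential density** for groups of maximal rank and positive entropy. -/
theorem density (hV : NumberField V) (P : GroupAction Q Γ) (S : IntersectionNumbers Q)
    (hS : Preserves P S) (hdim : 1 ≤ V.dimPred) (hP : MaximalEntropyRank P) :
    (∃ B : Set V.Pt, Exceptional P B ∧ (∀ x, x ∉ B → InfiniteUnder P x → DenseUnder P x) ∧
      ∀ e : ℕ, {x | x ∉ B ∧ (MulAction.orbit G x).ncard ≤ e ∧ ¬ DenseUnder P x}.Finite) ∧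
    DensePoints Z := by
  obtain ⟨A, -, hA, -⟩ := id hP
  obtain ⟨u, hu, -⟩ := V.galois_height A
  obtain ⟨R, hact, hR, hsum, hnef, hJ, hNull, -⟩ := exists_action P hdim hP
  obtain ⟨S'⟩ := exists_subvarieties P S hS R hact hnef hNull
  have hshort := noShortRelation R hR (by rw [Fintype.card_fin])
  have hexp := (exposed_balanced R hR).1
  have hinf : ∀ x, InfiniteGroupOrbit R x ↔ InfiniteUnder P x := by
    intro x
    rw [InfiniteGroupOrbit, hact]
    rfl
  have hden : ∀ x, DenseGroupOrbit R x ↔ DenseUnder P x := by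
    intro x
    rw [DenseGroupOrbit, hact]
    rfl
  refine ⟨⟨R.Null, ⟨R.null_closed, R.null_ne, fun g x hx => ?_⟩, fun x hx hi => ?_, fun e => ?_⟩,
    potentially_dense hV R S' hexp hshort hA hu⟩
  · rw [← hact]
    exact R.null_inv g x hx
  · exact (hden x).1 (dense_orbit R S' hshort hx ((hinf x).2 hi))
  · refine (finite_nondense hV R S' hexp hshort hA hu e).subset ?_
    rintro x ⟨h1, h2, h3⟩
    exact ⟨h1, h2, fun h => h3 ((hden x).1 h)⟩

/-- The restriction of the action to a subgroup. -/
def GroupAction.restrict (P : GroupAction Q Γ) (H : AddSubgroup Γ) : GroupAction Q H where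
  act g := P.act g.1
  act_zero := P.act_zero
  act_add g h := P.act_add g.1 h.1
  ns_zero := P.ns_zero
  ns_add g h := P.ns_add g.1 h.1
  int_ns g := P.int_ns g.1
  eff_ns g := P.eff_ns g.1
  lattice_ns g := P.lattice_ns g.1
  base_ns g := P.base_ns g.1

lemma restrict_rank (P : GroupAction Q Γ) {H : AddSubgroup Γ} (hH : H.FiniteIndex)
    (hP : MaximalEntropyRank P) : MaximalEntropyRank (P.restrict H) := by
  obtain ⟨A, w, hA, hw⟩ := hP
  have hmem : ∀ g : Γ, H.index • g ∈ H := fun g => H.nsmul_index_mem g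
  have hidx : H.index ≠ 0 := hH.index_ne_zero
  let w' : (Fin V.dimPred → ℤ) →+ H :=
    { toFun := fun a => ⟨w (H.index • a), by rw [map_nsmul]; exact hmem _⟩
      map_zero' := by
        apply Subtype.ext
        simp
      map_add' := fun a b => by
        apply Subtype.ext
        simp [smul_add] }
  refine ⟨A, w', hA, fun a ha => ?_⟩
  have hne : H.index • a ≠ 0 := by
    intro h
    apply ha
    ext i
    have h1 := congrFun h i
    rw [Pi.smul_apply, Pi.zero_apply, nsmul_eq_mul] at h1
    rcases mul_eq_zero.1 h1 with h2 | h2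
    · exact absurd (by exact_mod_cast h2) hidx
    · exact h2
  exact hw _ hne

/-- Some point has a dense orbit. -/
lemma exists_dense (hV : NumberField V) (P : GroupAction Q Γ) (S : IntersectionNumbers Q)
    (hS : Preserves P S) (hdim : 1 ≤ V.dimPred) (hP : MaximalEntropyRank P) :
    ∃ x, DenseUnder P x := by
  obtain ⟨⟨B, hB, -, hfin⟩, -⟩ := density hV P S hS hdim hP
  obtain ⟨e, he⟩ := S.many B hB.closed hB.ne_univ
  obtain ⟨x, ⟨hx1, hx2⟩, hx3⟩ := (he.sdiff (hfin e)).nonempty
  refine ⟨x, ?_⟩
  by_contra h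
  exact hx3 ⟨hx1, hx2, h⟩

/-- **The core is constant.** -/
theorem core_constant (hV : NumberField V) (P : GroupAction Q Γ) (S : IntersectionNumbers Q)
    (hS : Preserves P S) (hdim : 1 ≤ V.dimPred) (hP : MaximalEntropyRank P) (c : CoreMap P) :
    CoreConstant c := by
  letI := Z.top
  obtain ⟨x, hx⟩ := exists_dense hV (P.restrict c.sub) S
    ⟨fun g => hS.continuous g.1, fun W h1 h2 g => hS.int_map W h1 h2 g.1⟩ hdim
    (restrict_rank P c.finiteIndex hP)
  have hdense : Dense (Set.range fun g : c.sub => (P.act g.1).pt x) := hx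
  obtain ⟨_, hy, ⟨g0, rfl⟩⟩ := hdense.inter_open_nonempty c.dom c.dom_open c.dom_nonempty
  obtain ⟨F, hF, hFd⟩ := c.fibre_closed (c.map ((P.act g0.1).pt x))
  have hsub : (Set.range fun g : c.sub => (P.act g.1).pt x) ⊆ F ∪ c.domᶜ := by
    rintro _ ⟨g, rfl⟩
    by_cases hg : (P.act g.1).pt x ∈ c.dom
    · left
      rw [hFd _ hg]
      have h1 : (P.act (g.1 - g0.1)).pt ((P.act g0.1).pt x) = (P.act g.1).pt x := by
        rw [← P.act_add, sub_add_cancel]
      have h2 := c.invariant (g.1 - g0.1) (c.sub.sub_mem g.2 g0.2) _ hy (by rw [h1]; exact hg)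
      rwa [h1] at h2
    · right
      exact hg
  have hcl : IsClosed (F ∪ c.domᶜ) := hF.union c.dom_open.isClosed_compl
  have huniv : F ∪ c.domᶜ = Set.univ := by
    rw [← Set.univ_subset_iff, ← hdense.closure_eq]
    exact closure_minimal hsub hcl
  have key : ∀ y ∈ c.dom, c.map y = c.map ((P.act g0.1).pt x) := by
    intro y hyd
    have h1 : y ∈ F ∪ c.domᶜ := by
      rw [huniv]
      exact Set.mem_univ y
    rcases h1 with h1 | h1
    · exact (hFd y hyd).1 h1
    · exact absurd hyd h1
  intro y hyd z hzd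
  rw [key y hyd, key z hzd]

end Pool.Agent.U935.KS
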